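import Pool.Agent.Lib.MP_a01f70_lc.BA.Wt

/-! Small integers are not exceptional. -/

set_option autoImplicit false
set_option linter.unusedSectionVars false

noncomputable section

namespace Pool.Agent.Lib.MP_a01f70_lc.BA

open Finset ZMod
open scoped ComplexConjugate

variable {N n : ℕ} [NeZero N] [NeZero n]

theorem Azero_wt_sum {R : Type*} [CommRing R] {ι : Type*} (s : Finset ι) (e : ι → ℕ) :
    Wt s.card (∑ i ∈ s, (2 : R) ^ e i) := by
  classical
  induction s using Finset.induction_on with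
  | empty => simpa using wt_zero 0
  | insert a s ha ih =>
    rw [sum_insert ha, card_insert_of_notMem ha, add_comm s.card]
    exact (wt_pow _).add ih

/-- The numbers with one binary digit in each block. -/
def Azero_F (r B : ℕ) (f : Fin r → Fin B) : Fin ((2 ^ B) ^ r) :=
  finFunctionFinEquiv fun j => (⟨2 ^ (f j : ℕ), Nat.pow_lt_pow_right (by norm_num) (f j).2⟩ :
    Fin (2 ^ B))

theorem Azero_inj (r B : ℕ) : Function.Injective (Azero_F r B) := by
  intro f g h
  have h1 := finFunctionFinEquiv.injective h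
  funext j
  have h2 : 2 ^ (f j : ℕ) = 2 ^ (g j : ℕ) := congrArg Fin.val (congrFun h1 j)
  exact Fin.ext (Nat.pow_right_injective le_rfl h2)

theorem Azero_wt (r B : ℕ) (f : Fin r → Fin B) (R : Type*) [CommRing R] :
    Wt r (((Azero_F r B f : ℕ) : ℤ) : R) := by
  have h := Azero_wt_sum (R := R) (univ : Finset (Fin r)) fun j => (f j : ℕ) + B * j
  rw [card_univ, Fintype.card_fin] at h
  convert h using 1
  rw [Azero_F, finFunctionFinEquiv_apply]
  push_cast
  refine sum_congr rfl fun j _ => ?_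
  rw [pow_add, pow_mul]

/-- Pigeonhole. The `B ^ r` numbers `∑ j, 2 ^ (j * B + f j)`, `f : Fin r → Fin B`, are distinct
(`Finset.geomSum_injective` on the image sets, or compare blocks) and less than `2 ^ (r * B)`; two
of them are congruent modulo `|a|`. Their difference is `a * u`. -/
theorem exists_mul {r B : ℕ} {a : ℤ} (h0 : a ≠ 0) (ha : |a| < B ^ r) :
    ∃ u : ℤ, a * u ≠ 0 ∧ |a * u| < 2 ^ (r * B) ∧ ∀ (R : Type) [CommRing R],
      Wt (2 * r) ((a * u : ℤ) : R) := by
  have hp : 0 < a.natAbs := Int.natAbs_pos.2 h0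
  have : NeZero a.natAbs := ⟨hp.ne'⟩
  have hc : Fintype.card (ZMod a.natAbs) < Fintype.card (Fin r → Fin B) := by
    rw [ZMod.card, Fintype.card_fun, Fintype.card_fin, Fintype.card_fin]
    rw [← Int.natCast_natAbs] at ha
    exact_mod_cast ha
  obtain ⟨f, g, hfg, h⟩ := Fintype.exists_ne_map_eq_of_card_lt
    (fun f : Fin r → Fin B => (((Azero_F r B f : ℕ) : ℤ) : ZMod a.natAbs)) hc
  have h1 : a ∣ ((Azero_F r B g : ℕ) : ℤ) - ((Azero_F r B f : ℕ) : ℤ) :=
    Int.natAbs_dvd.1 ((ZMod.intCast_eq_intCast_iff_dvd_sub _ _ _).1 h)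
  obtain ⟨u, hu⟩ := h1
  refine ⟨u, ?_, ?_, fun R _ => ?_⟩
  · rw [← hu, sub_ne_zero]
    intro h2
    exact hfg (Azero_inj r B (Fin.ext (by exact_mod_cast h2.symm)))
  · have h3 : ∀ f, ((Azero_F r B f : ℕ) : ℤ) < 2 ^ (r * B) := fun f => by
      have := (Azero_F r B f).2
      rw [mul_comm, pow_mul]
      exact_mod_cast this
    rw [← hu, abs_lt]
    have h4 := h3 f
    have h5 := h3 g
    constructor <;> omega
  · rw [← hu, Int.cast_sub, two_mul]
    exact (Azero_wt r B g R).sub (Azero_wt r B f R)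

/-- `four`: the element times `d` has weight `4 θ ≤ u`. `int`: if `z ≠ 0` take `η = z * v` from
`exists_mul` (`r = 350`); it is not zero in `ZMod N` as `0 < |η| < 2 ^ (350 B) ≤ 2 ^ (n - 1) ≤ N`
(`SP.zero_of_small`), `|v| ≤ |η|` so `Wt (350 B) v` (`wt_int`), and `η d = v * (a d - b d)` has
weight `350 B * (2 θ) ≤ u`. -/
theorem sep (hN : N + 1 = 2 ^ n) {d : ZMod N} {u θ B M : ℕ}
    (h : ∀ η : ZMod N, η ≠ 0 → Wt 700 η → ¬Wt u (η * d)) (hB : 1 ≤ B) (hθ : 700 * B * θ ≤ u)
    (hn : 350 * B < n) (hM : 2 * M < B ^ 350) : Sep {η | Wt θ (η * d)} M := by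
  refine ⟨?_, ?_, ?_⟩
  · show Wt θ (0 * d)
    rw [zero_mul]
    exact wt_zero _
  · intro a ha b hb c hc e he h50
    by_contra h0
    refine h _ h0 (h50.mono (by norm_num)) ?_
    have h1 : (a + b - c - e) * d = a * d + b * d - c * d - e * d := by ring
    rw [h1]
    refine (((Wt.add ha hb).sub hc).sub he).mono ?_
    nlinarith
  · intro a ha b hb z hz hab
    by_contra h0
    have hz' : |z| < (B : ℤ) ^ 350 := hz.trans_lt (by exact_mod_cast hM)
    obtain ⟨v, h1, h2, h3⟩ := exists_mul h0 hz'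
    have h4 : 2 ^ (350 * B) ≤ N := by
      have h5 : 2 ^ (350 * B + 1) ≤ 2 ^ n := Nat.pow_le_pow_right (by norm_num) hn
      have h6 : 0 < 2 ^ (350 * B) := by positivity
      rw [pow_succ] at h5
      omega
    refine h ((z * v : ℤ) : ZMod N) (fun h5 => h1 (SP.zero_of_small h5 (h2.trans_le ?_)))
      (h3 _) ?_
    · exact_mod_cast h4
    · have h5 : |v| < 2 ^ (350 * B) := by
        refine lt_of_le_of_lt ?_ h2
        rw [abs_mul]
        exact le_mul_of_one_le_left (abs_nonneg _) (Int.one_le_abs h0)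
      have h6 : ((z * v : ℤ) : ZMod N) * d = (v : ZMod N) * (a * d - b * d) := by
        rw [Int.cast_mul, ← hab]
        ring
      rw [h6]
      refine ((wt_int h5).mul (Wt.sub ha hb)).mono (le_trans (le_of_eq ?_) hθ)
      ring

end Pool.Agent.Lib.MP_a01f70_lc.BA
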