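import Pool.Agent.Lib.MP_a01f70_lc.BA.Defs

/-! Random subsets. -/

set_option autoImplicit false
set_option linter.unusedSectionVars false

noncomputable section

namespace Pool.Agent.Lib.MP_a01f70_lc.BA

open Finset ZMod
open scoped ComplexConjugate

variable {N n : ℕ} [NeZero N] [NeZero n]

variable {ι : Type} [Fintype ι] [DecidableEq ι] {p : ι → ℝ}

theorem bw_nonneg (h0 : ∀ i, 0 ≤ p i) (h1 : ∀ i, p i ≤ 1) (W : Finset ι) : 0 ≤ bw p W := by
  refine prod_nonneg fun i _ => ?_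
  split_ifs
  exacts [h0 i, sub_nonneg.2 (h1 i)]

/-- `Finset.prod_add` (or `Fintype.prod_add`), `prod_ite`. -/
theorem sum_prod_ite {K : Type*} [CommRing K] (f g : ι → K) :
    ∑ W : Finset ι, ∏ i, (if i ∈ W then f i else g i) = ∏ i, (f i + g i) := by
  rw [Fintype.prod_add]
  refine sum_congr rfl fun W _ => ?_
  rw [prod_ite, filter_mem_eq_inter, univ_inter, filter_not, filter_mem_eq_inter, univ_inter,
    compl_eq_univ_sdiff]

theorem sum_bw (p : ι → ℝ) : ∑ W, bw p W = 1 := by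
  simp only [bw, sum_prod_ite, add_sub_cancel, prod_const_one]

/-- `sum_prod_ite` with `g i = if i ∈ T then 0 else 1 - p i`. -/
theorem sum_bw_ind (p : ι → ℝ) (T : Finset ι) :
    ∑ W, bw p W * (if T ⊆ W then 1 else 0) = ∏ i ∈ T, p i := by
  have h := sum_prod_ite p fun i => if i ∈ T then 0 else 1 - p i
  have h2 : ∏ i, (p i + if i ∈ T then 0 else 1 - p i) = ∏ i ∈ T, p i := by
    rw [← Fintype.prod_ite_mem T]
    exact prod_congr rfl fun i _ => by split_ifs <;> simp
  rw [← h2, ← h]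
  refine sum_congr rfl fun W _ => ?_
  by_cases hT : T ⊆ W
  · rw [if_pos hT, mul_one]
    refine prod_congr rfl fun i _ => ?_
    by_cases hi : i ∈ W
    · rw [if_pos hi, if_pos hi]
    · rw [if_neg hi, if_neg hi, if_neg fun h => hi (hT h)]
  · obtain ⟨i, h1, h3⟩ := not_subset.1 hT
    rw [if_neg hT, mul_zero]
    exact (prod_eq_zero (mem_univ i) (by rw [if_neg h3, if_pos h1])).symm

theorem sum_bw_card (p : ι → ℝ) : ∑ W, bw p W * (W.card : ℝ) = ∑ i, p i := by
  have h : ∀ W : Finset ι, (W.card : ℝ) = ∑ i, if {i} ⊆ W then 1 else 0 := fun W => by simp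
  simp only [h, mul_sum]
  rw [sum_comm]
  exact sum_congr rfl fun i _ => by rw [sum_bw_ind, prod_singleton]

theorem bw_eq_zero (p : ι → ℝ) {σ W : Finset ι} (h : ¬W ⊆ σ) :
    bw (fun i => if i ∈ σ then p i else 0) W = 0 := by
  obtain ⟨i, h1, h2⟩ := not_subset.1 h
  exact prod_eq_zero (mem_univ i) (by simp [h1, h2])

end Pool.Agent.Lib.MP_a01f70_lc.BA
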