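import Pool.Agent.Lib.MP_a01f70_lc.BA.Defs

/-! Signed weights: products, integers, moments. -/

set_option autoImplicit false
set_option linter.unusedSectionVars false

noncomputable section

namespace Pool.Agent.Lib.MP_a01f70_lc.BA

open Finset ZMod
open scoped ComplexConjugate

variable {N n : ℕ} [NeZero N] [NeZero n]

theorem wt_shift {R : Type*} [CommRing R] {T : ℕ} {y : R} (k : ℕ) (h : Wt T y) :
    Wt T (2 ^ k * y) := by
  obtain ⟨P, M, h1, h2⟩ := h
  refine ⟨P.map (k + ·), M.map (k + ·), by simpa using h1, ?_⟩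
  simp only [h2, Multiset.map_map, Function.comp_def, pow_add, Multiset.sum_map_mul_left, mul_sub]

theorem wt_msum {R : Type*} [CommRing R] {T : ℕ} {y : R} (h : Wt T y) (P : Multiset ℕ) :
    Wt (P.card * T) ((P.map (2 ^ ·)).sum * y) := by
  induction P using Multiset.induction_on with
  | empty => simpa using wt_zero 0
  | cons k P ih =>
    rw [Multiset.map_cons, Multiset.sum_cons, Multiset.card_cons, add_mul, add_mul, one_mul,
      add_comm _ T]
    exact (wt_shift k h).add ih

theorem wt_nat {R : Type*} [CommRing R] (E : ℕ) : ∀ u : ℕ, u < 2 ^ E → Wt E (u : R) := by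
  induction E with
  | zero =>
    intro u hu
    obtain rfl : u = 0 := by simpa using hu
    simpa using wt_zero 0
  | succ E ih =>
    intro u hu
    rcases lt_or_ge u (2 ^ E) with h | h
    · exact (ih u h).mono E.le_succ
    · obtain ⟨v, rfl⟩ := Nat.exists_eq_add_of_le' h
      have hv : v < 2 ^ E := by rw [pow_succ] at hu; omega
      simpa using (ih v hv).add (wt_pow E)

/-- Submultiplicativity. Multiplication by `2 ^ k` keeps the weight (map `(· + k)` on both
multisets); then induction on the two multisets of the first factor with `Wt.add`, `Wt.neg`. -/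
theorem Wt.mul {R : Type*} [CommRing R] {S T : ℕ} {x y : R} (h : Wt S x) (h' : Wt T y) :
    Wt (S * T) (x * y) := by
  obtain ⟨P, M, h1, h2⟩ := h
  rw [h2, sub_mul]
  refine ((wt_msum h' P).sub (wt_msum h' M)).mono ?_
  rw [← add_mul]
  exact Nat.mul_le_mul_right T h1

/-- A natural number below `2 ^ E` has at most `E` binary digits (induction on `E`: subtract
`2 ^ E` if the number is at least `2 ^ E`); for a negative integer use `Wt.neg`. -/
theorem wt_int {R : Type*} [CommRing R] {E : ℕ} {u : ℤ} (h : |u| < 2 ^ E) : Wt E (u : R) := by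
  have h1 : u.natAbs < 2 ^ E := by
    have h2 : ((u.natAbs : ℕ) : ℤ) < ((2 ^ E : ℕ) : ℤ) := by simpa using h
    exact_mod_cast h2
  have h2 := wt_nat (R := R) E _ h1
  rcases Int.natAbs_eq u with h3 | h3
  · rw [h3, Int.cast_natCast]
    exact h2
  · rw [h3, Int.cast_neg, Int.cast_natCast]
    exact h2.neg

/-- `x = (x.val : ℤ)` and `x.val < N < 2 ^ n`. -/
theorem wt_all (hN : N + 1 = 2 ^ n) (x : ZMod N) : Wt n x := by
  have h1 : x.val < 2 ^ n := by
    have := val_lt x
    omega
  simpa using wt_nat (R := ZMod N) n _ h1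

/-- Take the underlying multisets `P.val`, `M.val`. -/
theorem wt_of_sparse {T : ℕ} {x : ZMod N} (h : SP.Sparse n T x) : Wt T x := by
  obtain ⟨P, M, -, -, h1, h2⟩ := h
  exact ⟨P.val, M.val, h1, h2⟩

/-- From `SP.re_sum` (contrapositive of `wt_of_sparse`) and `sum_pw`. -/
theorem sum_re {T : ℕ} {x : ZMod N} (hN : N + 1 = 2 ^ n) (h : ¬Wt T x) :
    (T : ℝ) / 2 ≤ ∑ j : ZMod n, (1 - (ee (pw N j * x)).re) := by
  have h1 := SP.re_sum hN (T := T) (ξ := x) fun h' => h (wt_of_sparse h')
  rw [sum_pw (N := N) (n := n) fun z => 1 - (ee (z * x)).re, sum_sub_distrib, ← Complex.re_sum]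
  simp only [sum_const, card_range, nsmul_eq_mul, mul_one]
  linarith

/-- `‖z - 1‖ ^ 2 = 2 - 2 z.re` on the unit circle, then `sum_re`. -/
theorem le_VV {T : ℕ} {b : ZMod N} (hN : N + 1 = 2 ^ n) (h : ¬Wt T b) : (T : ℝ) ≤ VV n b := by
  have h1 := sum_re hN h
  have h2 : VV n b = 2 * ∑ j : ZMod n, (1 - (ee (pw N j * b)).re) := by
    rw [VV, mul_sum]
    refine sum_congr rfl fun j _ => ?_
    have h3 : ‖ee (pw N j * b)‖ ^ 2 = 1 := by rw [norm_ee, one_pow]
    rw [← Complex.normSq_eq_norm_sq] at h3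
    rw [ww, ← Complex.normSq_eq_norm_sq, Complex.normSq_sub, h3]
    simp
    ring
  linarith

/-- `‖w‖ ^ 2 ≤ 2 ‖w‖`. -/
theorem VV_le (b : ZMod N) : VV n b ≤ 2 * PP n b := by
  rw [VV, PP, mul_sum]
  refine sum_le_sum fun j _ => ?_
  rw [sq]
  exact mul_le_mul_of_nonneg_right (norm_ww b j) (norm_nonneg _)

end Pool.Agent.Lib.MP_a01f70_lc.BA
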