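import Pool.Agent.Lib.MP_a01f70_lc.BA.Bern
import Pool.Agent.Lib.MP_a01f70_lc.BA.Wt

/-! The law of a random sparse sum. -/

set_option autoImplicit false
set_option linter.unusedSectionVars false

noncomputable section

namespace Pool.Agent.Lib.MP_a01f70_lc.BA

open Finset ZMod
open scoped ComplexConjugate

variable {N n : ℕ} [NeZero N] [NeZero n]

variable {ι : Type} [Fintype ι] [DecidableEq ι] {p : ι → ℝ}

theorem bernB_norm {ρ : ℝ} (h0 : 0 ≤ ρ) (h1 : ρ ≤ 1 / 2) {w : ℂ} (hw : ‖w‖ = 1) :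
    ‖(ρ : ℂ) * w + ((1 - ρ : ℝ) : ℂ)‖ ≤ Real.exp (-(ρ * (1 - w.re) / 2)) := by
  have h2 : w.re ^ 2 + w.im ^ 2 = 1 := by
    have := Complex.sq_norm w
    rw [hw, Complex.normSq_apply] at this
    nlinarith
  have h3 : w.re ≤ 1 := (Complex.re_le_norm w).trans hw.le
  refine (abs_le_of_sq_le_sq' ?_ (Real.exp_pos _).le).2
  rw [← Real.exp_nat_mul, Complex.sq_norm, Complex.normSq_apply]
  refine le_trans ?_ (Real.add_one_le_exp _)
  simp only [Complex.add_re, Complex.add_im, Complex.re_ofReal_mul, Complex.im_ofReal_mul,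
    Complex.ofReal_re, Complex.ofReal_im, Nat.cast_ofNat, add_zero]
  have h4 : ρ * w.im * (ρ * w.im) = ρ ^ 2 * (1 - w.re ^ 2) := by rw [← h2]; ring
  rw [h4]
  nlinarith [mul_nonneg (mul_nonneg h0 (sub_nonneg.2 h1)) (sub_nonneg.2 h3)]

theorem bernB_ee_sum (f : ι → ZMod N) (β : Finset ι) : ee (∑ i ∈ β, f i) = ∏ i ∈ β, ee (f i) := by
  induction β using Finset.induction_on with
  | empty => simp
  | insert a s ha ih => rw [sum_insert ha, prod_insert ha, ee_add, ih]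

theorem bernB_sum (ρ : ℝ) (f : ι → ZMod N) :
    ∑ β : Finset ι, ((bw (fun _ => ρ) β : ℝ) : ℂ) * ee (∑ i ∈ β, f i) =
      ∏ i, ((ρ : ℂ) * ee (f i) + ((1 - ρ : ℝ) : ℂ)) := by
  rw [← sum_prod_ite]
  refine sum_congr rfl fun β _ => ?_
  rw [bernB_ee_sum, bw, Complex.ofReal_prod, ← Fintype.prod_ite_mem β, ← prod_mul_distrib]
  refine prod_congr rfl fun i _ => ?_
  split_ifs <;> simp

/-- `sum_prod_ite` gives `∏ i, (ρ z i + 1 - ρ)`, `z i = ee (η pw k d pw i)`, times a constant of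
norm one; `‖1 - ρ + ρ z‖ ^ 2 = 1 - 2 ρ (1 - ρ) (1 - z.re) ≤ exp (-ρ (1 - z.re))`; reindex
`i ↦ i + k` (`pw_add`) and use `sum_re` for `η d`. -/
theorem good_bw (hN : N + 1 = 2 ^ n) {ρ : ℝ} (h0 : 0 ≤ ρ) (h1 : ρ ≤ 1 / 2) (d z : ZMod N)
    (k : ZMod n) (θ : ℕ) :
    Good (bw fun _ : ZMod n => ρ) (fun β => pw N k * (d * ∑ i ∈ β, pw N i + z))
      {η | Wt θ (η * d)} (Real.exp (-(ρ * θ / 4))) := by
  refine ⟨bw_nonneg (fun _ => h0) fun _ => by linarith, sum_bw _, (Real.exp_pos _).le,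
    fun η hη => ?_⟩
  have h2 : ∀ β : Finset (ZMod n), ee (η * (pw N k * (d * ∑ i ∈ β, pw N i + z))) =
      ee (∑ i ∈ β, pw N (i + k) * (η * d)) * ee (η * (pw N k * z)) := fun β => by
    rw [← ee_add]
    simp only [pw_add hN, mul_assoc, ← sum_mul]
    congr 1
    ring
  rw [sum_congr rfl fun β _ => by rw [h2 β, ← mul_assoc], ← sum_mul, norm_mul, norm_ee, mul_one,
    bernB_sum, norm_prod]
  refine (prod_le_prod (fun _ _ => norm_nonneg _) fun i _ => bernB_norm h0 h1 (norm_ee _)).trans ?_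
  rw [← Real.exp_sum, Real.exp_le_exp, sum_neg_distrib, neg_le_neg_iff, ← sum_div, ← mul_sum,
    Fintype.sum_equiv (Equiv.addRight k) (fun i => 1 - (ee (pw N (i + k) * (η * d))).re)
      (fun j => 1 - (ee (pw N j * (η * d))).re) fun _ => rfl]
  have := mul_le_mul_of_nonneg_left (sum_re hN hη) h0
  linarith

end Pool.Agent.Lib.MP_a01f70_lc.BA
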