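import Pool.Agent.Lib.MP_a01f70_lc.BA.CoreB

/-! The expected gain. -/

set_option autoImplicit false
set_option linter.unusedSectionVars false

noncomputable section

namespace Pool.Agent.Lib.MP_a01f70_lc.BA

open Finset ZMod
open scoped ComplexConjugate

variable {N n : ℕ} [NeZero N] [NeZero n]

/-- Average `inner` over `ω` (use `g0`, `g1`, `g2`), then over `σ` (`sum_bw`, `sum_bw_ind`,
`sum_bw_three`; `R.offDiag.card ≤ R.card ^ 2`). -/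
theorem core {ι Ω G : Type} [Fintype ι] [DecidableEq ι] [Fintype Ω] [AddCommGroup G]
    (w : Ω → ℝ) (hw : ∀ ω, 0 ≤ w ω) (hw1 : ∑ ω, w ω = 1) (Y : Finset ι → Ω → G) (b : ι → G)
    (φ : G → ℝ) (hφ : ∀ y, |φ y| ≤ 2) (p : Finset ι → Ω → ι → ℝ) (h0 : ∀ σ ω i, 0 ≤ p σ ω i)
    (h1 : ∀ σ ω i, p σ ω i ≤ 1) (R : Finset ι) {q α₀ α₂ β : ℝ} (m : ι → ℝ) (hq0 : 0 ≤ q)
    (hq1 : q ≤ 1) (hα : 0 ≤ α₂)
    (hβ : ∀ y (W : Finset ι), |φ (y + ∑ i ∈ W, b i) - φ (y + ∑ i ∈ W ∩ R, b i)| ≤ β)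
    (g0 : ∀ σ, -α₀ ≤ ∑ ω, w ω * φ (Y σ ω))
    (g1 : ∀ σ, ∀ i ∈ R, m i ≤ ∑ ω, w ω * (p σ ω i * (φ (Y σ ω + b i) - φ (Y σ ω))))
    (g2 : ∀ σ i j, -α₂ ≤ ∑ ω, w ω * (p σ ω i * p σ ω j *
      (φ (Y σ ω + b i + b j) - φ (Y σ ω + b i) - φ (Y σ ω + b j) + φ (Y σ ω)))) :
    -α₀ - β + q * ∑ i ∈ R, m i - (q * R.card) ^ 2 * α₂ - 7 * (q * R.card) ^ 3 ≤
      ∑ σ, bw (fun _ : ι => q) σ * ∑ ω, w ω *
        ∑ W, bw (fun i => if i ∈ σ then p σ ω i else 0) W * φ (Y σ ω + ∑ i ∈ W, b i) := by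
  have key : ∀ σ : Finset ι, -α₀ - β + ∑ i ∈ R, (if {i} ⊆ σ then 1 else 0) * m i -
      ∑ t ∈ R.offDiag, (if {t.1, t.2} ⊆ σ then 1 else 0) * α₂ / 2 -
      7 * (((σ ∩ R).card : ℝ) * ((σ ∩ R).card - 1) * ((σ ∩ R).card - 2)) ≤ ∑ ω, w ω *
        ∑ W, bw (fun i => if i ∈ σ then p σ ω i else 0) W * φ (Y σ ω + ∑ i ∈ W, b i) := by
    intro σ
    refine le_trans ?_ (sum_le_sum fun ω _ => mul_le_mul_of_nonneg_left
      (inner φ hφ b (Y σ ω) R σ (p σ ω) (h0 σ ω) (h1 σ ω) (hβ _)) (hw ω))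
    have e1 : ∑ i ∈ R, (if {i} ⊆ σ then 1 else 0) * m i ≤ ∑ ω, w ω * ∑ i ∈ R,
        (if {i} ⊆ σ then 1 else 0) * (p σ ω i * (φ (Y σ ω + b i) - φ (Y σ ω))) := by
      simp only [mul_sum]
      rw [sum_comm]
      refine sum_le_sum fun i hi => ?_
      split_ifs
      · simpa only [one_mul] using g1 σ i hi
      · simp
    have e2 : -∑ t ∈ R.offDiag, (if {t.1, t.2} ⊆ σ then 1 else 0) * α₂ / 2 ≤
        ∑ ω, w ω * ∑ t ∈ R.offDiag, (if {t.1, t.2} ⊆ σ then 1 else 0) *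
          (p σ ω t.1 * p σ ω t.2 * (φ (Y σ ω + b t.1 + b t.2) - φ (Y σ ω + b t.1) -
            φ (Y σ ω + b t.2) + φ (Y σ ω))) / 2 := by
      simp only [mul_sum]
      rw [sum_comm, ← sum_neg_distrib]
      refine sum_le_sum fun t _ => ?_
      split_ifs
      · simp only [one_mul, ← mul_div_assoc]
        rw [← sum_div]
        linarith [g2 σ t.1 t.2]
      · simp
    have e3 : ∀ c : ℝ, ∑ ω, w ω * c = c := fun c => by rw [← sum_mul, hw1, one_mul]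
    simp only [mul_sub (w _) (_ + _ + _), mul_add (w _) (_ + _), mul_add (w _) (_ - β),
      mul_sub (w _) _ β, sum_sub_distrib, sum_add_distrib, e3]
    linarith [g0 σ]
  refine le_trans ?_ (sum_le_sum fun σ _ => mul_le_mul_of_nonneg_left (key σ)
    (bw_nonneg (fun _ => hq0) (fun _ => hq1) σ))
  have f1 : ∑ σ, bw (fun _ : ι => q) σ * ∑ i ∈ R, (if {i} ⊆ σ then 1 else 0) * m i =
      q * ∑ i ∈ R, m i := by
    simp only [mul_sum, ← mul_assoc]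
    rw [sum_comm]
    refine sum_congr rfl fun i _ => ?_
    rw [← sum_mul, sum_bw_ind, prod_singleton]
  have f2 : ∑ σ, bw (fun _ : ι => q) σ *
      ∑ t ∈ R.offDiag, (if {t.1, t.2} ⊆ σ then 1 else 0) * α₂ / 2 ≤ (q * R.card) ^ 2 * α₂ := by
    simp only [mul_sum, mul_div_assoc, ← mul_assoc]
    rw [sum_comm]
    refine (sum_le_card_nsmul _ _ (q ^ 2 * α₂) fun t ht => ?_).trans ?_
    · rw [← sum_mul, sum_bw_ind, prod_pair (mem_offDiag.1 ht).2.2, ← sq]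
      exact mul_le_mul_of_nonneg_left (by linarith) (sq_nonneg q)
    · have h2 : (R.offDiag.card : ℝ) ≤ R.card ^ 2 := by
        rw [offDiag_card, sq]
        exact_mod_cast Nat.sub_le _ _
      rw [nsmul_eq_mul, mul_pow, mul_right_comm, mul_comm]
      exact mul_le_mul_of_nonneg_left h2 (by positivity)
  have f3 := sum_bw_three hq0 R
  have f4 : ∑ σ, bw (fun _ : ι => q) σ * (-α₀ - β) = -α₀ - β := by rw [← sum_mul, sum_bw, one_mul]
  simp only [mul_sub (bw _ _) (_ + _ - _), mul_sub (bw _ _) (_ + _), mul_add (bw _ _) (_ - β),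
    mul_left_comm (bw _ _) 7, sum_sub_distrib, sum_add_distrib, ← mul_sum _ _ (7 : ℝ), f1, f4]
  linarith

end Pool.Agent.Lib.MP_a01f70_lc.BA
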