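import Pool.Agent.Lib.MP_a01f70_lc.BA.Bern

/-! Expansion to second order. -/

set_option autoImplicit false
set_option linter.unusedSectionVars false

noncomputable section

namespace Pool.Agent.Lib.MP_a01f70_lc.BA

open Finset ZMod
open scoped ComplexConjugate

variable {N n : ℕ} [NeZero N] [NeZero n]

variable {ι G : Type} [Fintype ι] [DecidableEq ι] [AddCommGroup G]

/-- Equality without the last term if `W.card ≤ 2` (`card_eq_zero`, `card_eq_one`, `card_eq_two`).
If `m = W.card ≥ 3`: first differences are at most `4`, second differences at most `8`, so the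
left side is at most `2 + 4 m + 4 m (m - 1) - 7 m (m - 1) (m - 2) ≤ -2`. -/
theorem expand (φ : G → ℝ) (hφ : ∀ y, |φ y| ≤ 2) (b : ι → G) (y : G) (W : Finset ι) :
    φ y + ∑ i ∈ W, (φ (y + b i) - φ y) +
      ∑ t ∈ W.offDiag, (φ (y + b t.1 + b t.2) - φ (y + b t.1) - φ (y + b t.2) + φ y) / 2 -
      7 * ((W.card : ℝ) * (W.card - 1) * (W.card - 2)) ≤ φ (y + ∑ i ∈ W, b i) := by
  rcases Nat.lt_or_ge W.card 3 with h | h
  · have h' : W.card = 0 ∨ W.card = 1 ∨ W.card = 2 := by omega
    rcases h' with h' | h' | h'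
    · obtain rfl := card_eq_zero.mp h'
      simp
    · obtain ⟨i, rfl⟩ := card_eq_one.mp h'
      simp
    · obtain ⟨i, j, hij, rfl⟩ := card_eq_two.mp h'
      have h1 : ({i, j} : Finset ι).offDiag = {(i, j), (j, i)} := by
        ext ⟨u, v⟩
        simp only [mem_offDiag, mem_insert, mem_singleton, Prod.mk.injEq]
        grind
      rw [h1, h', sum_pair hij, sum_pair hij, sum_pair fun h => hij (Prod.mk.inj h).1,
        add_right_comm y (b j), ← add_assoc y]
      norm_num
      linarith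
  · have h1 : ∑ i ∈ W, (φ (y + b i) - φ y) ≤ W.card • (4 : ℝ) := sum_le_card_nsmul _ _ _ fun i _ => by
      linarith [abs_le.mp (hφ (y + b i)), abs_le.mp (hφ y)]
    have h2 : ∑ t ∈ W.offDiag, (φ (y + b t.1 + b t.2) - φ (y + b t.1) - φ (y + b t.2) + φ y) / 2 ≤
        W.offDiag.card • (4 : ℝ) := sum_le_card_nsmul _ _ _ fun t _ => by
      linarith [abs_le.mp (hφ (y + b t.1 + b t.2)), abs_le.mp (hφ (y + b t.1)),
        abs_le.mp (hφ (y + b t.2)), abs_le.mp (hφ y)]
    rw [offDiag_card, nsmul_eq_mul, Nat.cast_sub (Nat.le_mul_self _), Nat.cast_mul] at h2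
    rw [nsmul_eq_mul] at h1
    have h3 : (3 : ℝ) ≤ W.card := by exact_mod_cast h
    have h4 := abs_le.mp (hφ y)
    have h5 := abs_le.mp (hφ (y + ∑ i ∈ W, b i))
    generalize (W.card : ℝ) = m at h1 h2 h3
    have h6 : 4 + 4 * (m * m) ≤ 7 * (m * (m - 1) * (m - 2)) := by
      obtain ⟨t, rfl⟩ : ∃ t, m = t + 3 := ⟨m - 3, by ring⟩
      have ht : 0 ≤ t := by linarith
      nlinarith [mul_nonneg ht ht, mul_nonneg ht (mul_nonneg ht ht)]
    linarith

theorem corea_choose (m : ℕ) : 6 * (m.choose 3 : ℝ) = m * (m - 1) * (m - 2) := by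
  induction m with
  | zero => simp
  | succ m ih =>
    rw [Nat.choose_succ_succ' m 2, Nat.cast_add, Nat.cast_choose_two, mul_add, ih]
    push_cast
    ring

/-- `m (m - 1) (m - 2)` is the number of ordered triples of distinct elements of `W ∩ R`; write it
as a sum over such triples in `R` of the indicator of `{i, j, k} ⊆ W`, use `sum_bw_ind`. -/
theorem sum_bw_three {q : ℝ} (h0 : 0 ≤ q) (R : Finset ι) :
    ∑ σ, bw (fun _ : ι => q) σ *
      (((σ ∩ R).card : ℝ) * ((σ ∩ R).card - 1) * ((σ ∩ R).card - 2)) ≤ (q * R.card) ^ 3 := by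
  have h1 : ∀ σ : Finset ι, ((σ ∩ R).card : ℝ) * ((σ ∩ R).card - 1) * ((σ ∩ R).card - 2) =
      ∑ T ∈ powersetCard 3 R, 6 * if T ⊆ σ then (1 : ℝ) else 0 := fun σ => by
    rw [← mul_sum, sum_boole, ← corea_choose, ← card_powersetCard]
    refine congrArg (fun s : Finset (Finset ι) => 6 * (s.card : ℝ)) (Finset.ext fun T => ?_)
    simp only [mem_powersetCard, mem_filter, subset_inter_iff]
    tauto
  simp only [h1, mul_sum, mul_left_comm _ (6 : ℝ)]
  rw [sum_comm]
  simp only [← mul_sum, sum_bw_ind, prod_const]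
  rw [sum_congr rfl fun T hT => by rw [(mem_powersetCard.mp hT).2], sum_const, card_powersetCard,
    nsmul_eq_mul, ← mul_assoc, corea_choose, mul_pow, mul_comm]
  refine mul_le_mul_of_nonneg_left ?_ (pow_nonneg h0 3)
  rcases Nat.eq_zero_or_pos R.card with h | h
  · simp [h]
  · have h2 : (1 : ℝ) ≤ R.card := by exact_mod_cast h
    nlinarith

end Pool.Agent.Lib.MP_a01f70_lc.BA
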