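import Pool.Agent.Lib.MP_a01f70_lc.BA.CoreA

/-! The inner expectation. -/

set_option autoImplicit false
set_option linter.unusedSectionVars false

noncomputable section

namespace Pool.Agent.Lib.MP_a01f70_lc.BA

open Finset ZMod
open scoped ComplexConjugate

variable {N n : ℕ} [NeZero N] [NeZero n]

variable {ι G : Type} [Fintype ι] [DecidableEq ι] [AddCommGroup G]

theorem CoreB_mono {a b : ℕ} (h : a ≤ b) :
    (a : ℝ) * (a - 1) * (a - 2) ≤ (b : ℝ) * (b - 1) * (b - 2) := by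
  have e : ∀ m : ℕ, (m : ℝ) * (m - 1) * (m - 2) = m.descFactorial 3 := by
    intro m
    rcases m with _ | _ | m
    · simp
    · simp
    · simp only [Nat.descFactorial_succ, Nat.descFactorial_zero, Nat.sub_zero, mul_one,
        show m + 1 + 1 - (1 + 1) = m from rfl, show m + 1 + 1 - (0 + 1) = m + 1 from rfl]
      push_cast
      ring
  rw [e, e]
  exact_mod_cast Nat.descFactorial_le 3 h

theorem CoreB_one (f : ι → ℝ) (R W : Finset ι) :
    ∑ i ∈ W ∩ R, f i = ∑ i ∈ R, (if {i} ⊆ W then 1 else 0) * f i := by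
  simp only [singleton_subset_iff, ite_mul, one_mul, zero_mul]
  rw [← sum_filter, filter_mem_eq_inter, inter_comm]

theorem CoreB_two (f : ι × ι → ℝ) (R W : Finset ι) : ∑ t ∈ (W ∩ R).offDiag, f t =
    ∑ t ∈ R.offDiag, (if {t.1, t.2} ⊆ W then 1 else 0) * f t := by
  simp only [ite_mul, one_mul, zero_mul]
  rw [← sum_filter]
  refine sum_congr ?_ fun _ _ => rfl
  ext t
  simp only [mem_offDiag, mem_inter, mem_filter, insert_subset_iff, singleton_subset_iff]
  tauto

/-- Inner expectation, for fixed candidates `σ`: `hβ`, `expand` for `W ∩ R`, the weights vanish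
unless `W ⊆ σ` (`bw_eq_zero`) and `m ↦ m (m - 1) (m - 2)` is monotone on `ℕ`; sums over `W ∩ R`
are sums over `R` with indicators, `sum_bw_ind` for `{i}` and `{i, j}`. -/
theorem inner (φ : G → ℝ) (hφ : ∀ y, |φ y| ≤ 2) (b : ι → G) (y : G) (R σ : Finset ι) (p : ι → ℝ)
    (h0 : ∀ i, 0 ≤ p i) (h1 : ∀ i, p i ≤ 1) {β : ℝ}
    (hβ : ∀ W : Finset ι, |φ (y + ∑ i ∈ W, b i) - φ (y + ∑ i ∈ W ∩ R, b i)| ≤ β) :
    φ y - β + ∑ i ∈ R, (if {i} ⊆ σ then 1 else 0) * (p i * (φ (y + b i) - φ y)) +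
      ∑ t ∈ R.offDiag, (if {t.1, t.2} ⊆ σ then 1 else 0) * (p t.1 * p t.2 *
        (φ (y + b t.1 + b t.2) - φ (y + b t.1) - φ (y + b t.2) + φ y)) / 2 -
      7 * (((σ ∩ R).card : ℝ) * ((σ ∩ R).card - 1) * ((σ ∩ R).card - 2)) ≤
      ∑ W, bw (fun i => if i ∈ σ then p i else 0) W * φ (y + ∑ i ∈ W, b i) := by
  have key : ∀ W : Finset ι, bw (fun i => if i ∈ σ then p i else 0) W *
      (φ y - β + ∑ i ∈ R, (if {i} ⊆ W then 1 else 0) * (φ (y + b i) - φ y) +
        ∑ t ∈ R.offDiag, (if {t.1, t.2} ⊆ W then 1 else 0) *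
          ((φ (y + b t.1 + b t.2) - φ (y + b t.1) - φ (y + b t.2) + φ y) / 2) -
        7 * (((σ ∩ R).card : ℝ) * ((σ ∩ R).card - 1) * ((σ ∩ R).card - 2))) ≤
      bw (fun i => if i ∈ σ then p i else 0) W * φ (y + ∑ i ∈ W, b i) := by
    intro W
    by_cases h : W ⊆ σ
    · refine mul_le_mul_of_nonneg_left ?_ (bw_nonneg (fun i => ?_) (fun i => ?_) W)
      · have e1 := expand φ hφ b y (W ∩ R)
        have e2 := (abs_le.1 (hβ W)).1
        have e3 := CoreB_mono (card_le_card (inter_subset_inter_right h : W ∩ R ⊆ σ ∩ R))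
        rw [CoreB_one, CoreB_two] at e1
        linarith
      · split_ifs
        exacts [h0 i, le_rfl]
      · split_ifs
        exacts [h1 i, zero_le_one]
    · rw [bw_eq_zero p h, zero_mul, zero_mul]
  refine le_trans (le_of_eq ?_) (sum_le_sum fun W _ => key W)
  simp only [mul_add (bw _ _), mul_sub (bw _ _), sum_add_distrib, sum_sub_distrib, ← sum_mul,
    sum_bw, one_mul]
  simp only [mul_sum, ← mul_assoc (bw _ _)]
  rw [sum_comm (s := univ), sum_comm (s := univ)]
  simp only [← sum_mul, sum_bw_ind]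
  congr 2
  · congr 1
    refine sum_congr rfl fun i _ => ?_
    rw [prod_singleton]
    by_cases h : i ∈ σ <;> simp [h]
  · refine sum_congr rfl fun t ht => ?_
    rw [prod_pair (mem_offDiag.1 ht).2.2]
    by_cases h : t.1 ∈ σ <;> by_cases h' : t.2 ∈ σ <;>
      simp [h, h', insert_subset_iff, mul_div_assoc]

end Pool.Agent.Lib.MP_a01f70_lc.BA
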