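import Pool.Agent.Lib.MP_a01f70_lc.SP.D

/-! Bounded relation for exponents with the divisibility property: definitions. -/

set_option autoImplicit false
set_option linter.unusedSectionVars false

noncomputable section

namespace Pool.Agent.Lib.MP_a01f70_lc.BA

open Finset ZMod
open scoped ComplexConjugate

/-- `x` is a signed sum of at most `T` powers of two. -/
def Wt {R : Type*} [CommRing R] (T : ℕ) (x : R) : Prop :=
  ∃ P M : Multiset ℕ, P.card + M.card ≤ T ∧ x = (P.map (2 ^ ·)).sum - (M.map (2 ^ ·)).sum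

/-- The divisibility property of an exponent. -/
def DD (n d : ℕ) : Prop :=
  ∀ P M : Multiset ℕ, 0 < P.card + M.card →
    (2 ^ n - 1) ∣ d * (P.map (2 ^ ·)).sum + (M.map (2 ^ ·)).sum → n < 2 * (P.card + M.card)

variable {N n : ℕ} [NeZero N] [NeZero n]

/-- Powers of two, indexed cyclically. -/
def pw (N : ℕ) (i : ZMod n) : ZMod N := 2 ^ i.val

/-- Signed powers of two. -/
def sp (N : ℕ) (s : Bool × ZMod n) : ZMod N := if s.1 then pw N s.2 else -pw N s.2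

/-- The standard character. -/
abbrev ee (x : ZMod N) : ℂ := stdAddChar x

/-- The move of the character under the shift `2 ^ j b`. -/
def ww (b : ZMod N) (j : ZMod n) : ℂ := ee (pw N j * b) - 1

/-- First moment of the moves. -/
def PP (n : ℕ) [NeZero n] (b : ZMod N) : ℝ := ∑ j : ZMod n, ‖ww b j‖

/-- Second moment of the moves. -/
def VV (n : ℕ) [NeZero n] (b : ZMod N) : ℝ := ∑ j : ZMod n, ‖ww b j‖ ^ 2

/-- A law whose Fourier coefficients are small outside `I`. -/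
structure Good {Ω : Type} [Fintype Ω] (w : Ω → ℝ) (Y : Ω → ZMod N) (I : Set (ZMod N)) (τ : ℝ) :
    Prop where
  nn : ∀ ω, 0 ≤ w ω
  one : ∑ ω, w ω = 1
  tau : 0 ≤ τ
  far : ∀ η, η ∉ I → ‖∑ ω, (w ω : ℂ) * ee (η * Y ω)‖ ≤ τ

/-- The exceptional frequencies are separated from short elements and from small integers. -/
structure Sep (I : Set (ZMod N)) (M : ℕ) : Prop where
  zero : 0 ∈ I
  four : ∀ a ∈ I, ∀ b ∈ I, ∀ c ∈ I, ∀ d ∈ I, Wt 50 (a + b - c - d) → a + b - c - d = 0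
  int : ∀ a ∈ I, ∀ b ∈ I, ∀ z : ℤ, |z| ≤ 2 * M → a - b = z → z = 0

/-- A real trigonometric polynomial on the circle. -/
def phR (c : ℤ → ℂ) (M : ℕ) (x : ℝ) : ℝ :=
  (∑ a ∈ Icc (-M : ℤ) M, c a * Complex.exp (2 * Real.pi * Complex.I * a * x)).re

/-- A real trigonometric polynomial on `ZMod N`. -/
def ph (c : ℤ → ℂ) (M : ℕ) (y : ZMod N) : ℝ :=
  (∑ a ∈ Icc (-M : ℤ) M, c a * ee ((a : ZMod N) * y)).re

/-- Coefficients of a minorant of the sign of the top digit. -/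
structure Mino (c : ℤ → ℂ) (M : ℕ) (μ : ℝ) : Prop where
  pos : 1 ≤ M
  cj : ∀ a, c (-a) = conj (c a)
  dec : ∀ a : ℤ, a ≠ 0 → ‖c a‖ ≤ 1 / |(a : ℝ)|
  even : ∀ a, Even a → ‖c a‖ ≤ μ
  one : 1 / 2 ≤ ‖c 1‖
  bd : ∀ x, |phR c M x| ≤ 2
  le : ∀ x, phR c M x ≤ 1
  neg : ∀ x, 0 ≤ x → x ≤ 1 / 2 → phR c M x ≤ -1

/-- The selection function. -/
def gg (c₁ : ℂ) (b : ZMod N) (i : ZMod n) (y : ZMod N) : ℝ :=
  (∑ j : ZMod n, c₁ * ww b (i + j) * ee (pw N j * y)).re

/-- Coefficients of the selection function. -/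
def gam (c₁ : ℂ) (b : ZMod N) (i : ZMod n) (s : Bool × ZMod n) : ℂ :=
  if s.1 then c₁ * ww b (i + s.2) / 2 else conj (c₁ * ww b (i + s.2)) / 2

open Classical in
/-- The exceptional terms of first order. -/
def Bad (n : ℕ) [NeZero n] (I : Set (ZMod N)) (M : ℕ) : Finset (ℤ × (Bool × ZMod n)) :=
  (Icc (-M : ℤ) M ×ˢ univ).filter fun t =>
    t.1 ≠ 0 ∧ (t.1 : ZMod N) + sp N t.2 ∈ I ∧ t ≠ (1, (false, 0)) ∧ t ≠ (-1, (true, 0))

/-- The error of first order at the site `i`. -/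
def er (c : ℤ → ℂ) (b : ZMod N) (I : Set (ZMod N)) (M : ℕ) (i : ZMod n) : ℝ :=
  ∑ t ∈ Bad n I M, ‖c t.1‖ * ‖ww b (i + t.2.2)‖

/-- The clamped probability. -/
def cl (t : ℝ) : ℝ := max 0 (min 1 ((1 + t) / 2))

/-- Weight of a random subset with independent elements. -/
def bw {ι : Type} [Fintype ι] [DecidableEq ι] (p : ι → ℝ) (W : Finset ι) : ℝ :=
  ∏ i, if i ∈ W then p i else 1 - p i

/-- The lower bound for the expected gain. -/
def LB (μ τ M A ε q l V P r : ℝ) : ℝ :=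
  -(μ + τ * (2 * M)) - 2 * M * ε +
    q * (l / 2 * ((V - 2 * ε) / 4 - (2 ^ 41 * μ + 24 / 2 ^ 20) * P) -
      r * (τ * (2 * M) * (1 + l * P) + 4 * l ^ 6 * (24 * V ^ 3 + τ * P ^ 6))) -
    (q * r) ^ 2 * (2 * A * (2 * l + 6 * l ^ 2 + τ * (1 + l * P) ^ 2) +
      32 * l ^ 6 * (24 * V ^ 3 + τ * P ^ 6)) - 7 * (q * r) ^ 3

theorem pw_nat (hN : N + 1 = 2 ^ n) (k : ℕ) : pw N (k : ZMod n) = 2 ^ k := by
  rw [pw, val_natCast]
  conv_rhs => rw [← Nat.div_add_mod k n, pow_add, pow_mul, SP.two_pow_n hN, one_pow, one_mul]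

theorem pw_add (hN : N + 1 = 2 ^ n) (i j : ZMod n) : pw N (i + j) = pw N i * pw N j := by
  have h : i + j = ((i.val + j.val : ℕ) : ZMod n) := by simp
  rw [h, pw_nat hN, pow_add]
  rfl

theorem pw_zero : pw N (0 : ZMod n) = 1 := by simp [pw]

theorem sum_pw {M : Type} [AddCommMonoid M] (f : ZMod N → M) :
    ∑ j : ZMod n, f (pw N j) = ∑ i ∈ range n, f (2 ^ i) := by
  refine sum_nbij' (fun j => j.val) (fun i => (i : ZMod n)) ?_ ?_ ?_ ?_ ?_
  · intro j _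
    exact mem_range.2 (val_lt j)
  · intro i _
    exact mem_univ _
  · intro j _
    simp
  · intro i hi
    exact val_cast_of_lt (mem_range.1 hi)
  · intro j _
    rfl

theorem ee_add (x y : ZMod N) : ee (x + y) = ee x * ee y := AddChar.map_add_eq_mul _ _ _

theorem ee_zero : ee (0 : ZMod N) = 1 := AddChar.map_zero_eq_one _

theorem norm_ee (x : ZMod N) : ‖ee x‖ = 1 := SP.norm_e x

theorem ee_neg (x : ZMod N) : ee (-x) = conj (ee x) := by
  have h : ee (-x) * ee x = 1 := by rw [← ee_add, neg_add_cancel, ee_zero]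
  have h2 : conj (ee x) * ee x = 1 := by
    rw [mul_comm, Complex.mul_conj, Complex.normSq_eq_norm_sq, norm_ee]
    simp
  have h3 : ee x ≠ 0 := fun h0 => by simp [h0] at h
  exact mul_right_cancel₀ h3 (h.trans h2.symm)

theorem norm_ee_sub (x : ZMod N) : ‖ee x - 1‖ ≤ 2 :=
  (norm_sub_le _ _).trans (by rw [norm_ee, norm_one]; norm_num)

theorem norm_ee_add (x y : ZMod N) : ‖ee (x + y) - 1‖ ≤ ‖ee x - 1‖ + ‖ee y - 1‖ := by
  have h : ee (x + y) - 1 = ee x * (ee y - 1) + (ee x - 1) := by rw [ee_add]; ring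
  rw [h, add_comm ‖ee x - 1‖]
  exact (norm_add_le _ _).trans (by rw [norm_mul, norm_ee, one_mul])

theorem norm_ee_neg (x : ZMod N) : ‖ee (-x) - 1‖ = ‖ee x - 1‖ := by
  rw [ee_neg, ← Complex.norm_conj (ee x - 1), map_sub, map_one]

theorem norm_ww (b : ZMod N) (j : ZMod n) : ‖ww b j‖ ≤ 2 := norm_ee_sub _

theorem PP_nonneg (b : ZMod N) : 0 ≤ PP n b := sum_nonneg fun _ _ => norm_nonneg _

theorem VV_nonneg (b : ZMod N) : 0 ≤ VV n b := sum_nonneg fun _ _ => sq_nonneg _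

theorem cl_nonneg (t : ℝ) : 0 ≤ cl t := le_max_left _ _

theorem cl_le (t : ℝ) : cl t ≤ 1 := max_le zero_le_one (min_le_left _ _)

section Weight

variable {R : Type*} [CommRing R] {S T : ℕ} {x y : R}

theorem Wt.mono (h : Wt S x) (hS : S ≤ T) : Wt T x := by
  obtain ⟨P, M, h1, h2⟩ := h
  exact ⟨P, M, h1.trans hS, h2⟩

theorem wt_zero (T : ℕ) : Wt T (0 : R) := ⟨0, 0, by simp, by simp⟩

theorem wt_pow (k : ℕ) : Wt 1 ((2 : R) ^ k) := ⟨{k}, 0, by simp, by simp⟩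

theorem Wt.neg (h : Wt S x) : Wt S (-x) := by
  obtain ⟨P, M, h1, h2⟩ := h
  exact ⟨M, P, by omega, by rw [h2]; ring⟩

theorem Wt.add (h : Wt S x) (h' : Wt T y) : Wt (S + T) (x + y) := by
  obtain ⟨P, M, h1, h2⟩ := h
  obtain ⟨P', M', h1', h2'⟩ := h'
  refine ⟨P + P', M + M', by simp only [Multiset.card_add]; omega, ?_⟩
  simp only [Multiset.map_add, Multiset.sum_add, h2, h2']
  ring

theorem Wt.sub (h : Wt S x) (h' : Wt T y) : Wt (S + T) (x - y) := by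
  rw [sub_eq_add_neg]
  exact h.add h'.neg

theorem wt_pw (i : ZMod n) : Wt 1 (pw N i) := wt_pow _

theorem wt_sp (s : Bool × ZMod n) : Wt 1 (sp N s) := by
  unfold sp
  split_ifs
  · exact wt_pw _
  · exact (wt_pw _).neg

end Weight

end Pool.Agent.Lib.MP_a01f70_lc.BA
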