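import Mathlib

/-! The Fejer kernel. -/

set_option autoImplicit false
set_option linter.unusedSectionVars false

noncomputable section

namespace Pool.Agent.Lib.MP_a01f70_lc.BA

open Finset
open scoped ComplexConjugate

/-- The character of the real line. -/
def ex (x : ℝ) : ℂ := Complex.exp (2 * Real.pi * Complex.I * x)

/-- The Fejer kernel. -/
def fej (M : ℕ) (t : ℝ) : ℝ := ‖∑ j ∈ range M, ex (j * t)‖ ^ 2 / M

/-- Its coefficients. -/
def fw (M : ℕ) (a : ℤ) : ℝ :=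
  ((range M ×ˢ range M).filter fun p : ℕ × ℕ => (p.1 : ℤ) - p.2 = a).card / M

theorem fej_nonneg (M : ℕ) (t : ℝ) : 0 ≤ fej M t := by
  unfold fej
  positivity

theorem fw_nonneg (M : ℕ) (a : ℤ) : 0 ≤ fw M a := by
  unfold fw
  positivity

/-- The first coordinate determines the pair. -/
theorem fw_le (M : ℕ) (a : ℤ) : fw M a ≤ 1 := by
  refine div_le_one_of_le₀ (Nat.cast_le.2 ?_) (Nat.cast_nonneg _)
  refine (card_le_card_of_injOn (t := range M) Prod.fst
    (fun p hp => (mem_product.1 (mem_filter.1 hp).1).1) fun p hp q hq h => ?_).trans (card_range M).le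
  have h1 := (mem_filter.1 hp).2
  have h2 := (mem_filter.1 hq).2
  exact Prod.ext h (by omega)

/-- The diagonal. -/
theorem fw_zero {M : ℕ} (hM : 1 ≤ M) : fw M 0 = 1 := by
  refine le_antisymm (fw_le M 0) ((one_le_div (Nat.cast_pos.2 hM)).2 (Nat.cast_le.2 ?_))
  refine (card_range M).ge.trans (card_le_card_of_injOn (fun j => (j, j))
    (fun j hj => mem_filter.2 ⟨mem_product.2 ⟨hj, hj⟩, sub_self _⟩) fun _ _ _ _ h => ?_)
  exact congrArg Prod.fst h

/-- The pairs `(j + 1, j)`, `j < M - 1`. -/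
theorem fw_one {M : ℕ} (hM : 1 ≤ M) : 1 - 1 / (M : ℝ) ≤ fw M 1 := by
  obtain ⟨m, rfl⟩ := Nat.exists_eq_add_of_le' hM
  have h0 : (0 : ℝ) < (m + 1 : ℕ) := Nat.cast_pos.2 hM
  rw [fw, le_div_iff₀ h0, sub_mul, one_div_mul_cancel h0.ne', one_mul, Nat.cast_succ,
    add_sub_cancel_right, Nat.cast_le]
  refine (card_range m).ge.trans (card_le_card_of_injOn (fun j => (j + 1, j))
    (fun j hj => mem_filter.2 ⟨mem_product.2 ⟨mem_range.2 (Nat.succ_lt_succ (mem_range.1 hj)),
      mem_range.2 (Nat.lt_succ_of_lt (mem_range.1 hj))⟩, by simp⟩) fun _ _ _ _ h => ?_)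
  exact congrArg Prod.snd h

/-- Swap the coordinates. -/
theorem fw_neg (M : ℕ) (a : ℤ) : fw M (-a) = fw M a := by
  unfold fw
  congr 2
  refine card_equiv (Equiv.prodComm ℕ ℕ) fun p => ?_
  simp only [mem_filter, mem_product, Equiv.prodComm_apply, Prod.fst_swap, Prod.snd_swap]
  constructor <;> rintro ⟨⟨h1, h2⟩, h3⟩ <;> exact ⟨⟨h2, h1⟩, by omega⟩

/-- `‖z‖ ^ 2 = z * conj z`, `sum_mul_sum`, then `sum_fiberwise_of_maps_to` along
`p ↦ p.1 - p.2`. -/
theorem fej_eq (M : ℕ) (t : ℝ) :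
    (fej M t : ℂ) = ∑ a ∈ Icc (-M : ℤ) M, (fw M a : ℂ) * ex (a * t) := by
  have h1 : ∀ p : ℕ × ℕ, ex (p.1 * t) * conj (ex (p.2 * t)) = ex ((((p.1 : ℤ) - p.2 : ℤ) : ℝ) * t) :=
    fun p => by
      rw [ex, ex, ex, ← Complex.exp_conj, ← Complex.exp_add]
      congr 1
      simp only [map_mul, Complex.conj_ofReal, Complex.conj_I, map_ofNat]
      push_cast
      ring
  rw [fej, Complex.ofReal_div, Complex.ofReal_pow, ← Complex.mul_conj', map_sum, sum_mul_sum,
    ← sum_product', ← sum_fiberwise_of_maps_to (t := Icc (-M : ℤ) M)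
      (g := fun p : ℕ × ℕ => (p.1 : ℤ) - p.2) fun p hp => by
        obtain ⟨h2, h3⟩ := mem_product.1 hp
        rw [mem_range] at h2 h3
        rw [mem_Icc]
        omega, sum_div]
  refine sum_congr rfl fun a _ => ?_
  rw [sum_congr rfl fun p hp => by rw [h1, (mem_filter.1 hp).2], sum_const, fw, nsmul_eq_mul]
  push_cast
  ring

end Pool.Agent.Lib.MP_a01f70_lc.BA
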