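import Pool.Agent.Lib.MP_a01f70_lc.BA.Fej

/-! The Fejer kernel: decay and integral. -/

set_option autoImplicit false
set_option linter.unusedSectionVars false

noncomputable section

namespace Pool.Agent.Lib.MP_a01f70_lc.BA

open Finset
open scoped ComplexConjugate

theorem fejB_add (x y : ℝ) : ex (x + y) = ex x * ex y := by
  unfold ex
  rw [← Complex.exp_add]
  congr 1
  push_cast
  ring

theorem fejB_norm (x : ℝ) : ‖ex x‖ = 1 := by
  unfold ex
  have h : (2 * Real.pi * Complex.I * x : ℂ) = ((2 * Real.pi * x : ℝ) : ℂ) * Complex.I := by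
    push_cast
    ring
  rw [h, Complex.norm_exp_ofReal_mul_I]

theorem fejB_pow (j : ℕ) (t : ℝ) : ex (j * t) = ex t ^ j := by
  unfold ex
  rw [← Complex.exp_nat_mul]
  congr 1
  push_cast
  ring

theorem fejB_conj (y : ℝ) : ex (-y) = conj (ex y) := by
  unfold ex
  rw [← Complex.exp_conj]
  congr 1
  simp [map_ofNat]

theorem fejB_sub_one (t : ℝ) : ‖ex t - 1‖ = 2 * |Real.sin (Real.pi * t)| := by
  unfold ex
  have h : (2 * Real.pi * Complex.I * t : ℂ) = Complex.I * ((2 * Real.pi * t : ℝ) : ℂ) := by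
    push_cast
    ring
  rw [h, Complex.norm_exp_I_mul_ofReal_sub_one]
  have h2 : 2 * Real.pi * t / 2 = Real.pi * t := by ring
  rw [h2, norm_mul, Real.norm_eq_abs, Real.norm_eq_abs, abs_two]

theorem fejB_sin {h t : ℝ} (h0 : 0 < h) (h1 : h ≤ t) (h2 : t ≤ 1 - h) :
    2 * h ≤ Real.sin (Real.pi * t) := by
  have key : ∀ s : ℝ, h ≤ s → s ≤ 1 / 2 → 2 * h ≤ Real.sin (Real.pi * s) := by
    intro s hs hs2
    have hp := Real.pi_pos
    have h3 := Real.mul_le_sin (x := Real.pi * s) (by nlinarith) (by nlinarith)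
    have h4 : 2 / Real.pi * (Real.pi * s) = 2 * s := by field_simp
    linarith
  rcases le_total t (1 / 2) with ht | ht
  · exact key t h1 ht
  · have h5 := key (1 - t) (by linarith) (by linarith)
    have h6 : Real.pi * (1 - t) = Real.pi - Real.pi * t := by ring
    rwa [h6, Real.sin_pi_sub] at h5

/-- Geometric sum: `‖∑ z ^ j‖ ≤ 2 / ‖z - 1‖`, `‖ex t - 1‖ = 2 |sin (π t)|` and
`sin (π t) ≥ 2 h` on `[h, 1 - h]` (`Real.mul_le_sin` on `[0, π / 2]`, symmetry). -/
theorem fej_le {M : ℕ} (hM : 1 ≤ M) {h t : ℝ} (h0 : 0 < h) (h1 : h ≤ t) (h2 : t ≤ 1 - h) :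
    fej M t ≤ 1 / (4 * M * h ^ 2) := by
  have hs := fejB_sin h0 h1 h2
  have h3 : 4 * h ≤ ‖ex t - 1‖ := by
    rw [fejB_sub_one]
    have := le_abs_self (Real.sin (Real.pi * t))
    linarith
  have h4 : ‖∑ j ∈ range M, ex (j * t)‖ * ‖ex t - 1‖ ≤ 2 := by
    simp only [fejB_pow]
    rw [← norm_mul, geom_sum_mul]
    refine (norm_sub_le _ _).trans ?_
    rw [norm_pow, fejB_norm, one_pow, norm_one]
    norm_num
  have h5 : ‖∑ j ∈ range M, ex (j * t)‖ * (2 * h) ≤ 1 := by
    have := mul_le_mul_of_nonneg_left h3 (norm_nonneg (∑ j ∈ range M, ex (j * t)))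
    linarith
  have hM' : (0 : ℝ) < M := by exact_mod_cast hM
  have h6 : (‖∑ j ∈ range M, ex (j * t)‖ * (2 * h)) ^ 2 ≤ 1 :=
    pow_le_one₀ (by positivity) h5
  unfold fej
  rw [div_le_div_iff₀ hM' (by positivity)]
  nlinarith

/-- `ex (-y) = conj (ex y)`. -/
theorem fej_neg (M : ℕ) (t : ℝ) : fej M (-t) = fej M t := by
  unfold fej
  have h : ∑ j ∈ range M, ex (j * -t) = conj (∑ j ∈ range M, ex (j * t)) := by
    rw [map_sum]
    refine sum_congr rfl fun j _ => ?_
    rw [← fejB_conj, mul_neg]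
  rw [h, Complex.norm_conj]

theorem fejB_cont : Continuous ex := by
  unfold ex
  fun_prop

theorem continuous_fej (M : ℕ) : Continuous (fej M) := by
  unfold fej
  have h := fejB_cont
  fun_prop

/-- `integral_exp_mul_complex`. -/
theorem int_ex {a : ℤ} (ha : a ≠ 0) (s t : ℝ) :
    ∫ u in s..t, ex (-(a * u)) =
      (ex (-(a * t)) - ex (-(a * s))) / (-(2 * Real.pi * Complex.I * a)) := by
  have hc : (-(2 * Real.pi * Complex.I * a) : ℂ) ≠ 0 := by
    have h1 : (a : ℂ) ≠ 0 := by exact_mod_cast ha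
    have h2 : (Real.pi : ℂ) ≠ 0 := by exact_mod_cast Real.pi_ne_zero
    simp [h1, h2]
  have h : ∀ u : ℝ, ex (-(a * u)) = Complex.exp (-(2 * Real.pi * Complex.I * a) * u) := by
    intro u
    unfold ex
    congr 1
    push_cast
    ring
  simp only [h]
  exact integral_exp_mul_complex hc

theorem fejB_int (a : ℤ) : ex (-(a * (1 : ℝ))) = 1 := by
  unfold ex
  have h : (2 * Real.pi * Complex.I * ((-(a * (1 : ℝ)) : ℝ) : ℂ) : ℂ) =
      ((-a : ℤ) : ℂ) * (2 * Real.pi * Complex.I) := by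
    push_cast
    ring
  rw [h, Complex.exp_int_mul_two_pi_mul_I]

theorem fejB_zero : ex 0 = 1 := by simp [ex]

/-- `fej_eq`, `ex (a (x - u)) = ex (a x) ex (-(a u))`, `int_ex`, `ex (-a) = 1`. -/
theorem int_fej {M : ℕ} (hM : 1 ≤ M) (x : ℝ) : ∫ u in (0 : ℝ)..1, fej M (x - u) = 1 := by
  have hc := fejB_cont
  have h : ((∫ u in (0 : ℝ)..1, fej M (x - u) : ℝ) : ℂ) = 1 := by
    rw [← intervalIntegral.integral_ofReal]
    have h1 : ∀ u : ℝ, (fej M (x - u) : ℂ) =
        ∑ a ∈ Icc (-M : ℤ) M, (fw M a : ℂ) * ex (a * x) * ex (-(a * u)) := by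
      intro u
      rw [fej_eq]
      refine sum_congr rfl fun a _ => ?_
      rw [mul_assoc, ← fejB_add]
      congr 2
      ring
    simp only [h1]
    rw [intervalIntegral.integral_finsetSum fun a _ =>
      Continuous.intervalIntegrable (by fun_prop) _ _]
    simp only [intervalIntegral.integral_const_mul]
    rw [sum_eq_single_of_mem 0 (by simp)]
    · simp [fw_zero hM, fejB_zero]
    · intro a _ ha
      rw [int_ex ha, fejB_int]
      simp [fejB_zero]
  exact_mod_cast h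

end Pool.Agent.Lib.MP_a01f70_lc.BA
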