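import Pool.Agent.Lib.MP_a01f70_lc.BA.FejB

/-! A trigonometric polynomial close to the indicator of the upper half circle. -/

set_option autoImplicit false
set_option linter.unusedSectionVars false

noncomputable section

namespace Pool.Agent.Lib.MP_a01f70_lc.BA

open Finset
open scoped ComplexConjugate

/-- The Fourier coefficients of the interval `[1/2 + h, 1 - h]`. -/
def JJ (h : ℝ) (a : ℤ) : ℂ := ∫ u in (1 / 2 + h)..(1 - h), ex (-(a * u))

/-- The smoothed interval. -/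
def KK (M : ℕ) (h x : ℝ) : ℝ := ∫ u in (1 / 2 + h)..(1 - h), fej M (x - u)

theorem FejK_add (x y : ℝ) : ex (x + y) = ex x * ex y := by
  simp only [ex, ← Complex.exp_add]
  push_cast
  rw [mul_add]

theorem FejK_norm (x : ℝ) : ‖ex x‖ = 1 := by
  rw [ex, show 2 * Real.pi * Complex.I * x = (2 * Real.pi * x : ℝ) * Complex.I by push_cast; ring,
    Complex.norm_exp_ofReal_mul_I]

theorem FejK_neg (x : ℝ) : ex (-x) = conj (ex x) := by
  simp only [ex, ← Complex.exp_conj, map_mul, Complex.conj_ofReal, Complex.conj_I, map_ofNat]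
  push_cast
  ring_nf

theorem FejK_int (k : ℤ) : ex k = 1 := by
  rw [ex, mul_comm]
  exact Complex.exp_int_mul_two_pi_mul_I k

theorem FejK_half : ex (-(1 / 2)) = -1 := by
  rw [ex, ← Complex.exp_neg_pi_mul_I]
  push_cast
  ring_nf

theorem FejK_sub (x : ℝ) : ‖ex x - 1‖ ≤ 2 * Real.pi * |x| := by
  have h := Real.norm_exp_I_mul_ofReal_sub_one_le (x := 2 * Real.pi * x)
  rw [Real.norm_eq_abs, abs_mul, abs_of_pos Real.two_pi_pos] at h
  rw [ex, show 2 * Real.pi * Complex.I * x = Complex.I * (2 * Real.pi * x : ℝ) by push_cast; ring]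
  exact h

theorem FejK_cont (a : ℤ) : Continuous fun u : ℝ => ex (-(a * u)) := by
  unfold ex
  fun_prop

theorem FejK_den (a : ℤ) : ‖-(2 * Real.pi * Complex.I * a)‖ = 2 * (Real.pi * |(a : ℝ)|) := by
  simp [mul_assoc, Real.pi_pos.le]

/-- `fej_eq`, `ex (a (x - u)) = ex (a x) ex (-(a u))`, `intervalIntegral.integral_ofReal`,
`intervalIntegral.integral_finset_sum`. -/
theorem KK_eq (M : ℕ) (h x : ℝ) :
    (KK M h x : ℂ) = ∑ a ∈ Icc (-M : ℤ) M, (fw M a : ℂ) * JJ h a * ex (a * x) := by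
  rw [KK, ← intervalIntegral.integral_ofReal]
  simp only [fej_eq, mul_sub, sub_eq_add_neg (_ * x), FejK_add]
  refine (intervalIntegral.integral_finsetSum fun a _ =>
    (((FejK_cont a).const_mul _).const_mul _).intervalIntegrable _ _).trans
    (sum_congr rfl fun a _ => ?_)
  rw [intervalIntegral.integral_const_mul, intervalIntegral.integral_const_mul, JJ]
  ring

theorem KK_nonneg (M : ℕ) {h : ℝ} (h1 : h ≤ 1 / 4) (x : ℝ) : 0 ≤ KK M h x := by
  exact intervalIntegral.integral_nonneg (by linarith) fun u _ => fej_nonneg _ _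

/-- `int_fej`, `intervalIntegral.integral_mono_interval`. -/
theorem KK_le {M : ℕ} (hM : 1 ≤ M) {h : ℝ} (h0 : 0 ≤ h) (h1 : h ≤ 1 / 4) (x : ℝ) :
    KK M h x ≤ 1 := by
  rw [← int_fej hM x]
  exact intervalIntegral.integral_mono_interval (by linarith) (by linarith) (by linarith)
    (Filter.Eventually.of_forall fun u => fej_nonneg _ _)
    (((continuous_fej M).comp (continuous_const.sub continuous_id)).intervalIntegrable _ _)

/-- `u - x ∈ [h, 1 - h]`, `fej_neg`, `fej_le`; the interval has length at most `1 / 2`. -/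
theorem KK_small {M : ℕ} (hM : 1 ≤ M) {h x : ℝ} (h0 : 0 < h) (h1 : h ≤ 1 / 4) (hx0 : 0 ≤ x)
    (hx1 : x ≤ 1 / 2) : KK M h x ≤ 1 / (8 * M * h ^ 2) := by
  have hM' : (0 : ℝ) < M := by exact_mod_cast hM
  have h2 := intervalIntegral.integral_mono_on (μ := MeasureTheory.volume)
    (f := fun u => fej M (x - u)) (g := fun _ => 1 / (4 * M * h ^ 2))
    (show 1 / 2 + h ≤ 1 - h by linarith)
    (((continuous_fej M).comp (continuous_const.sub continuous_id)).intervalIntegrable _ _)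
    (continuous_const.intervalIntegrable _ _) fun u hu => by
      rw [← neg_sub, fej_neg]
      exact fej_le hM h0 (by linarith [hu.1]) (by linarith [hu.2])
  rw [intervalIntegral.integral_const, smul_eq_mul] at h2
  refine h2.trans ((mul_le_mul_of_nonneg_right (show _ ≤ (1 / 2 : ℝ) by linarith)
    (by positivity)).trans_eq ?_)
  field_simp
  norm_num

theorem JJ_zero (h : ℝ) : JJ h 0 = 1 / 2 - 2 * h := by
  simp [JJ, ex]
  ring

/-- `int_ex` for `a ≠ 0` (`ex (-y) = conj (ex y)`), `JJ_zero` for `a = 0`. -/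
theorem JJ_neg (h : ℝ) (a : ℤ) : JJ h (-a) = conj (JJ h a) := by
  rw [JJ, JJ, ← intervalIntegral.intervalIntegral_conj]
  simp only [← FejK_neg, Int.cast_neg, neg_mul]

/-- `int_ex`, `‖ex y‖ = 1`. -/
theorem norm_JJ (h : ℝ) {a : ℤ} (ha : a ≠ 0) : ‖JJ h a‖ ≤ 1 / (Real.pi * |(a : ℝ)|) := by
  have h1 : 0 < Real.pi * |(a : ℝ)| := mul_pos Real.pi_pos (abs_pos.2 (Int.cast_ne_zero.2 ha))
  rw [JJ, int_ex ha, norm_div, FejK_den, div_le_div_iff₀ (by positivity) h1]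
  have h2 := norm_sub_le (ex (-(a * (1 - h)))) (ex (-(a * (1 / 2 + h))))
  rw [FejK_norm, FejK_norm] at h2
  nlinarith

/-- `ex (-(a (1 - h))) = ex (a h)`, `ex (-(a (1/2 + h))) = ex (-(a h))` for even `a`, and
`‖ex y - 1‖ ≤ 2 π |y|` (`Complex.norm_exp_I_mul_ofReal_sub_one_le`). -/
theorem JJ_even {h : ℝ} (h0 : 0 ≤ h) {a : ℤ} (ha : a ≠ 0) (he : Even a) : ‖JJ h a‖ ≤ 2 * h := by
  have h1 : 0 < Real.pi * |(a : ℝ)| := mul_pos Real.pi_pos (abs_pos.2 (Int.cast_ne_zero.2 ha))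
  obtain ⟨k, hk⟩ := he
  rw [JJ, int_ex ha, norm_div, FejK_den, div_le_iff₀ (by positivity),
    show -(a * (1 - h)) = ((-a : ℤ) : ℝ) + a * h by push_cast; ring,
    show -(a * (1 / 2 + h)) = ((-k : ℤ) : ℝ) + -(a * h) by rw [hk]; push_cast; ring,
    FejK_add, FejK_add, FejK_int, FejK_int, one_mul, one_mul, ← sub_sub_sub_cancel_right _ _ 1]
  refine (norm_sub_le_of_le (FejK_sub _) (FejK_sub _)).trans_eq ?_
  rw [abs_neg, abs_mul, abs_of_nonneg h0]
  ring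

/-- The numerator in `int_ex` is `ex h + ex (-h)`, at distance at most `4 π h` from `2`. -/
theorem JJ_one {h : ℝ} (h0 : 0 ≤ h) : ‖JJ h 1 - Complex.I / Real.pi‖ ≤ 2 * h := by
  have h1 : (Real.pi : ℂ) ≠ 0 := Complex.ofReal_ne_zero.2 Real.pi_ne_zero
  have h2 : JJ h 1 - Complex.I / Real.pi =
      (ex h - 1 + (ex (-h) - 1)) / -(2 * Real.pi * Complex.I * (1 : ℤ)) := by
    rw [JJ, int_ex one_ne_zero,
      show -(((1 : ℤ) : ℝ) * (1 - h)) = ((-1 : ℤ) : ℝ) + h by push_cast; ring,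
      show -(((1 : ℤ) : ℝ) * (1 / 2 + h)) = -(1 / 2) + -h by push_cast; ring,
      FejK_add, FejK_add, FejK_int, FejK_half]
    field_simp
    push_cast
    linear_combination (-2 : ℂ) * Complex.I_sq
  rw [h2, norm_div, FejK_den, div_le_iff₀ (by positivity)]
  refine (norm_add_le_of_le (FejK_sub _) (FejK_sub _)).trans_eq ?_
  rw [abs_neg, abs_of_nonneg h0]
  norm_num
  ring

/-- Put `h = μ / 8`, `M = ⌈32 / μ ^ 3⌉₊`, `c a = fw M a * JJ h a`, `K = KK M h`. For `c 1`: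
`‖fw J - I / π‖ ≤ ‖J - I / π‖ + (1 - fw) ‖J‖ ≤ μ / 4 + 1 / M`. -/
theorem exists_fej {μ : ℝ} (h0 : 0 < μ) (h1 : μ ≤ 1 / 16) :
    ∃ (M : ℕ) (c : ℤ → ℂ) (K : ℝ → ℝ), M * μ ^ 3 ≤ 33 ∧ 1 ≤ M ∧
      (∀ x, (K x : ℂ) = ∑ a ∈ Icc (-M : ℤ) M, c a * ex (a * x)) ∧ (∀ x, 0 ≤ K x) ∧
      (∀ x, K x ≤ 1) ∧ (∀ x, 0 ≤ x → x ≤ 1 / 2 → K x ≤ μ / 4) ∧ c 0 = 1 / 2 - μ / 4 ∧
      (∀ a, c (-a) = conj (c a)) ∧ (∀ a : ℤ, a ≠ 0 → ‖c a‖ ≤ 1 / (Real.pi * |(a : ℝ)|)) ∧
      ‖c 1 - Complex.I / Real.pi‖ ≤ μ / 2 ∧ ∀ a : ℤ, a ≠ 0 → Even a → ‖c a‖ ≤ μ / 4 := by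
  have h3 : 0 < μ ^ 3 := by positivity
  have h4 : μ ^ 3 ≤ (1 / 16) ^ 3 := pow_le_pow_left₀ h0.le h1 3
  obtain ⟨M, hM1, hM2⟩ : ∃ M : ℕ, 32 ≤ M * μ ^ 3 ∧ M * μ ^ 3 ≤ 33 :=
    ⟨⌈32 / μ ^ 3⌉₊, (div_le_iff₀ h3).1 (Nat.le_ceil _), by
      have := mul_le_mul_of_nonneg_right
        (Nat.ceil_lt_add_one (show 0 ≤ 32 / μ ^ 3 by positivity)).le h3.le
      rw [add_mul, div_mul_cancel₀ _ h3.ne'] at this
      linarith⟩
  have hM : 1 ≤ M := Nat.pos_of_ne_zero fun e => by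
    rw [e, Nat.cast_zero, zero_mul] at hM1
    linarith
  have hM0 : (0 : ℝ) < M := by exact_mod_cast hM
  have hn : ∀ a, ‖(fw M a : ℂ) * JJ (μ / 8) a‖ ≤ ‖JJ (μ / 8) a‖ := fun a => by
    rw [norm_mul, Complex.norm_real, Real.norm_of_nonneg (fw_nonneg M a)]
    exact mul_le_of_le_one_left (norm_nonneg _) (fw_le M a)
  refine ⟨M, fun a => fw M a * JJ (μ / 8) a, KK M (μ / 8), hM2, hM, KK_eq M _,
    KK_nonneg M (by linarith), KK_le hM (by linarith) (by linarith), fun x hx0 hx1 =>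
      (KK_small hM (by linarith) (by linarith) hx0 hx1).trans ?_, ?_, fun a => ?_,
    fun a ha => (hn a).trans (norm_JJ _ ha), ?_,
    fun a ha he => (hn a).trans ((JJ_even (by linarith) ha he).trans_eq (by ring))⟩
  · rw [div_le_iff₀ (by positivity)]
    nlinarith
  · simp only [fw_zero hM, JJ_zero]
    push_cast
    ring
  · simp only [fw_neg, JJ_neg, map_mul, Complex.conj_ofReal]
  · have h5 : ‖JJ (μ / 8) 1‖ ≤ 1 := (norm_JJ _ one_ne_zero).trans (by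
      rw [div_le_one (by positivity)]
      simpa using one_le_two.trans Real.two_le_pi)
    have h6 : 1 / (M : ℝ) ≤ μ / 4 := by
      rw [div_le_iff₀ hM0]
      have : μ ^ 2 ≤ 1 := pow_le_one₀ h0.le (by linarith)
      nlinarith [mul_pos hM0 h0]
    have h7 := fw_one hM
    have h8 := fw_le M 1
    change ‖(fw M 1 : ℂ) * JJ (μ / 8) 1 - _‖ ≤ _
    rw [show (fw M 1 : ℂ) * JJ (μ / 8) 1 - Complex.I / Real.pi = JJ (μ / 8) 1 -
      Complex.I / Real.pi - ((1 - fw M 1 : ℝ) : ℂ) * JJ (μ / 8) 1 by push_cast; ring]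
    refine (norm_sub_le_of_le (JJ_one (by linarith)) (?_ : _ ≤ μ / 4)).trans_eq (by ring)
    rw [norm_mul, Complex.norm_real, Real.norm_of_nonneg (by linarith)]
    exact (mul_le_of_le_one_right (by linarith) h5).trans (by linarith)

end Pool.Agent.Lib.MP_a01f70_lc.BA
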