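import Pool.Agent.Lib.MP_a01f70_lc.BA.Defs

/-! Sidon sets of integers. -/

set_option autoImplicit false
set_option linter.unusedSectionVars false

noncomputable section

namespace Pool.Agent.Lib.MP_a01f70_lc.BA

open Finset ZMod
open scoped ComplexConjugate

variable {N n : ℕ} [NeZero N] [NeZero n]

/-- The differences of distinct elements of `B' = B ∩ [-Y, Y]` are distinct and lie in
`[-2Y, 2Y] \ {0}`, so `k (k - 1) ≤ 4 Y`, hence `k ≤ 3 m`. -/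
theorem sidon_card {B : Finset ℤ}
    (h : ∀ a ∈ B, ∀ b ∈ B, ∀ c ∈ B, ∀ d ∈ B, a + b = c + d → a = c ∨ a = d) {m : ℕ} (hm : 1 ≤ m) :
    (B.filter fun a => |a| ≤ (m : ℤ) ^ 2).card ≤ 3 * m := by
  set B' := B.filter fun a => |a| ≤ (m : ℤ) ^ 2 with hB'
  have h1 : B'.offDiag.card ≤ (Icc (-(2 * (m : ℤ) ^ 2)) (2 * (m : ℤ) ^ 2)).card := by
    refine card_le_card_of_injOn (fun p => p.1 - p.2) (fun p hp => ?_) fun p hp q hq e => ?_
    · obtain ⟨h2, h3, -⟩ := mem_offDiag.1 (mem_coe.1 hp)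
      have h4 := abs_le.1 (mem_filter.1 h2).2
      have h5 := abs_le.1 (mem_filter.1 h3).2
      exact mem_coe.2 (mem_Icc.2 ⟨by linarith, by linarith⟩)
    · obtain ⟨h2, h3, h4⟩ := mem_offDiag.1 (mem_coe.1 hp)
      obtain ⟨h5, h6, -⟩ := mem_offDiag.1 (mem_coe.1 hq)
      have e' : p.1 - p.2 = q.1 - q.2 := e
      rcases h p.1 (mem_filter.1 h2).1 q.2 (mem_filter.1 h6).1 q.1 (mem_filter.1 h5).1 p.2
        (mem_filter.1 h3).1 (by linarith) with h7 | h7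
      · exact Prod.ext h7 (by linarith)
      · exact absurd h7 h4
  have h2 : ((Icc (-(2 * (m : ℤ) ^ 2)) (2 * (m : ℤ) ^ 2)).card : ℤ) = 4 * (m : ℤ) ^ 2 + 1 := by
    rw [Int.card_Icc_of_le _ _ (by nlinarith)]
    ring
  have h3 : (B'.offDiag.card : ℤ) = B'.card * B'.card - B'.card := by
    rw [offDiag_card, Nat.cast_sub (Nat.le_mul_self _)]
    push_cast
    ring
  have h4 : (B'.offDiag.card : ℤ) ≤ 4 * (m : ℤ) ^ 2 + 1 := by
    rw [← h2]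
    exact_mod_cast h1
  by_contra h5
  have h6 : 3 * (m : ℤ) + 1 ≤ B'.card := by omega
  have h7 : (1 : ℤ) ≤ m := by exact_mod_cast hm
  nlinarith

theorem sida_shell {B : Finset ℤ}
    (h : ∀ a ∈ B, ∀ b ∈ B, ∀ c ∈ B, ∀ d ∈ B, a + b = c + d → a = c ∨ a = d) (r : ℕ) :
    ∑ a ∈ B.filter (fun a => (4 : ℤ) ^ r ≤ |a| ∧ |a| < 4 ^ (r + 1)), 1 / |(a : ℝ)| ≤
      6 / 2 ^ r := by
  have h1 : (B.filter fun a => (4 : ℤ) ^ r ≤ |a| ∧ |a| < 4 ^ (r + 1)).card ≤ 3 * 2 ^ (r + 1) := by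
    refine le_trans (card_le_card fun a ha => ?_) (sidon_card h (m := 2 ^ (r + 1)) Nat.one_le_two_pow)
    obtain ⟨h2, -, h3⟩ := mem_filter.1 ha
    refine mem_filter.2 ⟨h2, h3.le.trans_eq ?_⟩
    push_cast
    rw [← pow_mul, mul_comm, pow_mul]
    norm_num
  have h2 : ((B.filter fun a => (4 : ℤ) ^ r ≤ |a| ∧ |a| < 4 ^ (r + 1)).card : ℝ) ≤
      3 * 2 ^ (r + 1) := by exact_mod_cast h1
  refine (sum_le_card_nsmul _ _ (1 / 4 ^ r) fun a ha => ?_).trans ?_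
  · have h3 : (4 : ℝ) ^ r ≤ |(a : ℝ)| := by exact_mod_cast (mem_filter.1 ha).2.1
    exact one_div_le_one_div_of_le (by positivity) h3
  · rw [nsmul_eq_mul]
    refine (mul_le_mul_of_nonneg_right h2 (by positivity)).trans_eq ?_
    rw [show (4 : ℝ) = 2 * 2 by norm_num, mul_pow, pow_succ]
    field_simp
    norm_num

theorem sida_part {B : Finset ℤ}
    (h : ∀ a ∈ B, ∀ b ∈ B, ∀ c ∈ B, ∀ d ∈ B, a + b = c + d → a = c ∨ a = d) (k : ℕ) :
    ∑ a ∈ B.filter (fun a => (2 : ℤ) ^ 40 ≤ |a| ∧ |a| < 4 ^ (20 + k)), 1 / |(a : ℝ)| ≤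
      12 / 2 ^ 20 - 12 / 2 ^ (20 + k) := by
  induction k with
  | zero =>
    rw [filter_false_of_mem fun a _ ha => by
      have h1 := ha.1.trans_lt ha.2
      norm_num at h1]
    simp
  | succ k ih =>
    have h1 := sida_shell h (20 + k)
    have h2 : B.filter (fun a => (2 : ℤ) ^ 40 ≤ |a| ∧ |a| < 4 ^ (20 + (k + 1))) ⊆
        B.filter (fun a => (2 : ℤ) ^ 40 ≤ |a| ∧ |a| < 4 ^ (20 + k)) ∪
          B.filter fun a => (4 : ℤ) ^ (20 + k) ≤ |a| ∧ |a| < 4 ^ (20 + k + 1) := fun a ha => by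
      obtain ⟨h3, h4, h5⟩ := mem_filter.1 ha
      rcases lt_or_ge |a| (4 ^ (20 + k)) with h6 | h6
      · exact mem_union_left _ (mem_filter.2 ⟨h3, h4, h6⟩)
      · exact mem_union_right _ (mem_filter.2 ⟨h3, h6, h5⟩)
    refine (sum_le_sum_of_subset_of_nonneg h2 fun a _ _ => by positivity).trans ?_
    rw [sum_union (disjoint_filter.2 fun a _ h3 h4 => absurd h3.2 (not_lt.2 h4.1))]
    have h3 : (12 : ℝ) / 2 ^ (20 + (k + 1)) = 6 / 2 ^ (20 + k) := by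
      rw [← add_assoc, pow_succ]
      field_simp
      norm_num
    have h4 : (12 : ℝ) / 2 ^ (20 + k) = 2 * (6 / 2 ^ (20 + k)) := by ring
    linarith

/-- Shells `4 ^ r ≤ |a| < 4 ^ (r + 1)`, `r ≥ 20`: at most `3 * 2 ^ (r + 1)` elements, each
contributes at most `4 ^ (-r)`. Induction on `k` for the elements with `|a| < 4 ^ (20 + k)`:
the sum is at most `12 / 2 ^ 20 - 12 / 2 ^ (20 + k)`. -/
theorem sidon_sum {B : Finset ℤ}
    (h : ∀ a ∈ B, ∀ b ∈ B, ∀ c ∈ B, ∀ d ∈ B, a + b = c + d → a = c ∨ a = d) :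
    ∑ a ∈ B.filter (fun a => (2 : ℤ) ^ 40 ≤ |a|), 1 / |(a : ℝ)| ≤ 12 / 2 ^ 20 := by
  obtain ⟨k, hk⟩ := pow_unbounded_of_one_lt (∑ a ∈ B, |a|) (by norm_num : (1 : ℤ) < 4)
  have h1 := sida_part h k
  rw [filter_congr (q := fun a => (2 : ℤ) ^ 40 ≤ |a|) fun a ha => and_iff_left (by
    exact ((single_le_sum (f := fun a : ℤ => |a|) (fun a _ => abs_nonneg a) ha).trans_lt
      hk).trans_le (pow_le_pow_right₀ (by norm_num) (by omega)))] at h1
  have h2 : (0 : ℝ) ≤ 12 / 2 ^ (20 + k) := by positivity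
  linarith

end Pool.Agent.Lib.MP_a01f70_lc.BA
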