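import Pool.Agent.Lib.MP_a01f70_lc.BA.TestA

/-! First properties of the minorant. -/

set_option autoImplicit false
set_option linter.unusedSectionVars false

noncomputable section

namespace Pool.Agent.Lib.MP_a01f70_lc.BA

open Finset ZMod
open scoped ComplexConjugate

variable {N n : ℕ} [NeZero N] [NeZero n]

variable {Ω : Type} [Fintype Ω] {w : Ω → ℝ} {Y : Ω → ZMod N} {I : Set (ZMod N)} {τ μ : ℝ}
  {c : ℤ → ℂ} {M : ℕ}

theorem test_sum (f : ℤ → ℝ) (M : ℕ) :
    ∑ a ∈ (Icc (-M : ℤ) M).erase 0, f a = ∑ i ∈ range M, (f (i + 1) + f (-(i + 1))) := by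
  induction M with
  | zero => simp
  | succ M ih =>
    have h : (Icc (-(M + 1 : ℕ) : ℤ) (M + 1 : ℕ)).erase 0 =
        insert (M + 1 : ℤ) (insert (-(M + 1) : ℤ) ((Icc (-M : ℤ) M).erase 0)) := by
      ext a
      simp only [mem_erase, mem_insert, mem_Icc]
      omega
    rw [h, sum_insert (by simp only [mem_erase, mem_insert, mem_Icc]; omega),
      sum_insert (by simp only [mem_erase, mem_Icc]; omega), ih, sum_range_succ]
    ring

theorem test_le (f : ℤ → ℝ) {K : ℝ} (h : ∀ a ≠ 0, f a ≤ K) :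
    ∑ a ∈ (Icc (-M : ℤ) M).erase 0, f a ≤ 2 * M * K := by
  rw [test_sum]
  refine (sum_le_card_nsmul _ _ _ fun i _ =>
    add_le_add (h _ (by omega)) (h _ (by omega))).trans_eq ?_
  rw [card_range, nsmul_eq_mul]
  ring

theorem test_ee (a : ℤ) (z : ZMod N) :
    ‖ee ((a : ZMod N) * z) - 1‖ ≤ |(a : ℝ)| * ‖ee z - 1‖ := by
  have h : ∀ k : ℕ, ‖ee ((k : ZMod N) * z) - 1‖ ≤ k * ‖ee z - 1‖ := fun k => by
    induction k with
    | zero => simp
    | succ k ih =>
      rw [Nat.cast_succ, Nat.cast_succ, add_one_mul, add_one_mul]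
      exact (norm_ee_add _ _).trans (add_le_add ih le_rfl)
  obtain ⟨k, rfl | rfl⟩ := a.eq_nat_or_neg
  · simpa using h k
  · rw [Int.cast_neg, neg_mul, norm_ee_neg]
    simpa using h k

/-- The sum is its own conjugate (`a ↦ -a`, `cj`, `ee_neg`). -/
theorem Mino.ph_eq (h : Mino c M μ) (y : ZMod N) :
    (ph c M y : ℂ) = ∑ a ∈ Icc (-M : ℤ) M, c a * ee ((a : ZMod N) * y) := by
  refine Complex.conj_eq_iff_re.1 ?_
  rw [map_sum]
  refine sum_equiv (Equiv.neg ℤ) (fun a => by simp only [mem_Icc, Equiv.neg_apply]; omega)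
    fun a _ => ?_
  rw [Equiv.neg_apply, h.cj, Int.cast_neg, neg_mul, ee_neg, map_mul]

/-- `ee (a y) = exp (2 π i a y.val / N)` (`stdAddChar_coe` for the integer `a * y.val`). -/
theorem ph_phR (c : ℤ → ℂ) (M : ℕ) (y : ZMod N) : ph c M y = phR c M (y.val / N) := by
  refine congrArg Complex.re (sum_congr rfl fun a _ => congrArg (c a * ·) ?_)
  have h := stdAddChar_coe (N := N) (a * y.val)
  rw [Int.cast_mul, Int.cast_natCast, natCast_zmod_val] at h
  refine h.trans (congrArg _ ?_)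
  push_cast
  ring

theorem Mino.abs_ph (h : Mino c M μ) (y : ZMod N) : |ph c M y| ≤ 2 := by
  rw [ph_phR]
  exact h.bd _

/-- `valMinAbs_nonneg_iff`: the sign is `-1` iff `y.val ≤ N / 2`. -/
theorem Mino.ph_le (h : Mino c M μ) (y : ZMod N) : ph c M y ≤ SP.sg y := by
  rw [ph_phR, SP.sg]
  split_ifs with h1
  · have h2 : ((2 * y.val : ℕ) : ℝ) ≤ N := Nat.cast_le.2 (by
      have := (valMinAbs_nonneg_iff y).1 h1
      omega)
    refine (h.neg _ (by positivity) ?_).trans_eq (by simp)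
    rw [div_le_div_iff₀ (Nat.cast_pos.2 (NeZero.pos N)) two_pos]
    push_cast at h2
    linarith
  · exact (h.le _).trans_eq (by simp)

theorem Mino.norm_le (h : Mino c M μ) {a : ℤ} (ha : a ≠ 0) : ‖c a‖ ≤ 1 := by
  exact (h.dec a ha).trans ((div_le_one (by positivity)).2 (by exact_mod_cast Int.one_le_abs ha))

/-- `‖ee (a z) - 1‖ ≤ |a| ‖ee z - 1‖` (`norm_ee_add`, `norm_ee_neg`, induction), `dec`; the term
`a = 0` vanishes. -/
theorem Mino.lip (h : Mino c M μ) (y z : ZMod N) :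
    |ph c M (y + z) - ph c M y| ≤ 2 * M * ‖ee z - 1‖ := by
  rw [ph, ph, ← Complex.sub_re, ← sum_sub_distrib,
    ← sum_erase (a := 0) _ (by simp only [Int.cast_zero, zero_mul, sub_self])]
  refine (Complex.abs_re_le_norm _).trans ((norm_sum_le _ _).trans (test_le _ fun a ha => ?_))
  rw [mul_add, ee_add, ← mul_sub, ← mul_sub_one, norm_mul, norm_mul, norm_ee, one_mul]
  refine (mul_le_mul (h.dec a ha) (test_ee a z) (norm_nonneg _) (by positivity)).trans_eq ?_
  rw [← mul_assoc, one_div_mul_cancel (by positivity), one_mul]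

/-- Harmonic sum (`harmonic_le_one_add_log`). -/
theorem Mino.sum_norm (h : Mino c M μ) :
    ∑ a ∈ (Icc (-M : ℤ) M).erase 0, ‖c a‖ ≤ 2 * (1 + Real.log M) := by
  refine le_trans ?_ (mul_le_mul_of_nonneg_left (harmonic_le_one_add_log M) zero_le_two)
  rw [test_sum, harmonic]
  push_cast
  rw [mul_sum]
  refine sum_le_sum fun i _ => ?_
  have h1 := h.dec (i + 1) (by omega)
  have h2 := h.dec (-(i + 1)) (by omega)
  push_cast at h1 h2
  rw [abs_neg] at h2
  rw [abs_of_pos (by positivity), one_div] at h1 h2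
  linarith

theorem Mino.sum_norm' (h : Mino c M μ) : ∑ a ∈ (Icc (-M : ℤ) M).erase 0, ‖c a‖ ≤ 2 * M := by
  exact (test_le _ fun a => h.norm_le).trans_eq (mul_one _)

/-- Order zero. `Good.test` on `(Icc (-M) M).erase 0` with `Z = ∅`: no nonzero integer of size at
most `M` lies in `I` (`Sep.int` with `b = 0`); the term `a = 0` is `c 0`, of norm at most `μ`. -/
theorem ord0 (h : Good w Y I τ) (hS : Sep I M) (hc : Mino c M μ) :
    -(μ + τ * (2 * M)) ≤ ∑ ω, w ω * ph c M (Y ω) := by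
  classical
  have h1 := h.test ((Icc (-M : ℤ) M).erase 0) ∅ (empty_subset _) c (fun a => (a : ZMod N))
    (by simp)
  rw [sum_empty, sub_zero, filter_false_of_mem, sum_empty, zero_add] at h1
  · have h2 := (abs_le.1 ((Complex.abs_re_le_norm _).trans
      (h1.trans (mul_le_mul_of_nonneg_left hc.sum_norm' h.tau)))).1
    have h3 := (abs_le.1 ((Complex.abs_re_le_norm _).trans (hc.even 0 Even.zero))).1
    have h4 : ∀ ω, ph c M (Y ω) = (c 0).re +
        (∑ a ∈ (Icc (-M : ℤ) M).erase 0, c a * ee ((a : ZMod N) * Y ω)).re := fun ω => by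
      rw [ph, ← add_sum_erase (a := 0) _ _ (by simp), Complex.add_re, Int.cast_zero, zero_mul,
        ee_zero, mul_one]
    rw [Complex.re_sum] at h2
    simp only [Complex.re_ofReal_mul] at h2
    simp only [h4, mul_add, sum_add_distrib, ← sum_mul, h.one]
    linarith
  · intro a ha hI
    simp only [mem_sdiff, mem_erase, mem_Icc] at ha
    exact ha.1.1 (hS.int _ hI _ hS.zero a (abs_le.2 (by omega)) (sub_zero _))

end Pool.Agent.Lib.MP_a01f70_lc.BA
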