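import Pool.Agent.Lib.MP_a01f70_lc.BA.Pw
import Pool.Agent.Lib.MP_a01f70_lc.BA.Wt
import Pool.Agent.Lib.MP_a01f70_lc.BA.SidA
import Pool.Agent.Lib.MP_a01f70_lc.BA.Test

/-! The exceptional frequencies form Sidon sets. -/

set_option autoImplicit false
set_option linter.unusedSectionVars false

noncomputable section

namespace Pool.Agent.Lib.MP_a01f70_lc.BA

open Finset ZMod
open scoped ComplexConjugate

variable {N n : ℕ} [NeZero N] [NeZero n]

theorem sidon_mem {I : Set (ZMod N)} {M : ℕ} {t : ℤ × (Bool × ZMod n)} (h : t ∈ Bad n I M) :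
    |t.1| ≤ M ∧ t.1 ≠ 0 ∧ (t.1 : ZMod N) + sp N t.2 ∈ I ∧ t ≠ (1, (false, 0)) ∧
      t ≠ (-1, (true, 0)) := by
  classical
  obtain ⟨h1, h2⟩ := mem_filter.1 h
  exact ⟨abs_le.2 (mem_Icc.1 (mem_product.1 h1).1), h2⟩

theorem sidon_inj (hN : N + 1 = 2 ^ n) (hn : 3 ≤ n) {I : Set (ZMod N)} {M : ℕ} (hS : Sep I M) :
    Set.InjOn Prod.fst (Bad n I M : Set (ℤ × (Bool × ZMod n))) := by
  intro t ht u hu e
  have h := hS.four _ (sidon_mem ht).2.2.1 0 hS.zero _ (sidon_mem hu).2.2.1 0 hS.zero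
  have h1 : (t.1 : ZMod N) + sp N t.2 + 0 - (u.1 + sp N u.2) - 0 = sp N t.2 - sp N u.2 := by
    rw [e]
    ring
  rw [h1] at h
  exact Prod.ext e (sp_inj hN hn (sub_eq_zero.1 (h (((wt_sp _).sub (wt_sp _)).mono (by norm_num)))))

theorem sidon_set (hN : N + 1 = 2 ^ n) {I : Set (ZMod N)} {M : ℕ} (hS : Sep I M)
    {a b c d : ℤ × (Bool × ZMod n)} (ha : a ∈ Bad n I M) (hb : b ∈ Bad n I M)
    (hc : c ∈ Bad n I M) (hd : d ∈ Bad n I M) {σ : Bool} (a1 : a.2.1 = σ) (b1 : b.2.1 = σ)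
    (c1 : c.2.1 = σ) (d1 : d.2.1 = σ) (e : a.1 + b.1 = c.1 + d.1) : a.1 = c.1 ∨ a.1 = d.1 := by
  have h := hS.four _ (sidon_mem ha).2.2.1 _ (sidon_mem hb).2.2.1 _ (sidon_mem hc).2.2.1 _
    (sidon_mem hd).2.2.1
  have e' : (a.1 : ZMod N) + b.1 = c.1 + d.1 := by exact_mod_cast congrArg (Int.cast (R := ZMod N)) e
  have h1 : (a.1 : ZMod N) + sp N a.2 + (b.1 + sp N b.2) - (c.1 + sp N c.2) - (d.1 + sp N d.2) =
      sp N a.2 + sp N b.2 - sp N c.2 - sp N d.2 := by linear_combination e'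
  rw [h1] at h
  have h2 := h (((((wt_sp _).add (wt_sp _)).sub (wt_sp _)).sub (wt_sp _)).mono (by norm_num))
  have h3 : pw N a.2.2 + pw N b.2.2 = pw N c.2.2 + pw N d.2.2 := by
    simp only [sp, a1, b1, c1, d1] at h2
    split_ifs at h2
    · linear_combination h2
    · linear_combination -h2
  have key : ∀ u ∈ Bad n I M, u.2.1 = σ → a.2.2 = u.2.2 → a.1 = u.1 := by
    intro u hu u1 u2
    have h4 : a.2 = u.2 := Prod.ext (a1.trans u1.symm) u2
    refine sub_eq_zero.1 (hS.int _ (sidon_mem ha).2.2.1 _ (sidon_mem hu).2.2.1 _ ?_ ?_)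
    · linarith [abs_sub a.1 u.1, (sidon_mem ha).1, (sidon_mem hu).1]
    · rw [h4]
      push_cast
      ring
  exact (pw_add_eq hN h3).imp (fun t => key c hc c1 t.1) fun t => key d hd d1 t.1

theorem sidon_small (hN : N + 1 = 2 ^ n) {I : Set (ZMod N)} {M : ℕ} (hS : Sep I M)
    {t : ℤ × (Bool × ZMod n)} (ht : t ∈ Bad n I M) (h : |t.1| < 2 ^ 40) :
    (∃ v, 1 ≤ v ∧ |t.1| = 2 ^ v) ∨ (|t.1| = M ∧ N = 2 * M + 1) := by
  obtain ⟨a, σ, v⟩ := t
  obtain ⟨h1, -, h2, h3, h4⟩ := sidon_mem ht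
  have h5 := hS.four _ h2 0 hS.zero 0 hS.zero 0 hS.zero
  simp only [add_zero, sub_zero] at h5 h h1 ⊢
  have h6 := h5 (((wt_int h).add (wt_sp _)).mono (by norm_num))
  have h7 : 2 * M < N := by
    by_contra hc
    have := hS.int 0 hS.zero 0 hS.zero N (by rw [Nat.abs_cast]; omega) (by simp)
    exact NeZero.ne N (by exact_mod_cast this)
  have h8 : 2 * (2 : ℤ) ^ v.val ≤ N + 1 := by
    have : 2 ^ (v.val + 1) ≤ 2 ^ n := Nat.pow_le_pow_right (by norm_num) (val_lt v)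
    rw [← hN, pow_succ'] at this
    exact_mod_cast this
  have h9 : (0 : ℤ) < 2 ^ v.val := by positivity
  obtain ⟨p, p1, p2, p3⟩ : ∃ p : ℤ, |p| = 2 ^ v.val ∧ (N : ℤ) ∣ a + p ∧
      (v = 0 → a + p ≠ 0) := by
    cases σ
    · refine ⟨-2 ^ v.val, by rw [abs_neg, abs_of_pos h9], ?_, ?_⟩
      · rw [← intCast_zmod_eq_zero_iff_dvd]
        simpa [sp, pw] using h6
      · rintro rfl e
        refine h3 (Prod.ext ?_ rfl)
        simp only [val_zero, pow_zero] at e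
        linarith
    · refine ⟨2 ^ v.val, abs_of_pos h9, ?_, ?_⟩
      · rw [← intCast_zmod_eq_zero_iff_dvd]
        simpa [sp, pw] using h6
      · rintro rfl e
        refine h4 (Prod.ext ?_ rfl)
        simp only [val_zero, pow_zero] at e
        linarith
  by_cases e : a + p = 0
  · refine Or.inl ⟨v.val, Nat.pos_of_ne_zero fun t => p3 ((val_eq_zero v).1 t) e, ?_⟩
    rw [eq_neg_of_add_eq_zero_left e, abs_neg, p1]
  · have q1 := Int.le_of_dvd (abs_pos.2 e) ((dvd_abs _ _).2 p2)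
    have q2 := abs_add_le a p
    exact Or.inr ⟨by omega, by omega⟩

theorem sidon_mu {I : Set (ZMod N)} {M : ℕ} {c : ℤ → ℂ} {μ : ℝ} (hS : Sep I M) (hc : Mino c M μ)
    (hN : N = 2 * M + 1) : 1 ≤ N * μ := by
  have h1 : ∑ y : ZMod N, (ph c M y : ℂ) = c 0 * N := by
    simp only [hc.ph_eq]
    rw [sum_comm, sum_eq_single 0]
    · simp [ee, mul_comm]
    · intro a ha h0
      simp only [mul_comm (a : ZMod N)]
      rw [← mul_sum, SP.sum_chr, if_neg, mul_zero]
      intro e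
      have := abs_le.2 (mem_Icc.1 ha)
      exact h0 (hS.int 0 hS.zero 0 hS.zero a (by omega) (by rw [e, sub_zero]))
    · simp
  have h2 : ∑ y : ZMod N, ((SP.sg y : ℝ) + SP.sg (-y)) = -2 := by
    rw [sum_eq_single 0]
    · norm_num [SP.sg]
    · intro y _ hy
      have h3 : y.valMinAbs ≠ 0 := fun t => hy ((valMinAbs_eq_zero y).1 t)
      rw [SP.sg, SP.sg, valMinAbs_neg_of_ne_half (by omega)]
      split_ifs <;> first | omega | norm_num
    · simp
  rw [sum_add_distrib, ← Equiv.sum_comp (Equiv.neg (ZMod N)) fun y => (SP.sg (-y) : ℝ)] at h2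
  simp only [Equiv.neg_apply, neg_neg] at h2
  have h3 : ∑ y : ZMod N, ph c M y ≤ ∑ y : ZMod N, (SP.sg y : ℝ) := sum_le_sum fun y _ => hc.ph_le y
  have h4 := congrArg norm h1
  rw [← Complex.ofReal_sum, Complex.norm_real, norm_mul, Complex.norm_natCast] at h4
  have h5 := mul_le_mul_of_nonneg_right (hc.even 0 Even.zero) (Nat.cast_nonneg (α := ℝ) N)
  have h6 := neg_le_abs (∑ y : ZMod N, ph c M y)
  rw [Real.norm_eq_abs] at h4
  linarith

theorem sidon_big (hN : N + 1 = 2 ^ n) (hn : 3 ≤ n) {I : Set (ZMod N)} {M : ℕ} {c : ℤ → ℂ} {μ : ℝ}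
    (hS : Sep I M) (hc : Mino c M μ) {B : Finset (ℤ × (Bool × ZMod n))} {σ : Bool}
    (hB : ∀ t ∈ B, t ∈ Bad n I M ∧ t.2.1 = σ ∧ 2 ^ 40 ≤ |t.1|) :
    ∑ t ∈ B, ‖c t.1‖ ≤ 12 / 2 ^ 20 := by
  have h := sidon_sum (B := B.image Prod.fst) (by
    simp only [forall_mem_image]
    exact fun a ha b hb c hc d hd e => sidon_set hN hS (hB a ha).1 (hB b hb).1 (hB c hc).1
      (hB d hd).1 (hB a ha).2.1 (hB b hb).2.1 (hB c hc).2.1 (hB d hd).2.1 e)
  rw [filter_true_of_mem (by simp only [forall_mem_image]; exact fun t ht => (hB t ht).2.2),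
    sum_image ((sidon_inj hN hn hS).mono fun t ht => (hB t ht).1)] at h
  exact (sum_le_sum fun t ht => hc.dec _ (sidon_mem (hB t ht).1).2.1).trans h

/-- (1) `t ↦ t.1` is injective on `Bad` (`Sep.four` with two zeros, `wt_sp`, `sp_inj`).
(2) If `|t.1| < 2 ^ 40` then `t.1 + sp t.2` has weight at most `41` (`wt_int`) and lies in `I`, so
it is `0`. Let `v = t.2.2.val`. If `v = 0` then `t.1 ± 1 = 0` in `ZMod N`, hence in `ℤ` (`Sep.int`
with `a = b = 0`; `M + 1 ≤ 2 M`), which is excluded. So `v ≥ 1`, and `t.1` is even: otherwise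
... put `t.1 = ∓ 2 ^ v + N z`; from `Sep.int` one gets `2 M < N` (else `N` or `0 < N ≤ 2 M` is a
nonzero integer with image `0`), `|t.1| ≤ M < N / 2`, `2 ^ v ≤ 2 ^ (n - 1) = (N + 1) / 2`, so
`|t.1 ± 2 ^ v| < N` and `t.1 = ∓ 2 ^ v`. These terms give at most `2 ^ 41 μ`.
(3) For each sign `σ` the set of `t.1` with `t ∈ Bad`, `t.2.1 = σ` is a Sidon set: `Sep.four`,
`pw_add_eq`, then `Sep.int` for the difference (size at most `2 M`). `sidon_sum` and `dec`. -/
theorem sum_bad (hN : N + 1 = 2 ^ n) (hn : 3 ≤ n) {I : Set (ZMod N)} {M : ℕ} {c : ℤ → ℂ} {μ : ℝ}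
    (hS : Sep I M) (hc : Mino c M μ) :
    ∑ t ∈ Bad n I M, ‖c t.1‖ ≤ 2 ^ 41 * μ + 24 / 2 ^ 20 := by
  have hμ : 0 ≤ μ := (norm_nonneg _).trans (hc.even 0 Even.zero)
  rw [← sum_filter_add_sum_filter_not _ fun t => |t.1| < 2 ^ 40,
    ← sum_filter_add_sum_filter_not ((Bad n I M).filter fun t => ¬ |t.1| < 2 ^ 40)
      fun t => t.2.1 = true]
  have h1 := sidon_big hN hn hS hc (σ := true)
    (B := ((Bad n I M).filter fun t => ¬ |t.1| < 2 ^ 40).filter fun t => t.2.1 = true) fun t ht => by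
      simp only [mem_filter, not_lt] at ht
      exact ⟨ht.1.1, ht.2, ht.1.2⟩
  have h2 := sidon_big hN hn hS hc (σ := false)
    (B := ((Bad n I M).filter fun t => ¬ |t.1| < 2 ^ 40).filter fun t => ¬ t.2.1 = true)
    fun t ht => by
      simp only [mem_filter, not_lt, Bool.not_eq_true] at ht
      exact ⟨ht.1.1, ht.2, ht.1.2⟩
  have h3 : ((Bad n I M).filter fun t => |t.1| < 2 ^ 40).card ≤ 82 := by
    refine (card_le_card_of_injOn (t := (insert (M : ℤ) ((range 40).image (2 ^ ·))).biUnion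
      fun p => {p, -p}) Prod.fst (fun t ht => ?_)
      ((sidon_inj hN hn hS).mono (coe_subset.2 (filter_subset _ _)))).trans ?_
    · obtain ⟨t1, t2⟩ := mem_filter.1 ht
      refine mem_biUnion.2 ⟨|t.1|, ?_, ?_⟩
      · rcases sidon_small hN hS t1 t2 with ⟨v, -, e⟩ | e
        · exact mem_insert_of_mem (mem_image.2 ⟨v, mem_range.2
            ((pow_lt_pow_iff_right₀ (one_lt_two (α := ℤ))).1 (e ▸ t2)), e.symm⟩)
        · exact e.1 ▸ mem_insert_self _ _
      · rcases abs_choice t.1 with e | e <;> simp [e]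
    · refine (card_biUnion_le_card_mul _ _ 2 fun p _ => card_le_two).trans ?_
      have := (card_insert_le (M : ℤ) ((range 40).image (2 ^ ·))).trans
        (Nat.succ_le_succ card_image_le)
      rw [card_range] at this
      omega
  have h4 := sum_le_card_nsmul ((Bad n I M).filter fun t => |t.1| < 2 ^ 40) (fun t => ‖c t.1‖)
    (3 * μ) fun t ht => by
      obtain ⟨t1, t2⟩ := mem_filter.1 ht
      rcases sidon_small hN hS t1 t2 with ⟨v, hv, e⟩ | ⟨e, e'⟩
      · have : Even |t.1| := e ▸ (even_two.pow_of_ne_zero (by omega))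
        linarith [hc.even _ (even_abs.1 this)]
      · have p1 := sidon_mu hS hc e'
        have p2 : (1 : ℝ) ≤ M := by exact_mod_cast hc.pos
        refine (hc.dec _ (sidon_mem t1).2.1).trans ?_
        rw [← Int.cast_abs, e, Int.cast_natCast, div_le_iff₀ (by linarith)]
        rw [e'] at p1
        push_cast at p1
        nlinarith
  have h5 : (((Bad n I M).filter fun t => |t.1| < 2 ^ 40).card : ℝ) ≤ 82 := by exact_mod_cast h3
  rw [nsmul_eq_mul] at h4
  have h6 := h4.trans (mul_le_mul_of_nonneg_right h5 (by positivity))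
  refine (add_le_add h6 (add_le_add h1 h2)).trans ?_
  linarith

/-- Exchange the sums and reindex. -/
theorem sum_er (c : ℤ → ℂ) (b : ZMod N) (I : Set (ZMod N)) (M : ℕ) :
    ∑ i : ZMod n, er c b I M i = (∑ t ∈ Bad n I M, ‖c t.1‖) * PP n b := by
  rw [sum_mul]
  simp only [er]
  rw [sum_comm]
  refine sum_congr rfl fun t _ => ?_
  rw [← mul_sum, PP, ← Equiv.sum_comp (Equiv.addRight t.2.2) fun j => ‖ww b j‖]
  rfl

theorem er_nonneg (c : ℤ → ℂ) (b : ZMod N) (I : Set (ZMod N)) (M : ℕ) (i : ZMod n) :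
    0 ≤ er c b I M i := sum_nonneg fun _ _ => by positivity

end Pool.Agent.Lib.MP_a01f70_lc.BA
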