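import Pool.Agent.Lib.MP_a01f70_lc.BA.GainA
import Pool.Agent.Lib.MP_a01f70_lc.BA.Sidon
import Pool.Agent.Lib.MP_a01f70_lc.BA.Core

/-! The expected gain at one position. -/

set_option autoImplicit false
set_option linter.unusedSectionVars false

noncomputable section

namespace Pool.Agent.Lib.MP_a01f70_lc.BA

open Finset ZMod
open scoped ComplexConjugate

variable {N n : ℕ} [NeZero N] [NeZero n]

variable {Ω : Type} [Fintype Ω] {w : Ω → ℝ} {I : Set (ZMod N)} {τ μ : ℝ} {c : ℤ → ℂ} {M : ℕ}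

/-- `‖c 1‖ ^ 2 ≥ 1 / 4`, `∑_R ‖w‖ ^ 2 ≥ VV - 2 ε` (`‖w‖ ^ 2 ≤ 2 ‖w‖` outside `R`),
`∑_R er ≤ ∑ er` (`er_nonneg`), `sum_er`, `sum_bad`. -/
theorem sum_main (hN : N + 1 = 2 ^ n) (hn : 3 ≤ n) (hS : Sep I M) (hc : Mino c M μ) (b : ZMod N)
    (R : Finset (ZMod n)) {ε : ℝ} (hR : ∑ i ∈ Rᶜ, ‖ww b i‖ ≤ ε) :
    (VV n b - 2 * ε) / 4 - (2 ^ 41 * μ + 24 / 2 ^ 20) * PP n b ≤
      ∑ i ∈ R, (‖c 1‖ ^ 2 * ‖ww b i‖ ^ 2 - er c b I M i) := by
  have h1 : 1 / 4 ≤ ‖c 1‖ ^ 2 := by nlinarith [hc.one]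
  have h2 : VV n b - 2 * ε ≤ ∑ i ∈ R, ‖ww b i‖ ^ 2 := by
    have h3 : ∑ i ∈ Rᶜ, ‖ww b i‖ ^ 2 ≤ ∑ i ∈ Rᶜ, 2 * ‖ww b i‖ := sum_le_sum fun i _ => by
      nlinarith [norm_ww b i, norm_nonneg (ww b i)]
    rw [← mul_sum] at h3
    have h4 := sum_add_sum_compl R fun i => ‖ww b i‖ ^ 2
    unfold VV
    linarith
  have h5 : ∑ i ∈ R, er c b I M i ≤ (2 ^ 41 * μ + 24 / 2 ^ 20) * PP n b := by
    refine (sum_le_sum_of_subset_of_nonneg (subset_univ R) fun i _ _ => er_nonneg c b I M i).trans ?_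
    rw [sum_er]
    exact mul_le_mul_of_nonneg_right (sum_bad hN hn hS hc) (PP_nonneg b)
  rw [sum_sub_distrib, ← mul_sum]
  have h6 : 0 ≤ ∑ i ∈ R, ‖ww b i‖ ^ 2 := sum_nonneg fun _ _ => sq_nonneg _
  nlinarith

/-- `core` with `R' = univ.filter (· + k ∈ R)` (same cardinality, sums are reindexed by
`i ↦ i + k`), `ord0`, `gain1`, `gain2`, `trunc`, `sum_main`. -/
theorem gain (hN : N + 1 = 2 ^ n) (hn : 3 ≤ n) (hS : Sep I M) (hc : Mino c M μ)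
    (Y : Finset (ZMod n) → Ω → ZMod N) (h : ∀ σ, Good w (Y σ) I τ) (b : ZMod N) (k : ZMod n)
    (R : Finset (ZMod n)) {ε q l : ℝ} (hq0 : 0 ≤ q) (hq1 : q ≤ 1) (hl : 0 ≤ l)
    (hR : ∑ i ∈ Rᶜ, ‖ww b i‖ ≤ ε) :
    LB μ τ M (1 + Real.log M) ε q l (VV n b) (PP n b) R.card ≤
      ∑ σ, bw (fun _ : ZMod n => q) σ * ∑ ω, w ω *
        ∑ W, bw (fun i => if i ∈ σ then cl (l * gg (c 1) b (i + k) (Y σ ω)) else 0) W *
          ph c M (Y σ ω + ∑ i ∈ W, pw N (i + k) * b) := by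
  have hτ := (h ∅).tau
  have hV := VV_nonneg (n := n) b
  have hP := PP_nonneg (n := n) b
  have hL := Real.log_natCast_nonneg M
  have key := core w (h ∅).nn (h ∅).one Y (fun i => pw N (i + k) * b) (ph c M) hc.abs_ph
    (fun σ ω i => cl (l * gg (c 1) b (i + k) (Y σ ω))) (fun _ _ _ => cl_nonneg _)
    (fun _ _ _ => cl_le _) (univ.filter fun i => i + k ∈ R) _ hq0 hq1 (by positivity)
    (trunc hc b k R hR) (fun σ => ord0 (h σ) hS hc)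
    (fun σ i _ => gain1 hN (h σ) hS hc b (i + k) hl)
    fun σ i j => gain2 hN hn (h σ) hS hc b _ _ (i + k) (j + k) hl
  have e : ∀ f : ZMod n → ℝ, ∑ i ∈ univ.filter (fun i => i + k ∈ R), f (i + k) = ∑ i ∈ R, f i :=
    fun f => sum_nbij' (· + k) (· - k) (by simp) (by simp) (by simp) (by simp) (by simp)
  have ec : ((univ.filter fun i => i + k ∈ R).card : ℝ) = R.card := by simpa using e fun _ => 1
  refine le_trans ?_ key
  rw [sum_sub_distrib, ← mul_sum, sum_const, nsmul_eq_mul, ec,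
    e fun i => ‖c 1‖ ^ 2 * ‖ww b i‖ ^ 2 - er c b I M i]
  have h1 := mul_le_mul_of_nonneg_left (sum_main hN hn hS hc b R hR)
    (mul_nonneg hq0 (div_nonneg hl zero_le_two))
  unfold LB
  linarith

end Pool.Agent.Lib.MP_a01f70_lc.BA
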