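import Pool.Agent.Lib.MP_a01f70_lc.BA.Pw

/-! Sums of three powers of two. -/

set_option autoImplicit false
set_option linter.unusedSectionVars false

noncomputable section

namespace Pool.Agent.Lib.MP_a01f70_lc.BA

open Finset ZMod
open scoped ComplexConjugate

variable {N n : ℕ} [NeZero N] [NeZero n]

theorem Pw3_cnt (hN : N + 1 = 2 ^ n) (x : ZMod N) (X : Finset (ZMod n))
    (s : Finset (ZMod n × ZMod n × ZMod n))
    (f : ZMod n × ZMod n × ZMod n → ZMod n × ZMod n × ZMod n) (hf : Function.Injective f)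
    (h : ∀ t ∈ s, (f t).1 ∈ X ∧ pw N (f t).1 + pw N (f t).2.1 + pw N (f t).2.2 = x) :
    s.card ≤ 2 * X.card := by
  refine card_le_mul_card_image_of_maps_to (fun t ht => (h t ht).1) 2 fun b _ => ?_
  refine (card_le_card_of_injOn (fun t => (f t).2) (fun t ht => ?_) fun t ht t' ht' e =>
    hf (Prod.ext ((mem_filter.1 ht).2.trans (mem_filter.1 ht').2.symm) e)).trans
    (card_two hN (x - pw N b))
  obtain ⟨h1, rfl⟩ := mem_filter.1 ht
  exact mem_filter.2 ⟨mem_univ _, by linear_combination (h t h1).2⟩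

theorem Pw3_log {a b c : ℕ} (hb : b ≤ a) (hc : c ≤ a) :
    a = Nat.log 2 (2 ^ a + 2 ^ b + 2 ^ c) ∨ a = Nat.log 2 (2 ^ a + 2 ^ b + 2 ^ c) - 1 := by
  have h1 := Nat.pow_le_pow_right two_pos hb
  have h2 := Nat.pow_le_pow_right two_pos hc
  have h3 := Nat.two_pow_pos b
  have h3' := Nat.two_pow_pos c
  have h4 := Nat.le_log_of_pow_le (x := a) (y := 2 ^ a + 2 ^ b + 2 ^ c) one_lt_two (by omega)
  have h5 := Nat.log_lt_of_lt_pow (b := 2) (x := a + 2) (y := 2 ^ a + 2 ^ b + 2 ^ c) (by omega)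
    (by rw [pow_add]; omega)
  omega

theorem Pw3_set (hN : N + 1 = 2 ^ n) (x : ZMod N) : ∃ X : Finset (ZMod n), X.card ≤ 4 ∧
    ∀ a b c : ZMod n, b.val ≤ a.val → c.val ≤ a.val → pw N a + pw N b + pw N c = x → a ∈ X := by
  refine ⟨({Nat.log 2 ((x - 3).val + 3), Nat.log 2 ((x - 3).val + 3) - 1,
    Nat.log 2 ((x - 3).val + 3 + N), Nat.log 2 ((x - 3).val + 3 + N) - 1} : Finset ℕ).image Nat.cast,
    card_image_le.trans card_le_four, fun a b c hb hc h =>
    mem_image.2 ⟨a.val, ?_, natCast_zmod_val a⟩⟩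
  have h1 := Nat.pow_le_pow_right two_pos hb
  have h2 := Nat.pow_le_pow_right two_pos hc
  have h3 := Nat.pow_le_pow_right two_pos (val_lt a)
  have h4 := Nat.two_pow_pos b.val
  have h5 := Nat.two_pow_pos c.val
  obtain ⟨m, hm⟩ : ∃ m, 2 ^ a.val + 2 ^ b.val + 2 ^ c.val = m + 3 := ⟨_, (Nat.sub_add_cancel
    (by omega)).symm⟩
  have h6 : (x - 3).val = m % N := by
    have h7 := congrArg (Nat.cast : ℕ → ZMod N) hm
    push_cast at h7
    rw [← val_natCast, ← h, pw, pw, pw, h7, add_sub_cancel_right]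
  have h7 : m = m % N ∨ m = m % N + N := by
    rcases lt_or_ge m N with h7 | h7
    · exact .inl (Nat.mod_eq_of_lt h7).symm
    · rw [Nat.mod_eq_sub_mod h7, Nat.mod_eq_of_lt (by omega)]
      omega
  have h8 := Pw3_log hb hc
  rw [hm] at h8
  simp only [mem_insert, mem_singleton, h6, add_right_comm _ 3 N]
  rcases h7 with h7 | h7 <;> rw [← h7] <;> tauto

/-- The natural number `m = 2 ^ a + 2 ^ b + 2 ^ c ≤ 3 * 2 ^ (n - 1)` is `x.val` or `x.val + N`
(if `N ≤ 2`, i.e. `n = 1`, the type has one element), the largest exponent is `log 2 m` or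
`log 2 m - 1`: a set `X` of four values meets `{a, b, c}`. Three positions, four values, and two
choices for the other two (`card_two`). -/
theorem card_three (hN : N + 1 = 2 ^ n) (x : ZMod N) :
    (univ.filter fun t : ZMod n × ZMod n × ZMod n =>
      pw N t.1 + pw N t.2.1 + pw N t.2.2 = x).card ≤ 24 := by
  obtain ⟨X, h4, hX⟩ := Pw3_set hN x
  generalize hS : (univ.filter fun t : ZMod n × ZMod n × ZMod n =>
    pw N t.1 + pw N t.2.1 + pw N t.2.2 = x) = S
  have hm : ∀ t ∈ S, pw N t.1 + pw N t.2.1 + pw N t.2.2 = x := fun t ht =>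
    (mem_filter.1 (hS ▸ ht :)).2
  have h1 := Pw3_cnt hN x X (S.filter fun t => t.1 ∈ X) (fun t => (t.1, t.2.1, t.2.2))
    (fun _ _ h => h) fun t ht => ⟨(mem_filter.1 ht).2, hm t (mem_filter.1 ht).1⟩
  have h2 := Pw3_cnt hN x X (S.filter fun t => t.2.1 ∈ X) (fun t => (t.2.1, t.1, t.2.2))
    (fun _ _ h => by simp_all [Prod.ext_iff]) fun t ht =>
      ⟨(mem_filter.1 ht).2, by linear_combination hm t (mem_filter.1 ht).1⟩
  have h3 := Pw3_cnt hN x X (S.filter fun t => t.2.2 ∈ X) (fun t => (t.2.2, t.1, t.2.1))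
    (fun _ _ h => by simp_all [Prod.ext_iff]) fun t ht =>
      ⟨(mem_filter.1 ht).2, by linear_combination hm t (mem_filter.1 ht).1⟩
  have h5 := card_le_card (s := S) (t := (S.filter fun t => t.1 ∈ X) ∪
    ((S.filter fun t => t.2.1 ∈ X) ∪ S.filter fun t => t.2.2 ∈ X)) fun t ht => by
      simp only [mem_union, mem_filter, ht, true_and]
      rcases le_total t.1.val t.2.1.val with a | a <;> rcases le_total t.2.1.val t.2.2.val with b | b <;>
        rcases le_total t.1.val t.2.2.val with c | c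
      all_goals first
        | exact .inl (hX _ _ _ (by omega) (by omega) (hm t ht))
        | exact .inr (.inl (hX _ t.1 t.2.2 (by omega) (by omega) (by linear_combination hm t ht)))
        | exact .inr (.inr (hX _ t.1 t.2.1 (by omega) (by omega) (by linear_combination hm t ht)))
  have h6 := h5.trans ((card_union_le _ _).trans (Nat.add_le_add_left (card_union_le _ _) _))
  omega

end Pool.Agent.Lib.MP_a01f70_lc.BA
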