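import Pool.Agent.Lib.MP_a01f70_lc.BA.TestA
import Pool.Agent.Lib.MP_a01f70_lc.BA.Pw3

/-! The sixth moment and the clamp. -/

set_option autoImplicit false
set_option linter.unusedSectionVars false

noncomputable section

namespace Pool.Agent.Lib.MP_a01f70_lc.BA

open Finset ZMod
open scoped ComplexConjugate

variable {N n : ℕ} [NeZero N] [NeZero n]

variable {Ω : Type} [Fintype Ω] {w : Ω → ℝ} {Y : Ω → ZMod N} {I : Set (ZMod N)} {τ : ℝ} {M : ℕ}

theorem mom_sq (h : Good w Y I τ) {T : Type} [Fintype T] (κ : T → ZMod N) (O : T → ℂ) {c : ℕ}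
    (hI : ∀ t t', κ t - κ t' ∈ I → κ t = κ t')
    (hc : ∀ x, (univ.filter fun t => κ t = x).card ≤ c) :
    ∑ ω, w ω * ‖∑ t, O t * ee (κ t * Y ω)‖ ^ 2 ≤ c * ∑ t, ‖O t‖ ^ 2 + τ * (∑ t, ‖O t‖) ^ 2 := by
  classical
  have h1 := h.test univ ∅ (empty_subset _) (fun p : T × T => O p.1 * conj (O p.2))
    (fun p => κ p.1 - κ p.2) (fun _ hp => absurd hp (notMem_empty _))
  have h2 : ∀ y, ∑ p : T × T, O p.1 * conj (O p.2) * ee ((κ p.1 - κ p.2) * y) =
      ((‖∑ t, O t * ee (κ t * y)‖ ^ 2 : ℝ) : ℂ) := fun y => by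
    rw [Complex.ofReal_pow, ← Complex.mul_conj', map_sum, sum_mul_sum, Fintype.sum_prod_type]
    refine sum_congr rfl fun t _ => sum_congr rfl fun t' _ => ?_
    rw [sub_mul, sub_eq_add_neg, ee_add, ee_neg, map_mul]
    ring
  simp only [h2, sum_empty, sub_zero, sdiff_empty, ← Complex.ofReal_mul, ← Complex.ofReal_sum,
    Complex.norm_real, norm_mul, Complex.norm_conj] at h1
  refine (le_abs_self _).trans (h1.trans (add_le_add ?_ (le_of_eq ?_)))
  · have h3 : ∑ t, ∑ t', (if κ t' = κ t then ‖O t‖ ^ 2 else 0) ≤ c * ∑ t, ‖O t‖ ^ 2 := by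
      rw [mul_sum]
      refine sum_le_sum fun t _ => ?_
      rw [← sum_filter, sum_const, nsmul_eq_mul]
      exact mul_le_mul_of_nonneg_right (Nat.cast_le.2 (hc _)) (sq_nonneg _)
    have h4 : ∑ p : T × T, (((if κ p.2 = κ p.1 then ‖O p.1‖ ^ 2 else 0) +
        if κ p.1 = κ p.2 then ‖O p.2‖ ^ 2 else 0) / 2) ≤ c * ∑ t, ‖O t‖ ^ 2 := by
      rw [← sum_div, sum_add_distrib, Fintype.sum_prod_type, Fintype.sum_prod_type_right]
      linarith
    rw [sum_filter]
    refine (sum_le_sum fun p _ => ?_).trans h4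
    by_cases h5 : κ p.1 - κ p.2 ∈ I
    · rw [if_pos h5, if_pos (hI _ _ h5), if_pos (hI _ _ h5).symm]
      nlinarith [sq_nonneg (‖O p.1‖ - ‖O p.2‖)]
    · rw [if_neg h5]
      positivity
  · rw [sq, sum_mul_sum, Fintype.sum_prod_type]

theorem mom_cube {R ι : Type} [CommSemiring R] [Fintype ι] (f : ι → R) :
    (∑ j, f j) ^ 3 = ∑ t : ι × ι × ι, f t.1 * f t.2.1 * f t.2.2 := by
  simp only [Fintype.sum_prod_type, mul_assoc, ← mul_sum, ← sum_mul]
  ring

/-- `|gg| ≤ ‖H‖`, `H = ∑ j, o j * ee (pw j y)`, `o j = c₁ ww b (i + j)`, and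
`‖H‖ ^ 6 = H ^ 3 conj (H ^ 3)` is a sum over pairs `(t, t')` of triples with frequency
`κ t - κ t'` (`κ t` the sum of the three powers) and coefficient `O t conj (O t')`. `Good.test`
with `Z = ∅`: a frequency in `I` is zero (`Sep.four`, weight `6`); for `κ t = κ t'` use
`‖O t‖ ‖O t'‖ ≤ (‖O t‖ ^ 2 + ‖O t'‖ ^ 2) / 2` and `card_three`;
`∑ ‖O t‖ ^ 2 ≤ VV ^ 3`, `∑ ‖O t‖ ≤ PP ^ 3`. -/
theorem mom6 (hN : N + 1 = 2 ^ n) (h : Good w Y I τ) (hS : Sep I M) {c₁ : ℂ} (hc : ‖c₁‖ ≤ 1)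
    (b : ZMod N) (i : ZMod n) :
    ∑ ω, w ω * gg c₁ b i (Y ω) ^ 6 ≤ 24 * VV n b ^ 3 + τ * PP n b ^ 6 := by
  have ho : ∀ j : ZMod n, ‖c₁ * ww b (i + j)‖ ≤ ‖ww b (i + j)‖ := fun j => by
    rw [norm_mul]
    exact mul_le_of_le_one_left (norm_nonneg _) hc
  have h1 := mom_sq h (fun t : ZMod n × ZMod n × ZMod n => pw N t.1 + pw N t.2.1 + pw N t.2.2)
    (fun t => c₁ * ww b (i + t.1) * (c₁ * ww b (i + t.2.1)) * (c₁ * ww b (i + t.2.2)))
    (fun t t' ht => by
      have h2 := hS.four _ ht 0 hS.zero 0 hS.zero 0 hS.zero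
      rw [add_zero, sub_zero, sub_zero] at h2
      exact sub_eq_zero.1 (h2 (((((wt_pw _).add (wt_pw _)).add (wt_pw _)).sub
        (((wt_pw _).add (wt_pw _)).add (wt_pw _))).mono (by norm_num)))) (card_three hN)
  have h2 : ∑ j : ZMod n, ‖c₁ * ww b (i + j)‖ ≤ PP n b :=
    (sum_le_sum fun j _ => ho j).trans_eq (Equiv.sum_comp (Equiv.addLeft i) fun j => ‖ww b j‖)
  have h3 : ∑ j : ZMod n, ‖c₁ * ww b (i + j)‖ ^ 2 ≤ VV n b :=
    (sum_le_sum fun j _ => pow_le_pow_left₀ (norm_nonneg _) (ho j) 2).trans_eq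
      (Equiv.sum_comp (Equiv.addLeft i) fun j => ‖ww b j‖ ^ 2)
  have h4 := pow_le_pow_left₀ (sum_nonneg fun _ _ => sq_nonneg _) h3 3
  have h5 := pow_le_pow_left₀ (by positivity)
    (pow_le_pow_left₀ (sum_nonneg fun _ _ => norm_nonneg _) h2 3) 2
  rw [mom_cube] at h4 h5
  rw [← pow_mul] at h5
  simp only [← mul_pow, ← norm_mul] at h4 h5
  refine (sum_le_sum fun ω _ => mul_le_mul_of_nonneg_left ?_ (h.nn ω)).trans
    (h1.trans (add_le_add (mul_le_mul_of_nonneg_left h4 (by norm_num))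
      (mul_le_mul_of_nonneg_left h5 h.tau)))
  have h6 := pow_le_pow_left₀ (abs_nonneg _)
    (Complex.abs_re_le_norm (∑ j : ZMod n, c₁ * ww b (i + j) * ee (pw N j * Y ω))) 6
  rw [Even.pow_abs (by decide)] at h6
  refine h6.trans_eq ?_
  rw [show 6 = 3 * 2 from rfl, pow_mul, ← norm_pow, mom_cube]
  congr 2
  refine sum_congr rfl fun t _ => ?_
  rw [add_mul, add_mul, ee_add, ee_add]
  ring

theorem mom_cl0 {t : ℝ} (h : |t| ≤ 1) : cl t = (1 + t) / 2 := by
  obtain ⟨h1, h2⟩ := abs_le.1 h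
  rw [cl, min_eq_right (by linarith), max_eq_right (by linarith)]

theorem mom_cl1 (t : ℝ) : |cl t - (1 + t) / 2| ≤ |t| / 2 := by
  have h1 := le_abs_self t
  have h2 := neg_abs_le t
  rw [cl, abs_le]
  rcases le_total 1 ((1 + t) / 2) with h | h
  · rw [min_eq_left h, max_eq_right zero_le_one]
    constructor <;> linarith
  · rw [min_eq_right h]
    rcases le_total 0 ((1 + t) / 2) with h' | h'
    · rw [max_eq_right h']
      constructor <;> linarith
    · rw [max_eq_left h']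
      constructor <;> linarith

theorem mom_six (t : ℝ) : t ^ 6 = |t| ^ 6 := (Even.pow_abs (by decide) t).symm

/-- Zero for `|t| ≤ 1`, at most `|t| / 2 ≤ t ^ 6` otherwise. -/
theorem cl_sub (t : ℝ) : |cl t - (1 + t) / 2| ≤ t ^ 6 := by
  rcases le_total |t| 1 with h | h
  · rw [mom_cl0 h, sub_self, abs_zero]
    positivity
  · rw [mom_six]
    exact (mom_cl1 t).trans ((half_le_self (abs_nonneg t)).trans (le_self_pow₀ h (by norm_num)))

/-- `p p' - a a' = (p - a) p' + a (p' - a')`; the second term vanishes for `|t'| ≤ 1`, and is at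
most `(1 + |t|) |t'| / 4 ≤ (t' ^ 6 + max |t| |t'| ^ 6) / 4` otherwise. -/
theorem cl_mul_sub (t t' : ℝ) : |cl t * cl t' - (1 + t) * (1 + t') / 4| ≤ 2 * (t ^ 6 + t' ^ 6) := by
  have h0 : 0 ≤ t ^ 6 := by positivity
  have h0' : 0 ≤ t' ^ 6 := by positivity
  have h1 : |(cl t - (1 + t) / 2) * cl t'| ≤ t ^ 6 := by
    rw [abs_mul, abs_of_nonneg (cl_nonneg t')]
    exact (mul_le_of_le_one_right (abs_nonneg _) (cl_le t')).trans (cl_sub t)
  have h2 : |(1 + t) / 2 * (cl t' - (1 + t') / 2)| ≤ t ^ 6 + t' ^ 6 := by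
    rcases le_total |t'| 1 with h | h
    · rw [mom_cl0 h, sub_self, mul_zero, abs_zero]
      positivity
    · have h3 : |(1 + t) / 2| ≤ (1 + |t|) / 2 := by
        rw [abs_div, abs_two]
        linarith [abs_add_le 1 t, abs_one (α := ℝ)]
      have h4 : |t'| ≤ t' ^ 6 := by
        rw [mom_six]
        exact le_self_pow₀ h (by norm_num)
      have h5 : |t| * |t'| ≤ t ^ 6 + t' ^ 6 := by
        rw [mom_six t, mom_six t'] at *
        rcases le_total |t| |t'| with h6 | h6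
        · have h7 := mul_le_mul_of_nonneg_right h6 (abs_nonneg t')
          have h8 := pow_le_pow_right₀ h (by norm_num : 2 ≤ 6)
          linarith
        · have h7 := mul_le_mul_of_nonneg_left h6 (abs_nonneg t)
          have h8 := pow_le_pow_right₀ (h.trans h6) (by norm_num : 2 ≤ 6)
          linarith
      rw [abs_mul]
      refine (mul_le_mul h3 (mom_cl1 t') (abs_nonneg _) (by positivity)).trans ?_
      linarith
  rw [show cl t * cl t' - (1 + t) * (1 + t') / 4 =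
    (cl t - (1 + t) / 2) * cl t' + (1 + t) / 2 * (cl t' - (1 + t') / 2) by ring]
  linarith [abs_add_le ((cl t - (1 + t) / 2) * cl t') ((1 + t) / 2 * (cl t' - (1 + t') / 2))]

end Pool.Agent.Lib.MP_a01f70_lc.BA
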