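import Pool.Agent.Lib.MP_a01f70_lc.BA.Defs

/-! Sums of two powers of two. -/

set_option autoImplicit false
set_option linter.unusedSectionVars false

noncomputable section

namespace Pool.Agent.Lib.MP_a01f70_lc.BA

open Finset ZMod
open scoped ComplexConjugate

variable {N n : ℕ} [NeZero N] [NeZero n]

theorem pw_nat_eq {a b c d : ℕ} (h : 2 ^ a + 2 ^ b = 2 ^ c + 2 ^ d) :
    (a = c ∧ b = d) ∨ (a = d ∧ b = c) := by
  have h1 : ∀ {a b c d : ℕ}, a ≤ b → b < d → 2 ^ a + 2 ^ b < 2 ^ c + 2 ^ d := fun {a b c d} g g' => by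
    have := Nat.pow_le_pow_right two_pos g
    have := Nat.pow_le_pow_right two_pos (Nat.succ_le_of_lt g')
    have : 0 < 2 ^ c := by positivity
    omega
  have h2 : ∀ {a b c d : ℕ}, a ≤ b → c ≤ d → 2 ^ a + 2 ^ b = 2 ^ c + 2 ^ d → a = c ∧ b = d :=
    fun {a b c d} g g' h => by
      have : b = d := le_antisymm (not_lt.1 fun q => (h1 g' q).ne' h) (not_lt.1 fun q => (h1 g q).ne h)
      subst this
      exact ⟨Nat.pow_right_injective le_rfl (add_right_cancel h), rfl⟩
  rcases le_total a b with g | g <;> rcases le_total c d with g' | g'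
  · exact Or.inl (h2 g g' h)
  · exact Or.inr (h2 g g' (h.trans (add_comm _ _)))
  · exact Or.inr (h2 g g' ((add_comm _ _).trans h)).symm
  · exact Or.inl (h2 g g' ((add_comm _ _).trans (h.trans (add_comm _ _)))).symm

theorem pw_bound (a b : ZMod n) : 2 ≤ 2 ^ a.val + 2 ^ b.val ∧ 2 ^ a.val + 2 ^ b.val ≤ 2 ^ n := by
  have h1 := Nat.pow_le_pow_right two_pos (Nat.succ_le_of_lt (val_lt a))
  have h2 := Nat.pow_le_pow_right two_pos (Nat.succ_le_of_lt (val_lt b))
  have h3 : 0 < 2 ^ a.val := by positivity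
  have h4 : 0 < 2 ^ b.val := by positivity
  omega

/-- Both sides are natural numbers in `[2, 2 ^ n] = [2, N + 1]`, congruent mod `N`, hence equal;
then uniqueness for natural numbers (divide by the least power, parity). -/
theorem pw_add_eq (hN : N + 1 = 2 ^ n) {a b c d : ZMod n}
    (h : pw N a + pw N b = pw N c + pw N d) : (a = c ∧ b = d) ∨ (a = d ∧ b = c) := by
  have h1 : ((2 ^ a.val + 2 ^ b.val : ℕ) : ZMod N) = ((2 ^ c.val + 2 ^ d.val : ℕ) : ZMod N) := by
    push_cast
    exact h
  have h2 := pw_bound a b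
  have h3 := pw_bound c d
  have h4 := Nat.ModEq.eq_of_abs_lt ((natCast_eq_natCast_iff _ _ _).1 h1) (by
    rw [abs_lt]
    omega)
  simpa only [(val_injective n).eq_iff] using pw_nat_eq h4

/-- `pw a = pw b` gives `a = b` (add `pw a` and use `pw_add_eq`, or compare values below `N`);
`pw a + pw b = 0` is impossible for `3 ≤ n`: the number lies in `[2, N + 1]`, so it is
`N = 2 ^ n - 1`, odd, so one exponent is `0` and `2 ^ b + 2 = 2 ^ n`. -/
theorem sp_inj (hN : N + 1 = 2 ^ n) (hn : 3 ≤ n) : Function.Injective (sp (n := n) N) := by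
  have h1 : ∀ a b : ZMod n, pw N a = pw N b → a = b := fun a b h =>
    (pw_add_eq hN (a := a) (b := a) (c := b) (d := b) (by rw [h])).elim And.left And.left
  have h2 : ∀ a b : ZMod n, pw N a ≠ -pw N b := fun a b h => by
    have g1 : ((2 ^ a.val + 2 ^ b.val : ℕ) : ZMod N) = ((N : ℕ) : ZMod N) := by
      push_cast
      rw [natCast_self]
      exact add_eq_zero_iff_eq_neg.2 h
    have g2 := pw_bound a b
    have ha := val_lt a
    have hb := val_lt b
    generalize a.val = x at *
    generalize b.val = y at *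
    obtain ⟨m, rfl⟩ : ∃ m, n = m + 3 := ⟨n - 3, by omega⟩
    have g3 : 0 < 2 ^ m := by positivity
    have g4 : ∀ z, z < m + 3 → 2 ^ z = 2 ^ m * 4 ∨ 2 ^ z ≤ 2 ^ m * 2 := fun z hz => by
      rcases Nat.lt_or_ge z (m + 2) with g | g
      · exact Or.inr (Nat.pow_le_pow_right (i := z) (j := m + 1) two_pos (by omega))
      · exact Or.inl (by rw [show z = m + 2 by omega, pow_add]; rfl)
    rw [pow_add] at hN g2
    have g5 := Nat.ModEq.eq_of_abs_lt ((natCast_eq_natCast_iff _ _ _).1 g1) (by
      rw [abs_lt]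
      omega)
    have g6 := g4 x ha
    have g7 := g4 y hb
    omega
  rintro ⟨_ | _, a⟩ ⟨_ | _, b⟩ h <;> simp only [sp, if_true, Bool.false_eq_true, if_false] at h
  · rw [h1 a b (neg_injective h)]
  · exact absurd h.symm (h2 b a)
  · exact absurd h (h2 a b)
  · rw [h1 a b h]

/-- For fixed `a` at most two pairs (`pw_add_eq`). -/
theorem card_two (hN : N + 1 = 2 ^ n) (c : ZMod N) :
    (univ.filter fun t : ZMod n × ZMod n => pw N t.1 + pw N t.2 = c).card ≤ 2 := by
  rcases (univ.filter fun t : ZMod n × ZMod n => pw N t.1 + pw N t.2 = c).eq_empty_or_nonempty with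
    h | ⟨t, ht⟩
  · simp [h]
  refine (card_le_card (t := {t, t.swap}) fun u hu => ?_).trans card_le_two
  rcases pw_add_eq hN ((mem_filter.1 hu).2.trans (mem_filter.1 ht).2.symm) with h | h
  · exact mem_insert.2 (Or.inl (Prod.ext h.1 h.2))
  · exact mem_insert.2 (Or.inr (mem_singleton.2 (Prod.ext h.1 h.2)))

/-- Split by the signs: `(+,+)` and `(-,-)` give at most two solutions each (`card_two`),
`(+,-)` and `(-,+)` at most one since `c ≠ 0` (`pw a - pw b = pw a' - pw b'` gives
`pw a + pw b' = pw a' + pw b`). -/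
theorem card_sp_two (hN : N + 1 = 2 ^ n) {c : ZMod N} (hc : c ≠ 0) :
    (univ.filter fun t : (Bool × ZMod n) × (Bool × ZMod n) => sp N t.1 + sp N t.2 = c).card ≤ 6 := by
  have h1 : (univ.filter fun t : ZMod n × ZMod n => pw N t.1 - pw N t.2 = c).card ≤ 1 := by
    refine card_le_one.2 fun t ht u hu => ?_
    have g1 := (mem_filter.1 ht).2
    have g2 := (mem_filter.1 hu).2
    rcases pw_add_eq hN (a := t.1) (b := u.2) (c := u.1) (d := t.2)
      (by linear_combination g1 - g2) with h | h
    · exact Prod.ext h.1 h.2.symm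
    · exact absurd (by rw [← g1, h.1, sub_self]) hc
  have h2 := card_two hN c
  have h3 := card_two hN (-c)
  refine (card_le_card (t :=
    (univ.filter fun t : ZMod n × ZMod n => pw N t.1 + pw N t.2 = c).image
      (fun t => ((true, t.1), (true, t.2))) ∪
    (univ.filter fun t : ZMod n × ZMod n => pw N t.1 + pw N t.2 = -c).image
      (fun t => ((false, t.1), (false, t.2))) ∪
    (univ.filter fun t : ZMod n × ZMod n => pw N t.1 - pw N t.2 = c).image
      (fun t => ((true, t.1), (false, t.2))) ∪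
    (univ.filter fun t : ZMod n × ZMod n => pw N t.1 - pw N t.2 = c).image
      (fun t => ((false, t.2), (true, t.1)))) ?_).trans ?_
  · rintro ⟨⟨_ | _, a⟩, _ | _, b⟩ h <;> replace h := (mem_filter.1 h).2 <;>
      simp only [sp, if_true, Bool.false_eq_true, if_false] at h <;>
      simp only [mem_union, mem_image, mem_filter, mem_univ, true_and]
    · exact Or.inl (Or.inl (Or.inr ⟨(a, b), by linear_combination -h, rfl⟩))
    · exact Or.inr ⟨(b, a), by linear_combination h, rfl⟩
    · exact Or.inl (Or.inr ⟨(a, b), by linear_combination h, rfl⟩)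
    · exact Or.inl (Or.inl (Or.inl ⟨(a, b), h, rfl⟩))
  · exact (card_union_le _ _).trans (add_le_add ((card_union_le _ _).trans (add_le_add
      ((card_union_le _ _).trans (add_le_add (card_image_le.trans h2) (card_image_le.trans h3)))
      (card_image_le.trans h1))) (card_image_le.trans h1))

end Pool.Agent.Lib.MP_a01f70_lc.BA
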