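import Pool.Agent.Lib.MP_a01f70_lc.BA.Test
import Pool.Agent.Lib.MP_a01f70_lc.BA.Pw

/-! The term of second order. -/

set_option autoImplicit false
set_option linter.unusedSectionVars false

noncomputable section

namespace Pool.Agent.Lib.MP_a01f70_lc.BA

open Finset ZMod
open scoped ComplexConjugate

variable {N n : ℕ} [NeZero N] [NeZero n]

variable {Ω : Type} [Fintype Ω] {w : Ω → ℝ} {Y : Ω → ZMod N} {I : Set (ZMod N)} {τ μ : ℝ}
  {c : ℤ → ℂ} {M : ℕ}

/-- Selection lemma. `Good.test` on `(Icc (-M) M).erase 0 ×ˢ univ` with `Z = ∅`. For fixed `a`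
all `t` with `a + κ t ∈ I` have the same `κ t` (`Sep.four` with two zeros), which is not zero
(`Sep.int`); so they contribute at most `‖f a‖ Γ`. -/
theorem select (h : Good w Y I τ) (hS : Sep I M) {T : Type} [Fintype T] (f : ℤ → ℂ) (γ : T → ℂ)
    (κ : T → ZMod N) (hκ : ∀ t, Wt 2 (κ t)) {Γ : ℝ} (hΓ : 0 ≤ Γ)
    (hγ : ∀ x : ZMod N, x ≠ 0 → ∑ t ∈ univ.filter (fun t => κ t = x), ‖γ t‖ ≤ Γ) :
    ‖∑ ω, (w ω : ℂ) * ((∑ t, γ t * ee (κ t * Y ω)) *
        ∑ a ∈ (Icc (-M : ℤ) M).erase 0, f a * ee ((a : ZMod N) * Y ω))‖ ≤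
      (∑ a ∈ (Icc (-M : ℤ) M).erase 0, ‖f a‖) * (Γ + τ * ∑ t, ‖γ t‖) := by
  classical
  have h1 := h.test ((Icc (-M : ℤ) M).erase 0 ×ˢ (univ : Finset T)) ∅ (empty_subset _)
    (fun p => f p.1 * γ p.2) (fun p => (p.1 : ZMod N) + κ p.2) (by simp)
  rw [sum_empty, sub_zero, @sdiff_empty _ (_) _, sum_filter, sum_product, sum_product] at h1
  have h2 : ∀ ω, (∑ t, γ t * ee (κ t * Y ω)) *
      ∑ a ∈ (Icc (-M : ℤ) M).erase 0, f a * ee ((a : ZMod N) * Y ω) =
      ∑ p ∈ (Icc (-M : ℤ) M).erase 0 ×ˢ (univ : Finset T),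
        f p.1 * γ p.2 * ee (((p.1 : ZMod N) + κ p.2) * Y ω) := fun ω => by
    rw [mul_comm, sum_mul_sum, sum_product]
    refine sum_congr rfl fun a _ => sum_congr rfl fun t _ => ?_
    rw [add_mul, ee_add]
    ring
  simp only [h2]
  refine h1.trans ?_
  rw [mul_add, sum_mul]
  refine add_le_add (sum_le_sum fun a ha => ?_) (le_of_eq ?_)
  · obtain ⟨ha0, ha⟩ := mem_erase.1 ha
    by_cases hex : ∃ t, (a : ZMod N) + κ t ∈ I
    · obtain ⟨t0, ht0⟩ := hex
      have hx : κ t0 ≠ 0 := fun h0 => by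
        rw [h0, add_zero] at ht0
        refine ha0 (hS.int _ ht0 0 hS.zero a ?_ (sub_zero _))
        have h3 := abs_le.2 (mem_Icc.1 ha)
        omega
      refine le_trans ?_ (mul_le_mul_of_nonneg_left (hγ _ hx) (norm_nonneg _))
      rw [sum_filter, mul_sum]
      refine sum_le_sum fun t _ => ?_
      by_cases ht : (a : ZMod N) + κ t ∈ I
      · have h4 : (a : ZMod N) + κ t + 0 - ((a : ZMod N) + κ t0) - 0 = κ t - κ t0 := by ring
        have h5 := hS.four _ ht 0 hS.zero _ ht0 0 hS.zero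
          (by rw [h4]; exact ((hκ t).sub (hκ t0)).mono (by norm_num))
        rw [h4, sub_eq_zero] at h5
        rw [if_pos ht, if_pos h5, norm_mul]
      · rw [if_neg ht]
        split_ifs
        · positivity
        · rw [mul_zero]
    · rw [sum_eq_zero fun t _ => if_neg fun ht => hex ⟨t, ht⟩]
      positivity
  · simp only [norm_mul]
    rw [← sum_mul_sum]
    ring

/-- The second difference has coefficients `c a (ee (a z) - 1) (ee (a z') - 1)`. -/
theorem Mino.diff2 (h : Mino c M μ) (y z z' : ZMod N) :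
    ((ph c M (y + z + z') - ph c M (y + z) - ph c M (y + z') + ph c M y : ℝ) : ℂ) =
      ∑ a ∈ (Icc (-M : ℤ) M).erase 0,
        c a * (ee ((a : ZMod N) * z) - 1) * (ee ((a : ZMod N) * z') - 1) *
          ee ((a : ZMod N) * y) := by
  push_cast
  rw [h.ph_eq, h.ph_eq, h.ph_eq, h.ph_eq, ← sum_sub_distrib, ← sum_sub_distrib, ← sum_add_distrib,
    sum_erase _ (by simp)]
  refine sum_congr rfl fun a _ => ?_
  simp only [mul_add, ee_add]
  ring

/-- Expand `(1 + l g) (1 + l g') = 1 + l g + l g' + l ^ 2 g g'` and use `select` four times with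
`f` from `diff2` (`∑ ‖f a‖ ≤ 4 A`, `A = 2 (1 + log M)`): `T = Unit` (`κ = 0`, `Γ = 0`),
`T = Bool × ZMod n` (`κ = sp`, `Γ = 1` by `sp_inj`, `norm_gam`, `norm_ww`), and the product
(`κ = sp + sp`, `Γ = 6` by `card_sp_two`). -/
theorem ord2 (hN : N + 1 = 2 ^ n) (hn : 3 ≤ n) (h : Good w Y I τ) (hS : Sep I M)
    (hc : Mino c M μ) (b z z' : ZMod N) (i i' : ZMod n) {l : ℝ} (hl : 0 ≤ l) :
    |∑ ω, w ω * ((1 + l * gg (c 1) b i (Y ω)) * (1 + l * gg (c 1) b i' (Y ω)) *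
        (ph c M (Y ω + z + z') - ph c M (Y ω + z) - ph c M (Y ω + z') + ph c M (Y ω)))| ≤
      8 * (1 + Real.log M) * (2 * l + 6 * l ^ 2 + τ * (1 + l * PP n b) ^ 2) := by
  classical
  have hc1 : ‖c 1‖ ≤ 1 := hc.norm_le one_ne_zero
  have hP := PP_nonneg (n := n) b
  have hτ := h.tau
  obtain ⟨f, hf⟩ : ∃ f : ℤ → ℂ, f = fun a =>
    c a * (ee ((a : ZMod N) * z) - 1) * (ee ((a : ZMod N) * z') - 1) := ⟨_, rfl⟩
  have hA : ∑ a ∈ (Icc (-M : ℤ) M).erase 0, ‖f a‖ ≤ 8 * (1 + Real.log M) := by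
    have h1 : ∑ a ∈ (Icc (-M : ℤ) M).erase 0, ‖f a‖ ≤
        ∑ a ∈ (Icc (-M : ℤ) M).erase 0, 4 * ‖c a‖ := sum_le_sum fun a _ => by
      rw [hf, norm_mul, norm_mul]
      calc _ ≤ ‖c a‖ * 2 * 2 := by gcongr <;> exact norm_ee_sub _
        _ = _ := by ring
    rw [← mul_sum] at h1
    linarith [hc.sum_norm]
  have hA0 : 0 ≤ ∑ a ∈ (Icc (-M : ℤ) M).erase 0, ‖f a‖ := sum_nonneg fun _ _ => norm_nonneg _
  have hg : ∀ j s, ‖gam (c 1) b j s‖ ≤ 1 := fun (j : ZMod n) s =>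
    (norm_gam hc1 b j s).trans (by linarith [norm_ww b (j + s.2)])
  have h0 := select h hS f (fun _ : Unit => (1 : ℂ)) (fun _ => 0) (fun _ => wt_zero 2) le_rfl
    fun x hx => by simp [hx.symm]
  have h1 : ∀ j : ZMod n, ‖∑ ω, (w ω : ℂ) * ((gg (c 1) b j (Y ω) : ℂ) *
      ∑ a ∈ (Icc (-M : ℤ) M).erase 0, f a * ee ((a : ZMod N) * Y ω))‖ ≤
      (∑ a ∈ (Icc (-M : ℤ) M).erase 0, ‖f a‖) * (1 + τ * PP n b) := fun j => by
    simp only [gg_eq]
    refine (select h hS f (gam (c 1) b j) (sp N) (fun t => (wt_sp t).mono one_le_two) zero_le_one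
      fun x _ => ?_).trans ?_
    · refine (sum_le_card_nsmul _ _ 1 fun t _ => hg j t).trans ?_
      rw [nsmul_eq_mul, mul_one]
      refine Nat.cast_le_one.2 (card_le_one.2 fun s hs t ht => sp_inj hN hn ?_)
      rw [(mem_filter.1 hs).2, (mem_filter.1 ht).2]
    · gcongr
      exact sum_gam hc1 b j
  have h2 : ‖∑ ω, (w ω : ℂ) * ((gg (c 1) b i (Y ω) : ℂ) * (gg (c 1) b i' (Y ω) : ℂ) *
      ∑ a ∈ (Icc (-M : ℤ) M).erase 0, f a * ee ((a : ZMod N) * Y ω))‖ ≤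
      (∑ a ∈ (Icc (-M : ℤ) M).erase 0, ‖f a‖) * (6 + τ * (PP n b * PP n b)) := by
    have h3 : ∀ y, (gg (c 1) b i y : ℂ) * (gg (c 1) b i' y : ℂ) =
        ∑ t : (Bool × ZMod n) × (Bool × ZMod n), gam (c 1) b i t.1 * gam (c 1) b i' t.2 *
          ee ((sp N t.1 + sp N t.2) * y) := fun y => by
      rw [gg_eq, gg_eq, sum_mul_sum, Fintype.sum_prod_type (α₁ := Bool × ZMod n)]
      refine sum_congr rfl fun s _ => sum_congr rfl fun t _ => ?_
      rw [add_mul, ee_add]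
      ring
    simp only [h3]
    refine (select h hS f (fun t : (Bool × ZMod n) × (Bool × ZMod n) =>
      gam (c 1) b i t.1 * gam (c 1) b i' t.2) (fun t => sp N t.1 + sp N t.2)
      (fun t => (wt_sp t.1).add (wt_sp t.2)) (by norm_num : (0 : ℝ) ≤ 6) fun x hx => ?_).trans ?_
    · refine (sum_le_card_nsmul _ _ 1 fun t _ => ?_).trans ?_
      · rw [norm_mul]
        exact mul_le_one₀ (hg _ _) (norm_nonneg _) (hg _ _)
      · rw [nsmul_eq_mul, mul_one]
        exact_mod_cast card_sp_two hN hx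
    · gcongr
      simp only [norm_mul]
      rw [Fintype.sum_prod_type (α₁ := Bool × ZMod n)]
      dsimp only
      rw [← sum_mul_sum]
      exact mul_le_mul (sum_gam hc1 b i) (sum_gam hc1 b i')
        (sum_nonneg fun _ _ => norm_nonneg _) hP
  simp only [univ_unique, sum_singleton, zero_mul, ee_zero, mul_one, one_mul, norm_one,
    zero_add] at h0
  have hD : ∀ ω, ((ph c M (Y ω + z + z') - ph c M (Y ω + z) - ph c M (Y ω + z') +
      ph c M (Y ω) : ℝ) : ℂ) = ∑ a ∈ (Icc (-M : ℤ) M).erase 0, f a * ee ((a : ZMod N) * Y ω) :=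
    fun ω => by rw [hc.diff2, hf]
  have ha := h1 i
  have hb := h1 i'
  simp only [← hD] at h0 ha hb h2
  generalize (∑ a ∈ (Icc (-M : ℤ) M).erase 0, ‖f a‖) = A at h0 ha hb h2 hA hA0
  obtain ⟨D, hD'⟩ : ∃ D : Ω → ℝ, ∀ ω, ph c M (Y ω + z + z') - ph c M (Y ω + z) -
    ph c M (Y ω + z') + ph c M (Y ω) = D ω := ⟨_, fun _ => rfl⟩
  simp only [hD'] at h0 ha hb h2 ⊢
  simp only [← Complex.ofReal_mul, ← Complex.ofReal_sum, Complex.norm_real, Real.norm_eq_abs]
    at h0 ha hb h2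
  have h4 : ∑ ω, w ω * ((1 + l * gg (c 1) b i (Y ω)) * (1 + l * gg (c 1) b i' (Y ω)) * D ω) =
      ∑ ω, w ω * D ω + l * ∑ ω, w ω * (gg (c 1) b i (Y ω) * D ω) +
        l * ∑ ω, w ω * (gg (c 1) b i' (Y ω) * D ω) +
        l ^ 2 * ∑ ω, w ω * (gg (c 1) b i (Y ω) * gg (c 1) b i' (Y ω) * D ω) := by
    simp only [mul_sum, ← sum_add_distrib]
    exact sum_congr rfl fun ω _ => by ring
  rw [h4]
  calc _ ≤ A * τ + l * (A * (1 + τ * PP n b)) + l * (A * (1 + τ * PP n b)) +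
        l ^ 2 * (A * (6 + τ * (PP n b * PP n b))) := by
        refine (abs_add_le _ _).trans (add_le_add ((abs_add_le _ _).trans (add_le_add
          ((abs_add_le _ _).trans (add_le_add h0 ?_)) ?_)) ?_)
        · rw [abs_mul, abs_of_nonneg hl]
          exact mul_le_mul_of_nonneg_left ha hl
        · rw [abs_mul, abs_of_nonneg hl]
          exact mul_le_mul_of_nonneg_left hb hl
        · rw [abs_mul, abs_of_nonneg (sq_nonneg l)]
          exact mul_le_mul_of_nonneg_left h2 (sq_nonneg l)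
    _ = A * (2 * l + 6 * l ^ 2 + τ * (1 + l * PP n b) ^ 2) := by ring
    _ ≤ _ := mul_le_mul_of_nonneg_right hA (by positivity)

end Pool.Agent.Lib.MP_a01f70_lc.BA
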