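import Pool.Agent.Lib.MP_a01f70_lc.BA.OrdA
import Pool.Agent.Lib.MP_a01f70_lc.BA.OrdB
import Pool.Agent.Lib.MP_a01f70_lc.BA.Mom

/-! The clamped terms of first and second order. -/

set_option autoImplicit false
set_option linter.unusedSectionVars false

noncomputable section

namespace Pool.Agent.Lib.MP_a01f70_lc.BA

open Finset ZMod
open scoped ComplexConjugate

variable {N n : ℕ} [NeZero N] [NeZero n]

variable {Ω : Type} [Fintype Ω] {w : Ω → ℝ} {Y : Ω → ZMod N} {I : Set (ZMod N)} {τ μ : ℝ}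
  {c : ℤ → ℂ} {M : ℕ}

theorem GainA_mul {p a E D K : ℝ} (h : |p - a| ≤ E) (hD : |D| ≤ K) : a * D - K * E ≤ p * D := by
  have h1 : |(p - a) * D| ≤ E * K := by
    rw [abs_mul]
    exact mul_le_mul h hD (abs_nonneg _) ((abs_nonneg _).trans h)
  linarith [(abs_le.1 h1).1]

theorem GainA_sum {ι : Type} (S : Finset ι) (z : ι → ZMod N) :
    ‖ee (∑ i ∈ S, z i) - 1‖ ≤ ∑ i ∈ S, ‖ee (z i) - 1‖ := by
  classical
  induction S using Finset.induction_on with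
  | empty => simp
  | insert a S ha ih =>
    rw [sum_insert ha, sum_insert ha]
    exact (norm_ee_add _ _).trans (by linarith)

/-- `cl t Δ = Δ / 2 + (l / 2) g Δ + (cl t - (1 + t) / 2) Δ` with `t = l g`, `|Δ| ≤ 4` (`abs_ph`);
`ord1a`, `ord1b`, `cl_sub`, `mom6` (`norm_le` for `‖c 1‖ ≤ 1`). -/
theorem gain1 (hN : N + 1 = 2 ^ n) (h : Good w Y I τ) (hS : Sep I M) (hc : Mino c M μ)
    (b : ZMod N) (i : ZMod n) {l : ℝ} (hl : 0 ≤ l) :
    l / 2 * (‖c 1‖ ^ 2 * ‖ww b i‖ ^ 2 - er c b I M i) -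
        (τ * (2 * M) * (1 + l * PP n b) + 4 * l ^ 6 * (24 * VV n b ^ 3 + τ * PP n b ^ 6)) ≤
      ∑ ω, w ω * (cl (l * gg (c 1) b i (Y ω)) *
        (ph c M (Y ω + pw N i * b) - ph c M (Y ω))) := by
  have h1 := (abs_le.1 (ord1a h hS hc (pw N i * b))).1
  have h2 := mul_le_mul_of_nonneg_left (ord1b h hc b i) (div_nonneg hl zero_le_two)
  have h3 := mul_le_mul_of_nonneg_left (mom6 hN h hS (hc.norm_le one_ne_zero) b i)
    (by positivity : 0 ≤ 4 * l ^ 6)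
  have h4 : ∑ ω, (1 / 2 * (w ω * (ph c M (Y ω + pw N i * b) - ph c M (Y ω))) +
      l / 2 * (w ω * (gg (c 1) b i (Y ω) * (ph c M (Y ω + pw N i * b) - ph c M (Y ω)))) -
      4 * l ^ 6 * (w ω * gg (c 1) b i (Y ω) ^ 6)) ≤ ∑ ω, w ω * (cl (l * gg (c 1) b i (Y ω)) *
        (ph c M (Y ω + pw N i * b) - ph c M (Y ω))) := sum_le_sum fun ω _ => by
    have a1 := abs_le.1 (hc.abs_ph (Y ω + pw N i * b))
    have a2 := abs_le.1 (hc.abs_ph (Y ω))
    have a3 := GainA_mul (cl_sub (l * gg (c 1) b i (Y ω)))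
      (D := ph c M (Y ω + pw N i * b) - ph c M (Y ω)) (K := 4)
      (abs_le.2 ⟨by linarith, by linarith⟩)
    have a4 := mul_le_mul_of_nonneg_left a3 (h.nn ω)
    linarith
  rw [sum_sub_distrib, sum_add_distrib, ← mul_sum, ← mul_sum, ← mul_sum] at h4
  linarith

/-- `ord2` divided by four, `cl_mul_sub`, second differences are at most `8`, `mom6` twice. -/
theorem gain2 (hN : N + 1 = 2 ^ n) (hn : 3 ≤ n) (h : Good w Y I τ) (hS : Sep I M)
    (hc : Mino c M μ) (b z z' : ZMod N) (i i' : ZMod n) {l : ℝ} (hl : 0 ≤ l) :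
    -(2 * (1 + Real.log M) * (2 * l + 6 * l ^ 2 + τ * (1 + l * PP n b) ^ 2) +
        32 * l ^ 6 * (24 * VV n b ^ 3 + τ * PP n b ^ 6)) ≤
      ∑ ω, w ω * (cl (l * gg (c 1) b i (Y ω)) * cl (l * gg (c 1) b i' (Y ω)) *
        (ph c M (Y ω + z + z') - ph c M (Y ω + z) - ph c M (Y ω + z') + ph c M (Y ω))) := by
  have h1 := (abs_le.1 (ord2 hN hn h hS hc b z z' i i' hl)).1
  have h2 := mul_le_mul_of_nonneg_left (mom6 hN h hS (hc.norm_le one_ne_zero) b i)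
    (by positivity : 0 ≤ 16 * l ^ 6)
  have h3 := mul_le_mul_of_nonneg_left (mom6 hN h hS (hc.norm_le one_ne_zero) b i')
    (by positivity : 0 ≤ 16 * l ^ 6)
  have h4 : ∑ ω, (1 / 4 * (w ω * ((1 + l * gg (c 1) b i (Y ω)) * (1 + l * gg (c 1) b i' (Y ω)) *
      (ph c M (Y ω + z + z') - ph c M (Y ω + z) - ph c M (Y ω + z') + ph c M (Y ω)))) -
      16 * l ^ 6 * (w ω * gg (c 1) b i (Y ω) ^ 6) - 16 * l ^ 6 * (w ω * gg (c 1) b i' (Y ω) ^ 6)) ≤
      ∑ ω, w ω * (cl (l * gg (c 1) b i (Y ω)) * cl (l * gg (c 1) b i' (Y ω)) *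
        (ph c M (Y ω + z + z') - ph c M (Y ω + z) - ph c M (Y ω + z') + ph c M (Y ω))) :=
    sum_le_sum fun ω _ => by
      have a0 := abs_le.1 (hc.abs_ph (Y ω + z + z'))
      have a1 := abs_le.1 (hc.abs_ph (Y ω + z))
      have a2 := abs_le.1 (hc.abs_ph (Y ω + z'))
      have a5 := abs_le.1 (hc.abs_ph (Y ω))
      have a3 := GainA_mul (cl_mul_sub (l * gg (c 1) b i (Y ω)) (l * gg (c 1) b i' (Y ω)))
        (D := ph c M (Y ω + z + z') - ph c M (Y ω + z) - ph c M (Y ω + z') + ph c M (Y ω)) (K := 8)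
        (abs_le.2 ⟨by linarith, by linarith⟩)
      have a4 := mul_le_mul_of_nonneg_left a3 (h.nn ω)
      linarith
  rw [sum_sub_distrib, sum_sub_distrib, ← mul_sum, ← mul_sum, ← mul_sum] at h4
  linarith

/-- `Mino.lip` with `z = ∑ i ∈ W \ R', ..`; `‖ee (∑ z i) - 1‖ ≤ ∑ ‖ee (z i) - 1‖` (`norm_ee_add`,
induction); `i ↦ i + k` maps `W \ R'` injectively into `Rᶜ`. -/
theorem trunc (hc : Mino c M μ) (b : ZMod N) (k : ZMod n) (R : Finset (ZMod n)) {ε : ℝ}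
    (hR : ∑ i ∈ Rᶜ, ‖ww b i‖ ≤ ε) (y : ZMod N) (W : Finset (ZMod n)) :
    |ph c M (y + ∑ i ∈ W, pw N (i + k) * b) -
      ph c M (y + ∑ i ∈ W ∩ univ.filter (fun i => i + k ∈ R), pw N (i + k) * b)| ≤ 2 * M * ε := by
  rw [← sum_inter_add_sum_sdiff W (univ.filter fun i => i + k ∈ R), ← add_assoc]
  refine (hc.lip _ _).trans (mul_le_mul_of_nonneg_left ?_ (by positivity))
  refine (GainA_sum _ _).trans (le_trans ?_ hR)
  have e := sum_image (s := W \ univ.filter fun i => i + k ∈ R) (f := fun i => ‖ww b i‖)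
    (add_left_injective k).injOn
  refine e.symm.trans_le (sum_le_sum_of_subset_of_nonneg (fun i hi => ?_) fun _ _ _ => norm_nonneg _)
  obtain ⟨j, hj, rfl⟩ := mem_image.1 hi
  simpa using (mem_sdiff.1 hj).2

end Pool.Agent.Lib.MP_a01f70_lc.BA
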