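import Pool.Agent.Lib.MP_a01f70_lc.BA.Defs

/-! The link with the digit sum. -/

set_option autoImplicit false
set_option linter.unusedSectionVars false

noncomputable section

namespace Pool.Agent.Lib.MP_a01f70_lc.BA

open Finset ZMod
open scoped ComplexConjugate

variable {N n : ℕ} [NeZero N] [NeZero n]

theorem link_coe (P : Multiset ℕ) : ∑ x : P, 2 ^ (x : ℕ) = (P.map (2 ^ ·)).sum := by
  rw [← Multiset.map_univ P fun a : ℕ => 2 ^ a]
  rfl

theorem link_multiset (r g : ℕ → ℕ) (k : ℕ) : ∃ M : Multiset ℕ, M.card = ∑ i ∈ range k, r i ∧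
    (M.map (2 ^ ·)).sum = ∑ i ∈ range k, r i * 2 ^ g i := by
  induction k with
  | zero => exact ⟨0, by simp, by simp⟩
  | succ k ih =>
    obtain ⟨M, h1, h2⟩ := ih
    exact ⟨M + Multiset.replicate (r k) (g k), by simp [sum_range_succ, h1],
      by simp [sum_range_succ, h2]⟩

/-- `count_ge` with index type `Fin P.toList.length ⊕ Fin M.toList.length` (or `P.ToType ⊕
M.ToType`), `J = (1, 0)`, `R = (0, 1)`. -/
theorem dd_of_ab {F : Type} [Field F] [Fintype F] [Algebra (ZMod 2) F] {n d : ℕ} (hn : Odd n)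
    (hc : Fintype.card F = 2 ^ n) (h : ABF F n d) (hd : 0 < d) : DD n d := by
  intro P M h0 hdvd
  have h1 := count_ge hn hc h hd (κ := P ⊕ M) (Sum.elim (fun x => (x : ℕ)) fun x => (x : ℕ))
    (Sum.elim (fun _ => 1) fun _ => 0) (Sum.elim (fun _ => 0) fun _ => 1)
  simp only [Fintype.sum_sum_type, Sum.elim_inl, Sum.elim_inr, one_mul, zero_mul, sum_const_zero,
    add_zero, zero_add, link_coe, sum_const, card_univ, Multiset.card_coe, smul_eq_mul,
    mul_one] at h1
  exact h1 hdvd h0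

/-- Copy the proof of `SP.link` (file `SP/D.lean`): `u = d * x`, digits `c i = 1 - r i` of `u.val`,
`u.val + ∑ r i 2 ^ (n - 1 - i) = N`; apply `DD` to `P` and
`M = ((range n).filter (r · = 1)).val.map (n - 1 - ·)`, which is not empty since `u.val < N`. -/
theorem link (hN : N + 1 = 2 ^ n) {d : ℕ} (h : DD n d) (P : Multiset ℕ) :
    ∑ k : ZMod n, (SP.sg (pw N k * ((d : ZMod N) * (P.map (2 ^ ·)).sum)) : ℝ) ≤ 2 * P.card := by
  obtain ⟨u, hu⟩ : ∃ u : ZMod N, u = (d * (P.map (2 ^ ·)).sum : ℕ) := ⟨_, rfl⟩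
  have hu' : (d : ZMod N) * (P.map (2 ^ ·)).sum = u := by
    rw [hu, Nat.cast_mul, Nat.cast_multiset_sum, Multiset.map_map]
    simp
  rw [hu', sum_pw (n := n) fun y : ZMod N => (SP.sg (y * u) : ℝ)]
  obtain ⟨c, h1, h2⟩ := SP.digit hN u (fun x => (x.val : ℤ)) (by simp)
  have hN0 : (0 : ℤ) < N := Nat.cast_pos.2 (NeZero.pos N)
  have hNo : 2 ∣ N + 1 := hN ▸ dvd_pow_self 2 (NeZero.ne n)
  have h3 : ∀ i, ∃ r : ℕ, c i = 1 - r ∧ SP.sg (2 ^ i * u) = 1 - 2 * r := fun i => by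
    have a1 := h1 i
    have a2 := val_lt (2 ^ (i + 1) * u)
    have a3 := val_lt (2 ^ i * u)
    have a4 : c i < 2 := lt_of_mul_lt_mul_left (by omega) hN0.le
    have a5 : -1 < c i := lt_of_mul_lt_mul_left (by omega) hN0.le
    simp only [SP.sg, valMinAbs_nonneg_iff]
    rcases (by omega : c i = 0 ∨ c i = 1) with a | a <;> rw [a] at a1 ⊢
    · exact ⟨1, by simp, by rw [if_pos (by omega)]; simp⟩
    · exact ⟨0, by simp, by rw [if_neg (by omega)]; simp⟩
  choose r hr hs using h3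
  have h4 : ∑ i ∈ range n, (2 : ℤ) ^ (n - 1 - i) = N := by
    have h5 : (N : ℤ) + 1 = 2 ^ n := by exact_mod_cast hN
    rw [sum_range_reflect (fun i => (2 : ℤ) ^ i), ← one_mul (∑ _ ∈ _, _)]
    linarith [mul_geom_sum (2 : ℤ) n]
  have h5 : u.val + ∑ i ∈ range n, r i * 2 ^ (n - 1 - i) = N := by
    zify
    rw [h2, ← sum_add_distrib, ← h4]
    exact sum_congr rfl fun i _ => by rw [hr]; ring
  obtain ⟨M, m1, m2⟩ := link_multiset r (fun i => n - 1 - i) n
  have h6 := h P M (by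
      refine Nat.add_pos_right _ (Nat.pos_of_ne_zero fun h0 => ?_)
      rw [m1, sum_eq_zero_iff] at h0
      rw [sum_eq_zero fun i hi => by rw [h0 i hi, zero_mul]] at h5
      exact (val_lt u).ne h5) (by
      rw [m2, ← hN, Nat.add_sub_cancel, ← natCast_eq_zero_iff, Nat.cast_add, ← hu]
      have := congrArg (Nat.cast : ℕ → ZMod N) h5
      rwa [Nat.cast_add, natCast_zmod_val, natCast_self] at this)
  rw [m1] at h6
  have h9 := (Nat.cast_le (α := ℝ)).2 h6.le
  simp only [hs]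
  push_cast at h9 ⊢
  rw [sum_sub_distrib, ← mul_sum, sum_const, card_range, nsmul_eq_mul]
  linarith

end Pool.Agent.Lib.MP_a01f70_lc.BA
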