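import Pool.Agent.Lib.MP_a01f70_lc.BA.Defs
import Pool.Agent.Lib.MP_a01f70_lc.BA.FejK

/-! The minorant of the sign of the top digit. -/

set_option autoImplicit false
set_option linter.unusedSectionVars false

noncomputable section

namespace Pool.Agent.Lib.MP_a01f70_lc.BA

open Finset ZMod
open scoped ComplexConjugate

variable {N n : ℕ} [NeZero N] [NeZero n]

/-- From `exists_fej`: `c' a = 2 * c a - if a = 0 then 1 + μ / 2 else 0`, so that
`phR c' M x = 2 * K x - 1 - μ / 2`, `c' 0 = -μ`, `‖c' 1‖ ≥ 2 / π - μ ≥ 1 / 2`. -/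
theorem exists_mino {μ : ℝ} (h0 : 0 < μ) (h1 : μ ≤ 1 / 16) :
    ∃ (M : ℕ) (c : ℤ → ℂ), M * μ ^ 3 ≤ 33 ∧ Mino c M μ := by
  obtain ⟨M, c, K, hM, hM1, hK, k0, k1, k2, c0, cj, dec, c1, ev⟩ := exists_fej h0 h1
  have hpi := Real.pi_gt_three
  have e : ∀ x, phR (fun a => 2 * c a - if a = 0 then ((1 + μ / 2 : ℝ) : ℂ) else 0) M x =
      2 * K x - 1 - μ / 2 := fun x => by
    have e1 : ∀ a : ℤ, Complex.exp (2 * Real.pi * Complex.I * a * x) = ex (a * x) := fun a => by
      rw [ex]
      push_cast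
      ring_nf
    have e2 : ex 0 = 1 := by simp [ex]
    simp only [phR, e1]
    simp only [sub_mul, sum_sub_distrib, mul_assoc, ← mul_sum, ← hK, ite_mul, zero_mul]
    rw [sum_ite_eq', if_pos (by simp)]
    simp [e2]
    ring
  refine ⟨M, fun a => 2 * c a - if a = 0 then ((1 + μ / 2 : ℝ) : ℂ) else 0, hM, hM1, fun a => ?_,
    fun a ha => ?_, fun a ha => ?_, ?_, fun x => ?_, fun x => ?_, fun x a b => ?_⟩
  · simp only [cj, neg_eq_zero, map_sub, map_mul, map_ofNat]
    split_ifs
    · rw [Complex.conj_ofReal]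
    · rw [map_zero]
  · have h2 : (0 : ℝ) < |(a : ℝ)| := abs_pos.2 (Int.cast_ne_zero.2 ha)
    simp only [if_neg ha, sub_zero, norm_mul, Complex.norm_ofNat]
    refine (mul_le_mul_of_nonneg_left (dec a ha) zero_le_two).trans ?_
    rw [mul_one_div, div_le_div_iff₀ (by positivity) h2]
    nlinarith
  · by_cases h : a = 0
    · have e3 : 2 * c a - ((1 + μ / 2 : ℝ) : ℂ) = ((-μ : ℝ) : ℂ) := by
        rw [h, c0]
        push_cast
        ring
      simp only [if_pos h, e3, Complex.norm_real, Real.norm_eq_abs, abs_neg, abs_of_pos h0, le_refl]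
    · simp only [if_neg h, sub_zero, norm_mul, Complex.norm_ofNat]
      linarith [ev a h ha]
  · have h2 := norm_sub_norm_le (Complex.I / Real.pi) (c 1)
    rw [norm_sub_rev, norm_div, Complex.norm_I, Complex.norm_real, Real.norm_eq_abs,
      abs_of_pos Real.pi_pos] at h2
    have h3 : (5 / 16 : ℝ) ≤ 1 / Real.pi := by
      rw [le_div_iff₀ Real.pi_pos]
      linarith [Real.pi_lt_d2]
    simp only [one_ne_zero, if_false, sub_zero, norm_mul, Complex.norm_ofNat]
    linarith
  · rw [e, abs_le]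
    constructor <;> linarith [k0 x, k1 x]
  · rw [e]
    linarith [k1 x]
  · rw [e]
    linarith [k2 x a b]

end Pool.Agent.Lib.MP_a01f70_lc.BA
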