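import Pool.Agent.Lib.MP_a01f70_lc.BA.Defs

/-! The choice of the parameters. -/

set_option autoImplicit false
set_option linter.unusedSectionVars false

noncomputable section

namespace Pool.Agent.Lib.MP_a01f70_lc.BA

open Finset ZMod
open scoped ComplexConjugate

variable {N n : ℕ} [NeZero N] [NeZero n]

/-- The normalized error. -/
def ParG (X t m a e v p ρ : ℝ) : ℝ :=
  3 + 2 * t * m * X ^ 1036 + 2 * m * e * X ^ 536 + e * X ^ 1119 / 4 + 2 ^ 40 * p * X ^ 115 +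
    ρ * (2 * t * m * (X ^ 1075 + p * X ^ 1030) + 4 * (24 * v ^ 3 * X ^ 13 + t * p ^ 6 * X ^ 1153)) +
    ρ ^ 2 * (2 * a * (2 * X ^ 36 + 6 * X ^ 111 + t * (X ^ 45 + p) ^ 2 * X ^ 1371) +
      32 * (24 * v ^ 3 * X ^ 52 + t * p ^ 6 * X ^ 1192)) + 7 * ρ ^ 3 * X + 1400 * X ^ 44

theorem Par_mono {x t m a e v p ρ : ℝ} (x0 : 0 ≤ x) (x1 : x ≤ 1) (t0 : 0 ≤ t) (t1 : t ≤ 1)
    (m0 : 0 ≤ m) (m1 : m ≤ 33) (a0 : 0 ≤ a) (a1 : a ≤ 400) (e0 : 0 ≤ e) (e1 : e ≤ 1) (v0 : 0 ≤ v)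
    (v1 : v ≤ 56) (p0 : 0 ≤ p) (p1 : p ≤ 28) (r0 : 0 ≤ ρ) (r1 : ρ ≤ 2) :
    ParG x t m a e v p ρ ≤ ParG 1 1 33 400 1 56 28 2 := by
  unfold ParG
  gcongr

theorem Par_eq {x : ℝ} (hx : x ≠ 0) (τ M A ε V P r : ℝ) :
    LB (x ^ 116) τ M A ε (x ^ 160) (x ^ 75) V P r - 2 * (x ^ 116 + 700 * x ^ 160) =
      x ^ 115 * (V * x ^ 120 / 8 - 12 / 2 ^ 20 * (P * x ^ 120) - x * ParG x (τ / x ^ 1500)
        (M * x ^ 348) (A * x) (ε / x ^ 1000) (V * x ^ 120) (P * x ^ 120) (r * x ^ 121)) := by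
  obtain ⟨t, rfl⟩ : ∃ t, τ = t * x ^ 1500 := ⟨τ / x ^ 1500, (div_mul_cancel₀ _ (pow_ne_zero _ hx)).symm⟩
  obtain ⟨e, rfl⟩ : ∃ e, ε = e * x ^ 1000 := ⟨ε / x ^ 1000, (div_mul_cancel₀ _ (pow_ne_zero _ hx)).symm⟩
  rw [mul_div_cancel_right₀ _ (pow_ne_zero _ hx), mul_div_cancel_right₀ _ (pow_ne_zero _ hx)]
  unfold LB ParG
  ring

/-- The main term is `q l V / 8 ≥ x ^ 115 / 16`; the term with `24 / 2 ^ 20` is at most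
`x ^ 115 / 1000`; every other term is at most a constant times `x ^ 116` (write `V = v / x ^ 120`,
`P = p / x ^ 120`, `r = ρ / x ^ 121`, `M = m / x ^ 348`, `A = a / x`, or bound products directly:
`q r ≤ 2 x ^ 39`, `τ M ≤ 33 x ^ 1152`, `l P x ^ 45 ≤ 28`, `l ^ 2 V ≤ 56 x ^ 30`,
`l ^ 6 τ P ^ 6 ≤ 28 ^ 6 x ^ 1230`). -/
theorem num : ∃ x₀ : ℝ, 0 < x₀ ∧ ∀ x τ M A ε V P r : ℝ, 0 < x → x ≤ x₀ → 0 ≤ τ → τ ≤ x ^ 1500 →
    0 ≤ M → M * x ^ 348 ≤ 33 → 0 ≤ A → A * x ≤ 400 → 0 ≤ ε → ε ≤ x ^ 1000 →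
    1 / 2 ≤ V * x ^ 120 → V ≤ 2 * P → P * x ^ 120 ≤ 28 → 0 ≤ r → r * x ^ 121 ≤ 2 →
    2 * (x ^ 116 + 700 * x ^ 160) < LB (x ^ 116) τ M A ε (x ^ 160) (x ^ 75) V P r := by
  obtain ⟨K, hK⟩ : ∃ K, K = ParG 1 1 33 400 1 56 28 2 := ⟨_, rfl⟩
  refine ⟨min 1 (1 / (20 * (|K| + 1))), by positivity,
    fun x τ M A ε V P r hx hx0 t0 t1 m0 m1 a0 a1 e0 e1 v0 v1 p1 r0 r1 => ?_⟩
  have hx1 : x ≤ 1 := hx0.trans (min_le_left _ _)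
  have hp := fun k : ℕ => pow_pos hx k
  have v2 : V * x ^ 120 ≤ 2 * (P * x ^ 120) := by
    rw [← mul_assoc]
    exact mul_le_mul_of_nonneg_right v1 (hp _).le
  have hG := Par_mono hx.le hx1 (div_nonneg t0 (hp _).le) ((div_le_one (hp _)).2 t1)
    (mul_nonneg m0 (hp _).le) m1 (mul_nonneg a0 hx.le) a1 (div_nonneg e0 (hp _).le)
    ((div_le_one (hp _)).2 e1) (v := V * x ^ 120) (by linarith) (by linarith) (by linarith) p1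
    (mul_nonneg r0 (hp _).le) r1
  have h1 : x * (|K| + 1) ≤ 1 / 20 := by
    have h2 := hx0.trans (min_le_right _ _)
    rw [le_div_iff₀ (by positivity)] at h2
    linarith
  have h2 := mul_le_mul_of_nonneg_left (hG.trans (hK.ge.trans (le_abs_self K))) hx.le
  rw [← sub_pos, Par_eq hx.ne']
  exact mul_pos (hp _) (by linarith)

end Pool.Agent.Lib.MP_a01f70_lc.BA
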