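import Pool.Agent.Lib.MP_a01f70_lc.BA.Defs

/-! Elementary bounds for the parameters. -/

set_option autoImplicit false
set_option linter.unusedSectionVars false

noncomputable section

namespace Pool.Agent.Lib.MP_a01f70_lc.BA

open Finset ZMod
open scoped ComplexConjugate

variable {N n : ℕ} [NeZero N] [NeZero n]

/-- `tendsto_pow_const_div_const_pow_of_one_lt`; `2 ^ B ≤ exp B ≤ exp (B ^ 2 / 4)` for `4 ≤ B`;
`(1 + 1 / B) ^ 120 ≤ exp (120 / B) ≤ 2`. -/
theorem large : ∃ B₀ : ℕ, ∀ B : ℕ, B₀ ≤ B → 701 ≤ B ∧ (B : ℝ) ^ 1500 ≤ 2 ^ B ∧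
    (B : ℝ) ^ 1500 ≤ Real.exp ((B : ℝ) ^ 2 / 4) ∧ (B + 1) ^ 120 ≤ 2 * B ^ 120 := by
  have h := tendsto_pow_const_div_const_pow_of_one_lt 1500 (r := 2) (by norm_num)
  obtain ⟨B₁, hB₁⟩ := Filter.eventually_atTop.1 (h.eventually (gt_mem_nhds zero_lt_one))
  refine ⟨max B₁ 701, fun B hB => ?_⟩
  have h1 : 701 ≤ B := (le_max_right _ _).trans hB
  have h1' : (701 : ℝ) ≤ B := by exact_mod_cast h1
  have h2 : (B : ℝ) ^ 1500 ≤ 2 ^ B := by
    have h3 := hB₁ B ((le_max_left _ _).trans hB)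
    rw [div_lt_one (by positivity)] at h3
    exact h3.le
  refine ⟨h1, h2, h2.trans ?_, ?_⟩
  · have h3 : (2 : ℝ) ≤ Real.exp 1 := by
      have := Real.add_one_le_exp 1
      linarith
    calc (2 : ℝ) ^ B ≤ Real.exp 1 ^ B := pow_le_pow_left₀ (by norm_num) h3 B
      _ = Real.exp B := by rw [← Real.exp_nat_mul, mul_one]
      _ ≤ _ := Real.exp_le_exp.2 (by nlinarith)
  · have h3 : 701 * (B + 1) ≤ 702 * B := by omega
    have h4 : (701 * (B + 1)) ^ 120 ≤ (702 * B) ^ 120 := Nat.pow_le_pow_left h3 120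
    have h5 : 702 ^ 120 ≤ 701 ^ 120 * 2 := by norm_num
    rw [mul_pow, mul_pow] at h4
    have h6 : 701 ^ 120 * (B + 1) ^ 120 ≤ 701 ^ 120 * (2 * B ^ 120) :=
      h4.trans (by rw [← mul_assoc]; exact Nat.mul_le_mul_right _ h5)
    exact Nat.le_of_mul_le_mul_left h6 (by positivity)

/-- `log M ≤ log 33 + 348 log B ≤ 32 + 348 B`. -/
theorem log_le {M B : ℕ} (hM : 1 ≤ M) (hB : 1 ≤ B) (h : M ≤ 33 * B ^ 348) :
    1 + Real.log M ≤ 400 * B := by
  have hB' : (1 : ℝ) ≤ B := by exact_mod_cast hB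
  have hM' : (0 : ℝ) < M := by exact_mod_cast hM
  have h' : (M : ℝ) ≤ 33 * (B : ℝ) ^ 348 := by exact_mod_cast h
  have h1 := Real.log_le_log hM' h'
  rw [Real.log_mul (by norm_num) (by positivity), Real.log_pow] at h1
  have h2 := Real.log_le_sub_one_of_pos (x := 33) (by norm_num)
  have h3 := Real.log_le_sub_one_of_pos (x := B) (by positivity)
  push_cast at h1
  linarith

theorem exists_root (s : ℕ) : ∃ B : ℕ, B ^ 120 ≤ s ∧ s < (B + 1) ^ 120 := by
  induction s with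
  | zero => exact ⟨0, by norm_num, by norm_num⟩
  | succ s ih =>
    obtain ⟨B, h1, h2⟩ := ih
    rcases lt_or_ge (s + 1) ((B + 1) ^ 120) with h | h
    · exact ⟨B, by omega, h⟩
    · have h3 : (B + 1) ^ 120 < (B + 1 + 1) ^ 120 :=
        Nat.pow_lt_pow_left (by omega) (by norm_num)
      exact ⟨B + 1, h, by omega⟩

end Pool.Agent.Lib.MP_a01f70_lc.BA
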