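import Pool.Agent.Lib.MP_a01f70_lc.BA.Defs

/-! The relevant sites of a sparse element. -/

set_option autoImplicit false
set_option linter.unusedSectionVars false

noncomputable section

namespace Pool.Agent.Lib.MP_a01f70_lc.BA

open Finset ZMod
open scoped ComplexConjugate

variable {N n : ℕ} [NeZero N] [NeZero n]

/-- `ee (2 ^ v) = exp (2 π i 2 ^ v / N)` (`stdAddChar_coe`), `‖exp (i t) - 1‖ ≤ |t|`
(`Complex.norm_exp_I_mul_ofReal_sub_one_le`). -/
theorem norm_ee_pw (j : ZMod n) : ‖ee (pw N j) - 1‖ ≤ 7 * 2 ^ j.val / N := by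
  have h1 : pw N j = (((2 ^ j.val : ℕ) : ℤ) : ZMod N) := by simp [pw]
  have hN : (0 : ℝ) < N := by exact_mod_cast Nat.pos_of_ne_zero (NeZero.ne N)
  have h2 : ee (pw N j) = Complex.exp (Complex.I * ((2 * Real.pi * 2 ^ j.val / N : ℝ) : ℂ)) := by
    rw [h1, ee, stdAddChar_coe]
    congr 1
    push_cast
    ring
  rw [h2]
  refine Real.norm_exp_I_mul_ofReal_sub_one_le.trans ?_
  rw [Real.norm_of_nonneg (by positivity)]
  refine div_le_div_of_nonneg_right ?_ hN.le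
  refine mul_le_mul_of_nonneg_right ?_ (by positivity)
  linarith [Real.pi_lt_d2]

theorem rel_geom (m : ℕ) : ∑ v ∈ range m, (2 : ℝ) ^ v = 2 ^ m - 1 := by
  induction m with
  | zero => simp
  | succ m ih => rw [sum_range_succ, ih]; ring

/-- One power of two: `R = {i : n ≤ (i + e).val + L}` has at most `L` elements (the map
`i ↦ n - 1 - (i + e).val` is injective into `range L`), and outside it the sum is at most
`7 / N * ∑_{v + L < n} 2 ^ v ≤ 7 * 2 ^ (n - L) / N ≤ 14 / 2 ^ L` (`2 ^ n ≤ 2 N`). -/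
theorem rel_one (hN : N + 1 = 2 ^ n) (L : ℕ) (e : ZMod n) :
    ∃ R : Finset (ZMod n), R.card ≤ L ∧ ∑ i ∈ Rᶜ, ‖ww (pw N e) i‖ ≤ 14 / 2 ^ L := by
  classical
  refine ⟨univ.filter fun i => n ≤ (i + e).val + L, ?_, ?_⟩
  · refine le_trans (card_le_card_of_injOn (t := range L) (fun i => n - 1 - (i + e).val) ?_ ?_)
      (card_range L).le
    · intro i hi
      have h1 := (mem_filter.1 (mem_coe.1 hi)).2
      have h2 := val_lt (i + e)
      simp only [coe_range, Set.mem_Iio]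
      omega
    · intro i _ j _ hij
      have h1 := val_lt (i + e)
      have h2 := val_lt (j + e)
      have h3 : (i + e).val = (j + e).val := by
        simp only at hij
        omega
      exact add_right_cancel (val_injective n h3)
  · have hN0 : (0 : ℝ) < N := by exact_mod_cast Nat.pos_of_ne_zero (NeZero.ne N)
    have h1 : ∑ i ∈ (univ.filter fun i : ZMod n => n ≤ (i + e).val + L)ᶜ, ‖ww (pw N e) i‖ ≤
        ∑ i ∈ (univ.filter fun i : ZMod n => n ≤ (i + e).val + L)ᶜ,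
          (7 * 2 ^ (i + e).val / N : ℝ) := by
      refine sum_le_sum fun i _ => ?_
      rw [ww, ← pw_add hN]
      exact norm_ee_pw _
    have hinj : Set.InjOn (fun i : ZMod n => (i + e).val)
        ((univ.filter fun i : ZMod n => n ≤ (i + e).val + L)ᶜ : Finset (ZMod n)) :=
      fun i _ j _ hij => add_right_cancel (val_injective n hij)
    have h2 : ∑ i ∈ (univ.filter fun i : ZMod n => n ≤ (i + e).val + L)ᶜ,
        (7 * 2 ^ (i + e).val / N : ℝ) ≤ ∑ v ∈ range (n - L), (7 * 2 ^ v / N : ℝ) := by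
      rw [← sum_image (f := fun v : ℕ => (7 * 2 ^ v / N : ℝ)) hinj]
      refine sum_le_sum_of_subset_of_nonneg ?_ fun _ _ _ => by positivity
      intro v hv
      obtain ⟨i, hi, rfl⟩ := mem_image.1 hv
      simp only [mem_compl, mem_filter, mem_univ, true_and, not_le] at hi
      exact mem_range.2 (by omega)
    refine h1.trans (h2.trans ?_)
    rw [← sum_div, ← mul_sum, rel_geom]
    have h3 : (2 : ℝ) ^ n ≤ 2 * N := by
      have h4 : 2 ^ n ≤ 2 * N := by
        have := Nat.pos_of_ne_zero (NeZero.ne N)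
        omega
      exact_mod_cast h4
    rcases le_or_gt n L with h | h
    · rw [Nat.sub_eq_zero_of_le h]
      simp only [pow_zero, sub_self, mul_zero, zero_div]
      positivity
    · have h4 : (2 : ℝ) ^ (n - L) * 2 ^ L = 2 ^ n := by
        rw [← pow_add, Nat.sub_add_cancel h.le]
      have h5 : (0 : ℝ) < 2 ^ L := by positivity
      rw [div_le_div_iff₀ hN0 h5]
      nlinarith

theorem rel_add {b b' : ZMod N} {k k' : ℕ} {x x' : ℝ}
    (h : ∃ R : Finset (ZMod n), R.card ≤ k ∧ ∑ i ∈ Rᶜ, ‖ww b i‖ ≤ x)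
    (h' : ∃ R : Finset (ZMod n), R.card ≤ k' ∧ ∑ i ∈ Rᶜ, ‖ww b' i‖ ≤ x') :
    ∃ R : Finset (ZMod n), R.card ≤ k + k' ∧ ∑ i ∈ Rᶜ, ‖ww (b + b') i‖ ≤ x + x' := by
  obtain ⟨R, h1, h2⟩ := h
  obtain ⟨R', h1', h2'⟩ := h'
  refine ⟨R ∪ R', (card_union_le _ _).trans (add_le_add h1 h1'), ?_⟩
  have h3 : ∑ i ∈ (R ∪ R')ᶜ, ‖ww (b + b') i‖ ≤
      ∑ i ∈ (R ∪ R')ᶜ, ‖ww b i‖ + ∑ i ∈ (R ∪ R')ᶜ, ‖ww b' i‖ := by
    rw [← sum_add_distrib]
    refine sum_le_sum fun i _ => ?_
    simp only [ww, mul_add]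
    exact norm_ee_add _ _
  refine h3.trans (add_le_add (le_trans ?_ h2) (le_trans ?_ h2'))
  · exact sum_le_sum_of_subset_of_nonneg (compl_subset_compl.2 subset_union_left)
      fun _ _ _ => norm_nonneg _
  · exact sum_le_sum_of_subset_of_nonneg (compl_subset_compl.2 subset_union_right)
      fun _ _ _ => norm_nonneg _

theorem rel_neg {b : ZMod N} {k : ℕ} {x : ℝ}
    (h : ∃ R : Finset (ZMod n), R.card ≤ k ∧ ∑ i ∈ Rᶜ, ‖ww b i‖ ≤ x) :
    ∃ R : Finset (ZMod n), R.card ≤ k ∧ ∑ i ∈ Rᶜ, ‖ww (-b) i‖ ≤ x := by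
  obtain ⟨R, h1, h2⟩ := h
  refine ⟨R, h1, le_trans (le_of_eq (sum_congr rfl fun i _ => ?_)) h2⟩
  simp only [ww, mul_neg]
  exact norm_ee_neg _

theorem rel_ms (hN : N + 1 = 2 ^ n) (L : ℕ) (P : Multiset ℕ) :
    ∃ R : Finset (ZMod n), R.card ≤ P.card * L ∧
      ∑ i ∈ Rᶜ, ‖ww ((P.map ((2 : ZMod N) ^ ·)).sum) i‖ ≤ 14 * P.card / 2 ^ L := by
  induction P using Multiset.induction_on with
  | empty => exact ⟨∅, by simp, by simp [ww]⟩
  | cons a P ih =>
    have h1 := rel_one hN L (a : ZMod n)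
    rw [pw_nat hN] at h1
    obtain ⟨R, h2, h3⟩ := rel_add h1 ih
    refine ⟨R, h2.trans (le_of_eq ?_), ?_⟩
    · rw [Multiset.card_cons]
      ring
    · rw [Multiset.map_cons, Multiset.sum_cons, Multiset.card_cons]
      refine h3.trans (le_of_eq ?_)
      push_cast
      ring

/-- Induction on the two multisets: the property is stable under `b ↦ b ± 2 ^ e` (union of the
sets, `norm_ee_add`, `norm_ee_neg`, `pw_nat`). -/
theorem rel (hN : N + 1 = 2 ^ n) (L : ℕ) {s : ℕ} {b : ZMod N} (h : Wt s b) :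
    ∃ R : Finset (ZMod n), R.card ≤ s * L ∧ ∑ i ∈ Rᶜ, ‖ww b i‖ ≤ 14 * s / 2 ^ L := by
  obtain ⟨P, M, h1, rfl⟩ := h
  obtain ⟨R, hR, hR'⟩ := rel_add (rel_ms hN L P) (rel_neg (rel_ms hN L M))
  refine ⟨R, hR.trans ?_, ?_⟩
  · rw [← add_mul]
    exact Nat.mul_le_mul_right _ h1
  · rw [sub_eq_add_neg]
    refine hR'.trans ?_
    rw [← add_div, ← mul_add]
    refine div_le_div_of_nonneg_right ?_ (by positivity)
    refine mul_le_mul_of_nonneg_left ?_ (by norm_num)
    exact_mod_cast h1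

/-- The case `L = 0` of `rel`. -/
theorem PP_le (hN : N + 1 = 2 ^ n) {s : ℕ} {b : ZMod N} (h : Wt s b) : PP n b ≤ 14 * s := by
  obtain ⟨R, hR, hR'⟩ := rel hN 0 h
  have h0 : R = ∅ := card_eq_zero.1 (by simpa using hR)
  subst h0
  simpa [PP] using hR'

end Pool.Agent.Lib.MP_a01f70_lc.BA
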