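import Pool.Agent.Lib.MP_a01f70_lc.BA.Test
import Pool.Agent.Lib.MP_a01f70_lc.BA.Bern
import Pool.Agent.Lib.MP_a01f70_lc.BA.Link

/-! The upper bound given by the divisibility property. -/

set_option autoImplicit false
set_option linter.unusedSectionVars false

noncomputable section

namespace Pool.Agent.Lib.MP_a01f70_lc.BA

open Finset ZMod
open scoped ComplexConjugate

variable {N n : ℕ} [NeZero N] [NeZero n]

variable {μ : ℝ} {c : ℤ → ℂ} {M d T : ℕ}

theorem upper_sum {f : ZMod n → ZMod N} (s : Finset (ZMod n))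
    (h : ∀ i, ∃ R : Multiset ℕ, R.card ≤ T ∧ f i = (R.map (2 ^ ·)).sum) :
    ∃ R : Multiset ℕ, R.card ≤ T * s.card ∧ ∑ i ∈ s, f i = (R.map (2 ^ ·)).sum := by
  induction s using Finset.induction_on with
  | empty => exact ⟨0, by simp, by simp⟩
  | insert a s ha ih =>
    obtain ⟨R, h1, h2⟩ := ih
    obtain ⟨R', h3, h4⟩ := h a
    refine ⟨R' + R, ?_, by rw [sum_insert ha, Multiset.map_add, Multiset.sum_add, h2, h4]⟩
    rw [Multiset.card_add, card_insert_of_notMem ha, mul_add, mul_one]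
    omega

theorem upper_mul (i : ZMod n) (Q : Multiset ℕ) :
    pw N i * (Q.map (2 ^ ·)).sum = ((Q.map (i.val + ·)).map (2 ^ ·)).sum := by
  rw [Multiset.map_map, ← Multiset.sum_map_mul_left]
  simp only [Function.comp_def, pow_add, pw]

/-- `link` for the multiset `β.val.map val + (σ \ W).val.bind (fun i => Q.map (· + i.val)) +
W.val.bind (fun i => P.map (· + i.val))`, which has at most `|β| + T |σ|` elements and whose sum
of powers is `∑_β pw i + ∑_σ pw i * Q' + ∑_W pw i * (P' - Q')`; `ph_le`, `pw_add`. -/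
theorem upper_pt (hN : N + 1 = 2 ^ n) (hd : DD n d) (hc : Mino c M μ) (P Q : Multiset ℕ)
    (hT : P.card + Q.card ≤ T) (β : Finset (ZMod n)) {σ W : Finset (ZMod n)} (hW : W ⊆ σ) :
    ∑ k : ZMod n, ph c M (pw N k * ((d : ZMod N) * ∑ i ∈ β, pw N i +
        (d : ZMod N) * ∑ i ∈ σ, pw N i * (Q.map (2 ^ ·)).sum) +
      ∑ i ∈ W, pw N (i + k) * (((P.map (2 ^ ·)).sum - (Q.map (2 ^ ·)).sum) * d)) ≤
      2 * (β.card + T * σ.card) := by
  obtain ⟨R, h1, h2⟩ := upper_sum (T := 1) (f := pw N) β fun i => ⟨{i.val}, by simp, by simp [pw]⟩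
  obtain ⟨R', h3, h4⟩ := upper_sum (T := T)
    (f := fun i => pw N i * ((if i ∈ W then P else Q).map (2 ^ ·)).sum) σ fun i =>
      ⟨_, by rw [Multiset.card_map]; split_ifs <;> omega, upper_mul i _⟩
  have h5 : ∑ i ∈ σ, pw N i * (Q.map (2 ^ ·)).sum +
      ∑ i ∈ W, pw N i * ((P.map (2 ^ ·)).sum - (Q.map (2 ^ ·)).sum) = (R'.map (2 ^ ·)).sum := by
    rw [← h4, ← sum_ite_mem_eq, ← sum_ite_mem_eq σ, ← sum_ite_mem_eq W, ← sum_add_distrib]
    refine sum_congr rfl fun i _ => ?_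
    by_cases h : i ∈ W
    · simp only [h, hW h, if_true]
      ring
    · simp only [h, if_false, add_zero]
  refine le_trans (sum_le_sum fun k _ => (hc.ph_le _).trans_eq ?_) ((link hN hd (R + R')).trans ?_)
  · rw [Multiset.map_add, Multiset.sum_add, ← h2, ← h5]
    congr 2
    simp only [pw_add hN]
    rw [← sum_mul W, ← sum_mul W, ← sum_mul W]
    ring
  · rw [Multiset.card_add]
    exact_mod_cast (by omega : 2 * (R.card + R'.card) ≤ 2 * (β.card + T * σ.card))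

/-- Move the sum over `k` inside; `upper_pt` if `W ⊆ σ`, `bw_eq_zero` otherwise; `sum_bw`,
`sum_bw_card`. -/
theorem upper (hN : N + 1 = 2 ^ n) (hd : DD n d) (hc : Mino c M μ) (P Q : Multiset ℕ)
    (hT : P.card + Q.card ≤ T) {ρ q : ℝ} (hρ0 : 0 ≤ ρ) (hρ1 : ρ ≤ 1) (hq0 : 0 ≤ q) (hq1 : q ≤ 1)
    (p : Finset (ZMod n) → Finset (ZMod n) → ZMod n → ℝ) (h0 : ∀ σ β i, 0 ≤ p σ β i)
    (h1 : ∀ σ β i, p σ β i ≤ 1) :
    ∑ k : ZMod n, ∑ σ, bw (fun _ : ZMod n => q) σ * ∑ β, bw (fun _ : ZMod n => ρ) β *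
      ∑ W, bw (fun i => if i ∈ σ then p σ β i else 0) W *
        ph c M (pw N k * ((d : ZMod N) * ∑ i ∈ β, pw N i +
            (d : ZMod N) * ∑ i ∈ σ, pw N i * (Q.map (2 ^ ·)).sum) +
          ∑ i ∈ W, pw N (i + k) * (((P.map (2 ^ ·)).sum - (Q.map (2 ^ ·)).sum) * d)) ≤
      n * (2 * (ρ + T * q)) := by
  have key : ∀ (t a b : ℝ), ∑ σ, bw (fun _ : ZMod n => t) σ * (a + b * σ.card) = a + b * (n * t) :=
    fun t a b => by
      simp only [mul_add, sum_add_distrib, mul_left_comm _ b]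
      rw [← sum_mul, ← mul_sum, sum_bw, sum_bw_card, one_mul, sum_const, card_univ, ZMod.card,
        nsmul_eq_mul]
  rw [sum_comm, show (n : ℝ) * (2 * (ρ + T * q)) = 2 * (n * ρ) + 2 * T * (n * q) by ring, ← key]
  refine sum_le_sum fun σ _ => ?_
  rw [← mul_sum]
  refine mul_le_mul_of_nonneg_left ?_ (bw_nonneg (fun _ => hq0) (fun _ => hq1) σ)
  rw [sum_comm, add_comm (2 * (n * ρ)), ← key]
  refine sum_le_sum fun β _ => ?_
  rw [← mul_sum]
  refine mul_le_mul_of_nonneg_left ?_ (bw_nonneg (fun _ => hρ0) (fun _ => hρ1) β)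
  rw [sum_comm, ← one_mul (2 * (T : ℝ) * σ.card + 2 * β.card),
    ← sum_bw fun i => if i ∈ σ then p σ β i else 0, sum_mul]
  refine sum_le_sum fun W _ => ?_
  rw [← mul_sum]
  by_cases hW : W ⊆ σ
  · refine mul_le_mul_of_nonneg_left ((upper_pt hN hd hc P Q hT β hW).trans_eq (by ring))
      (bw_nonneg (fun i => ?_) (fun i => ?_) W)
    · split_ifs
      exacts [h0 _ _ _, le_rfl]
    · split_ifs
      exacts [h1 _ _ _, zero_le_one]
  · rw [bw_eq_zero _ hW, zero_mul, zero_mul]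

end Pool.Agent.Lib.MP_a01f70_lc.BA
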