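import Pool.Agent.Lib.MP_a01f70_lc.BA.Gain
import Pool.Agent.Lib.MP_a01f70_lc.BA.Upper
import Pool.Agent.Lib.MP_a01f70_lc.BA.Par
import Pool.Agent.Lib.MP_a01f70_lc.BA.ParB
import Pool.Agent.Lib.MP_a01f70_lc.BA.Azero
import Pool.Agent.Lib.MP_a01f70_lc.BA.Mino
import Pool.Agent.Lib.MP_a01f70_lc.BA.Rel
import Pool.Agent.Lib.MP_a01f70_lc.BA.BernB

/-! The bounded relation. -/

set_option autoImplicit false
set_option linter.unusedSectionVars false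

noncomputable section

namespace Pool.Agent.Lib.MP_a01f70_lc.BA

open Finset ZMod
open scoped ComplexConjugate

variable {N n : ℕ} [NeZero N] [NeZero n]

/-- Sum `gain` over `k` (`good_bw`, `gg_shift`) and compare with `upper`. -/
theorem LB_le (hN : N + 1 = 2 ^ n) (hn : 3 ≤ n) {d θ M : ℕ} {c : ℤ → ℂ} {μ : ℝ} (hd : DD n d)
    (hc : Mino c M μ) (hS : Sep {η : ZMod N | Wt θ (η * d)} M) {a : ZMod N} (ha : Wt 700 a)
    (R : Finset (ZMod n)) {ρ q l ε : ℝ} (hρ0 : 0 ≤ ρ) (hρ1 : ρ ≤ 1 / 2) (hq0 : 0 ≤ q)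
    (hq1 : q ≤ 1) (hl : 0 ≤ l) (hR : ∑ i ∈ Rᶜ, ‖ww (a * (d : ZMod N)) i‖ ≤ ε) :
    LB μ (Real.exp (-(ρ * θ / 4))) M (1 + Real.log M) ε q l (VV n (a * (d : ZMod N)))
      (PP n (a * (d : ZMod N))) R.card ≤ 2 * (ρ + 700 * q) := by
  obtain ⟨P, Q, hT, rfl⟩ := ha
  have hu := upper hN hd hc P Q hT hρ0 (hρ1.trans (by norm_num)) hq0 hq1
    (fun σ β i => cl (l * gg (c 1) (((P.map (2 ^ ·)).sum - (Q.map (2 ^ ·)).sum) * (d : ZMod N)) i
      ((d : ZMod N) * ∑ i ∈ β, pw N i + (d : ZMod N) * ∑ i ∈ σ, pw N i * (Q.map (2 ^ ·)).sum)))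
    (fun _ _ _ => cl_nonneg _) fun _ _ _ => cl_le _
  have hg := fun k : ZMod n => gain hN hn hS hc
    (fun σ β => pw N k * ((d : ZMod N) * ∑ i ∈ β, pw N i +
      (d : ZMod N) * ∑ i ∈ σ, pw N i * (Q.map (2 ^ ·)).sum))
    (fun σ => good_bw hN hρ0 hρ1 _ _ k θ) _ k R hq0 hq1 hl hR
  simp only [gg_shift hN] at hg
  have h := (sum_le_sum fun k _ => hg k).trans hu
  rw [sum_const, card_univ, ZMod.card, nsmul_eq_mul] at h
  have hn0 : (0 : ℝ) < n := Nat.cast_pos.2 (by omega)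
  simpa using le_of_mul_le_mul_left h hn0

/-- The least weight is bounded. -/
theorem least : ∃ S₀ : ℕ, ∀ (N n : ℕ) [NeZero N] [NeZero n] (d s : ℕ) (a : ZMod N),
    N + 1 = 2 ^ n → DD n d → Wt 700 a → Wt (s + 1) (a * d) → s < n →
    (∀ η : ZMod N, η ≠ 0 → Wt 700 η → ¬Wt s (η * d)) → a ≠ 0 → s < S₀ := by
  obtain ⟨x₀, hx₀, hnum⟩ := num
  obtain ⟨B₀, hB₀⟩ := large
  obtain ⟨B₁, hB₁⟩ := exists_nat_gt (1 / x₀)
  refine ⟨(B₀ + B₁) ^ 120, fun N n _ _ d s a hN hd ha hs hsn hmin ha0 => ?_⟩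
  by_contra hlt
  obtain ⟨B, hB1, hB2⟩ := exists_root s
  have hB : B₀ + B₁ ≤ B := by
    have := lt_of_pow_lt_pow_left₀ 120 (Nat.zero_le _) ((not_lt.1 hlt).trans_lt hB2)
    omega
  obtain ⟨l1, l2, l3, l4⟩ := hB₀ B (by omega)
  have hB0 : (701 : ℝ) ≤ B := by exact_mod_cast l1
  have hBp : (0 : ℝ) < B := by linarith
  obtain ⟨x, hx⟩ : ∃ x : ℝ, x = 1 / B := ⟨_, rfl⟩
  have hx0 : 0 < x := hx ▸ one_div_pos.2 hBp
  have hxB : ∀ k : ℕ, (B : ℝ) ^ k * x ^ k = 1 := fun k => by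
    rw [← mul_pow, hx, mul_one_div_cancel hBp.ne', one_pow]
  have hxs : x ≤ 1 / 701 := by rw [hx]; exact one_div_le_one_div_of_le (by norm_num) hB0
  have hx1 : x ≤ 1 := hxs.trans (by norm_num)
  have hpw : ∀ k : ℕ, k ≠ 0 → x ^ k ≤ 1 / 16 := fun k hk =>
    le_trans (pow_le_of_le_one hx0.le hx1 hk) (by linarith)
  have hxx : x ≤ x₀ := by
    have h1 : (B₁ : ℝ) ≤ B := by exact_mod_cast (by omega : B₁ ≤ B)
    rw [hx, one_div_le hBp hx₀]
    linarith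
  obtain ⟨M, c, hM, hc⟩ := exists_mino (pow_pos hx0 116) (hpw 116 (by norm_num))
  rw [← pow_mul] at hM
  have hMB : M ≤ 33 * B ^ 348 := by
    have h1 := mul_le_mul_of_nonneg_right hM (pow_pos hBp 348).le
    rw [mul_assoc, mul_comm (x ^ _), hxB, mul_one] at h1
    exact_mod_cast h1
  have e1 : 700 * B * B ^ 118 ≤ B ^ 120 := by
    rw [show B ^ 120 = B * B * B ^ 118 by ring]
    gcongr
    omega
  have hBn : 0 < B := lt_of_lt_of_le (by norm_num) l1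
  have e3 : 700 * B ≤ s :=
    ((Nat.le_mul_of_pos_right _ (pow_pos hBn 118)).trans e1).trans hB1
  have e4 : 2 * M < B ^ 350 := by
    have h2 : 66 < B * B := lt_of_lt_of_le (by norm_num) (Nat.mul_le_mul l1 l1)
    calc 2 * M ≤ 2 * (33 * B ^ 348) := Nat.mul_le_mul_left 2 hMB
      _ = 66 * B ^ 348 := by ring
      _ < B * B * B ^ 348 := Nat.mul_lt_mul_of_pos_right h2 (pow_pos hBn 348)
      _ = B ^ 350 := by ring
  have hS := sep hN hmin (by omega) (e1.trans hB1) (by omega) e4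
  obtain ⟨R, hR1, hR2⟩ := rel hN B hs
  have hsB : ((s + 1 : ℕ) : ℝ) ≤ 2 * B ^ 120 := by exact_mod_cast (Nat.succ_le_of_lt hB2).trans l4
  have hV := le_VV hN (hmin a ha0 ha)
  have hP := PP_le hN hs
  have key := LB_le hN (by omega) hd hc hS ha R (pow_pos hx0 116).le
    ((hpw 116 (by norm_num)).trans (by norm_num)) (pow_pos hx0 160).le (pow_le_one₀ hx0.le hx1)
    (pow_pos hx0 75).le hR2
  refine absurd key (not_le.2 (hnum x _ _ _ _ _ _ _ hx0 hxx (Real.exp_pos _).le ?_ (Nat.cast_nonneg _)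
    hM ?_ ?_ (le_trans (sum_nonneg fun _ _ => norm_nonneg _) hR2) ?_ ?_ (VV_le _) ?_ (Nat.cast_nonneg _) ?_))
  · have h1 : x ^ 116 * ((B ^ 118 : ℕ) : ℝ) = B ^ 2 := by
      push_cast
      linear_combination (B : ℝ) ^ 2 * hxB 116
    rw [h1, Real.exp_neg, hx, one_div, inv_pow]
    exact inv_anti₀ (pow_pos hBp _) l3
  · have := Real.log_natCast_nonneg M
    linarith
  · have h1 := mul_le_mul_of_nonneg_right (log_le hc.pos (by omega) hMB) hx0.le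
    have h2 := hxB 1
    simp only [pow_one] at h2
    linarith
  · rw [div_le_iff₀ (pow_pos two_pos B)]
    have h1 : (28 : ℝ) ≤ B ^ 380 := (by linarith : (28 : ℝ) ≤ B).trans
      (le_self_pow₀ (by linarith) (by norm_num))
    calc (14 : ℝ) * ((s + 1 : ℕ) : ℝ) ≤ 28 * B ^ 120 := by linarith
      _ ≤ B ^ 380 * B ^ 120 := mul_le_mul_of_nonneg_right h1 (pow_pos hBp _).le
      _ = x ^ 1000 * B ^ 1500 := by linear_combination (-(B : ℝ) ^ 500) * hxB 1000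
      _ ≤ x ^ 1000 * 2 ^ B := mul_le_mul_of_nonneg_left l2 (pow_pos hx0 _).le
  · have h1 : (B : ℝ) ^ 120 ≤ s := by exact_mod_cast hB1
    have h2 := mul_le_mul_of_nonneg_right (h1.trans hV) (pow_pos hx0 120).le
    rw [hxB] at h2
    linarith
  · have h2 := mul_le_mul_of_nonneg_right (by linarith : PP n (a * (d : ZMod N)) ≤ 28 * B ^ 120)
      (pow_pos hx0 120).le
    rwa [mul_assoc, hxB, mul_one] at h2
  · have h1 : (R.card : ℝ) ≤ ((s + 1 : ℕ) : ℝ) * B := by exact_mod_cast hR1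
    have h2 : (R.card : ℝ) ≤ 2 * B ^ 121 := by
      refine h1.trans ((mul_le_mul_of_nonneg_right hsB hBp.le).trans_eq ?_)
      ring
    have h3 := mul_le_mul_of_nonneg_right h2 (pow_pos hx0 121).le
    rwa [mul_assoc, hxB, mul_one] at h3

theorem bounded : ∃ k₀ S₀ : ℕ, ∀ n d : ℕ, 2 ≤ n → DD n d →
    ∃ η : ZMod (2 ^ n - 1), η ≠ 0 ∧ Wt k₀ η ∧ Wt S₀ (η * d) := by
  classical
  obtain ⟨S₀, hS₀⟩ := least
  refine ⟨700, S₀, fun n d hn hd => ?_⟩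
  have h4 : 4 ≤ 2 ^ n := by simpa using Nat.pow_le_pow_right (by norm_num : 0 < 2) hn
  obtain ⟨N, hN⟩ : ∃ N, N = 2 ^ n - 1 := ⟨_, rfl⟩
  rw [← hN]
  have hN1 : N + 1 = 2 ^ n := by omega
  have : NeZero N := ⟨by omega⟩
  have : NeZero n := ⟨by omega⟩
  have : Fact (1 < N) := ⟨by omega⟩
  have hex : ∃ η : ZMod N, η ≠ 0 ∧ Wt 700 η ∧ Wt n (η * d) :=
    ⟨1, one_ne_zero, by simpa using (wt_pow (R := ZMod N) 0).mono (by norm_num), wt_all hN1 _⟩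
  have hex' : ∃ T, ∃ η : ZMod N, η ≠ 0 ∧ Wt 700 η ∧ Wt T (η * d) := ⟨n, hex⟩
  obtain ⟨a, ha0, ha, hs⟩ := Nat.find_spec hex'
  refine ⟨a, ha0, ha, hs.mono ?_⟩
  rcases h : Nat.find hex' with _ | s
  · exact Nat.zero_le _
  · have h1 := Nat.find_min' hex' hex
    exact hS₀ N n d s a hN1 hd ha (h ▸ hs) (by omega)
      (fun η h0 h1 h2 => Nat.find_min hex' (by omega : s < Nat.find hex') ⟨η, h0, h1, h2⟩) ha0

end Pool.Agent.Lib.MP_a01f70_lc.BA
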