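import Pool.Agent.Lib.MP_a01f70_lc.BA.Test

/-! The term of first order. -/

set_option autoImplicit false
set_option linter.unusedSectionVars false

noncomputable section

namespace Pool.Agent.Lib.MP_a01f70_lc.BA

open Finset ZMod
open scoped ComplexConjugate

variable {N n : ℕ} [NeZero N] [NeZero n]

variable {Ω : Type} [Fintype Ω] {w : Ω → ℝ} {Y : Ω → ZMod N} {I : Set (ZMod N)} {τ μ : ℝ}
  {c : ℤ → ℂ} {M : ℕ}

theorem OrdA_norm (c : ℤ → ℂ) (a : ℤ) (z : ZMod N) :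
    ‖c a * (ee ((a : ZMod N) * z) - 1)‖ ≤ ‖c a‖ * 2 := by
  rw [norm_mul]
  exact mul_le_mul_of_nonneg_left (norm_ee_sub _) (norm_nonneg _)

theorem OrdA_test (h : Good w Y I τ) {T : Type} (S Z : Finset T) (hZ : Z ⊆ S) (γ : T → ℂ)
    (η : T → ZMod N) (h0 : ∀ t ∈ Z, η t = 0) {B : ℝ}
    (hB : ∀ F : Finset T, (∀ t ∈ F, t ∈ S ∧ t ∉ Z ∧ η t ∈ I) → ∑ t ∈ F, ‖γ t‖ ≤ B) :
    ‖∑ ω, (w ω : ℂ) * ∑ t ∈ S, γ t * ee (η t * Y ω) - ∑ t ∈ Z, γ t‖ ≤
      B + τ * ∑ t ∈ S, ‖γ t‖ := by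
  classical
  refine (h.test S Z hZ γ η h0).trans (add_le_add (hB _ fun t ht => ?_) le_rfl)
  obtain ⟨h1, h2⟩ := mem_filter.1 ht
  exact ⟨(mem_sdiff.1 h1).1, (mem_sdiff.1 h1).2, h2⟩

/-- `ph (y + z) - ph y = ∑_{a ≠ 0} c a (ee (a z) - 1) ee (a y)` (`ph_eq`). -/
theorem Mino.diff (h : Mino c M μ) (y z : ZMod N) :
    ((ph c M (y + z) - ph c M y : ℝ) : ℂ) =
      ∑ a ∈ (Icc (-M : ℤ) M).erase 0, c a * (ee ((a : ZMod N) * z) - 1) * ee ((a : ZMod N) * y) := by
  rw [Complex.ofReal_sub, h.ph_eq, h.ph_eq, ← sum_sub_distrib, sum_erase _ (by simp)]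
  refine sum_congr rfl fun a _ => ?_
  rw [mul_add, ee_add]
  ring

/-- As `ord0`: no frequency lies in `I`, coefficients at most `2 ‖c a‖`, `sum_norm'`. -/
theorem ord1a (h : Good w Y I τ) (hS : Sep I M) (hc : Mino c M μ) (z : ZMod N) :
    |∑ ω, w ω * (ph c M (Y ω + z) - ph c M (Y ω))| ≤ τ * (4 * M) := by
  have t := OrdA_test h ((Icc (-M : ℤ) M).erase 0) ∅ (empty_subset _)
    (fun a => c a * (ee ((a : ZMod N) * z) - 1)) (fun a => (a : ZMod N)) (by simp) (B := 0) ?_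
  · rw [sum_empty, sub_zero, zero_add] at t
    simp only [← hc.diff] at t
    rw [← Real.norm_eq_abs, ← Complex.norm_real]
    push_cast at t ⊢
    refine t.trans (mul_le_mul_of_nonneg_left ?_ h.tau)
    have := hc.sum_norm'
    refine (sum_le_sum fun a _ => OrdA_norm c a z).trans ?_
    rw [← sum_mul]
    linarith
  · refine fun F hF => le_of_eq (sum_eq_zero fun a ha => ?_)
    obtain ⟨h1, -, h2⟩ := hF a ha
    obtain ⟨h3, h4⟩ := mem_erase.1 h1
    rw [mem_Icc] at h4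
    exact absurd (hS.int _ h2 0 hS.zero a (abs_le.2 ⟨by omega, by omega⟩) (sub_zero _)) h3

/-- Expand with `Mino.diff` and `gg_eq`: indices `t = (a, s) ∈ (Icc (-M) M).erase 0 ×ˢ univ`,
frequency `a + sp s`, coefficient `c a (ee (a z) - 1) gam s`, `z = pw i * b`. `Good.test` with
`Z = {(1, (false, 0)), (-1, (true, 0))}`: both coefficients are `‖c 1‖ ^ 2 ‖ww b i‖ ^ 2 / 2`
(`cj`, `ee_neg`, `pw_zero`). The remaining indices with frequency in `I` form `Bad n I M`, the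
coefficient has norm at most `‖c a‖ * 2 * (‖ww b (i + j)‖ / 2)`. -/
theorem ord1b (h : Good w Y I τ) (hc : Mino c M μ) (b : ZMod N) (i : ZMod n) :
    ‖c 1‖ ^ 2 * ‖ww b i‖ ^ 2 - er c b I M i - τ * (4 * M * PP n b) ≤
      ∑ ω, w ω * (gg (c 1) b i (Y ω) * (ph c M (Y ω + pw N i * b) - ph c M (Y ω))) := by
  have hM := hc.pos
  have h1 : ‖c 1‖ ≤ 1 := hc.norm_le one_ne_zero
  set γ : ℤ × (Bool × ZMod n) → ℂ := fun t =>
    c t.1 * (ee ((t.1 : ZMod N) * (pw N i * b)) - 1) * gam (c 1) b i t.2 with hγ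
  have hn : ∀ t, ‖γ t‖ ≤ ‖c t.1‖ * 2 * ‖gam (c 1) b i t.2‖ := fun t => by
    rw [hγ, norm_mul]
    exact mul_le_mul_of_nonneg_right (OrdA_norm c _ _) (norm_nonneg _)
  have t := OrdA_test h ((Icc (-M : ℤ) M).erase 0 ×ˢ (univ : Finset (Bool × ZMod n)))
    {(1, (false, 0)), (-1, (true, 0))} ?_ γ (fun t => (t.1 : ZMod N) + sp N t.2) ?_
    (B := er c b I M i) ?_
  rotate_left
  · intro t ht
    simp only [mem_insert, mem_singleton] at ht
    rcases ht with rfl | rfl <;> simp only [mem_product, mem_erase, mem_Icc, mem_univ, and_true] <;>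
      omega
  · intro t ht
    simp only [mem_insert, mem_singleton] at ht
    rcases ht with rfl | rfl <;> simp [sp, pw_zero]
  · intro F hF
    refine (sum_le_sum_of_subset_of_nonneg (t := Bad n I M) (fun t ht => ?_)
      fun _ _ _ => norm_nonneg _).trans (sum_le_sum fun t _ => (hn t).trans ?_)
    · obtain ⟨a3, a4, a2⟩ := hF t ht
      obtain ⟨a5, a6⟩ := mem_erase.1 (mem_product.1 a3).1
      simp only [mem_insert, mem_singleton, not_or] at a4
      simp only [Bad, mem_filter]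
      exact ⟨mem_product.2 ⟨a6, mem_univ _⟩, a5, a2, a4.1, a4.2⟩
    · have := norm_gam h1 b i t.2
      nlinarith [norm_nonneg (c t.1)]
  have e1 : ∀ y : ZMod N, ∑ t ∈ (Icc (-M : ℤ) M).erase 0 ×ˢ (univ : Finset (Bool × ZMod n)),
      γ t * ee (((t.1 : ZMod N) + sp N t.2) * y) =
      ((gg (c 1) b i y * (ph c M (y + pw N i * b) - ph c M y) : ℝ) : ℂ) := fun y => by
    rw [Complex.ofReal_mul, hc.diff, gg_eq, mul_comm (∑ s, _), sum_mul_sum, sum_product]
    refine sum_congr rfl fun a _ => sum_congr rfl fun s _ => ?_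
    rw [add_mul, ee_add, hγ]
    ring
  have e2 : ∑ t ∈ ({(1, (false, 0)), (-1, (true, 0))} : Finset (ℤ × (Bool × ZMod n))), γ t =
      ((‖c 1‖ ^ 2 * ‖ww b i‖ ^ 2 : ℝ) : ℂ) := by
    have a1 := Complex.mul_conj' (c 1)
    have a2 := Complex.mul_conj' (ww b i)
    have a3 : ee (-(pw N i * b)) - 1 = conj (ww b i) := by rw [ee_neg, ww, map_sub, map_one]
    have a4 : ee (pw N i * b) - 1 = ww b i := rfl
    rw [sum_pair (by simp)]
    simp only [hγ, gam, Int.cast_one, Int.cast_neg, one_mul, neg_mul, add_zero, a3, a4, hc.cj,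
      map_mul, Bool.false_eq_true, if_false, if_true]
    push_cast
    rw [← a1, ← a2]
    ring
  simp only [e1] at t
  rw [e2] at t
  norm_cast at t
  have b1 := (abs_le.1 ((Real.norm_eq_abs _).symm.le.trans t)).1
  have b2 : ∑ t ∈ (Icc (-M : ℤ) M).erase 0 ×ˢ (univ : Finset (Bool × ZMod n)), ‖γ t‖ ≤
      4 * M * PP n b := by
    refine (sum_le_sum fun t _ => hn t).trans ?_
    rw [sum_product' (f := fun a s => ‖c a‖ * 2 * ‖gam (c 1) b i s‖), ← sum_mul_sum, ← sum_mul]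
    have := hc.sum_norm'
    refine mul_le_mul (by linarith) (sum_gam h1 b i) (sum_nonneg fun _ _ => norm_nonneg _) ?_
    positivity
  have b3 := mul_le_mul_of_nonneg_left b2 h.tau
  linarith

end Pool.Agent.Lib.MP_a01f70_lc.BA
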