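import Pool.Agent.Lib.MP_a01f70_lc.BA.Defs

/-! Test functions against a good law; the selection function. -/

set_option autoImplicit false
set_option linter.unusedSectionVars false

noncomputable section

namespace Pool.Agent.Lib.MP_a01f70_lc.BA

open Finset ZMod
open scoped ComplexConjugate

variable {N n : ℕ} [NeZero N] [NeZero n]

variable {Ω : Type} [Fintype Ω] {w : Ω → ℝ} {Y : Ω → ZMod N} {I : Set (ZMod N)} {τ μ : ℝ}
  {c : ℤ → ℂ} {M : ℕ}

open Classical in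
/-- Exchange the sums; the inner expectation is `1` for the frequency `0`, has norm at most `1`
always and at most `τ` outside `I`. `Z` is any set of indices with frequency `0`. -/
theorem Good.test (h : Good w Y I τ) {T : Type} (S Z : Finset T) (hZ : Z ⊆ S) (γ : T → ℂ)
    (η : T → ZMod N) (h0 : ∀ t ∈ Z, η t = 0) :
    ‖∑ ω, (w ω : ℂ) * ∑ t ∈ S, γ t * ee (η t * Y ω) - ∑ t ∈ Z, γ t‖ ≤
      ∑ t ∈ (S \ Z).filter (fun t => η t ∈ I), ‖γ t‖ + τ * ∑ t ∈ S, ‖γ t‖ := by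
  set E : T → ℂ := fun t => ∑ ω, (w ω : ℂ) * ee (η t * Y ω) with hE
  have h1 : ∑ ω, (w ω : ℂ) * ∑ t ∈ S, γ t * ee (η t * Y ω) = ∑ t ∈ S, γ t * E t := by
    simp only [hE, mul_sum]
    rw [sum_comm]
    exact sum_congr rfl fun t _ => sum_congr rfl fun ω _ => by ring
  have h2 : ∑ t ∈ Z, γ t * E t = ∑ t ∈ Z, γ t := sum_congr rfl fun t ht => by
    have : E t = 1 := by
      simp only [hE, h0 t ht, zero_mul, ee_zero, mul_one]
      exact_mod_cast h.one
    rw [this, mul_one]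
  have h3 : ∀ t, ‖E t‖ ≤ 1 := fun t => by
    refine (norm_sum_le _ _).trans (le_of_eq ?_)
    rw [← h.one]
    refine sum_congr rfl fun ω _ => ?_
    rw [norm_mul, norm_ee, mul_one, Complex.norm_real, Real.norm_of_nonneg (h.nn ω)]
  rw [h1, ← sum_sdiff hZ, h2, add_sub_cancel_right]
  calc _ ≤ ∑ t ∈ S \ Z, ‖γ t * E t‖ := norm_sum_le _ _
    _ ≤ ∑ t ∈ S \ Z, ((if η t ∈ I then ‖γ t‖ else 0) + τ * ‖γ t‖) := by
        refine sum_le_sum fun t _ => ?_
        rw [norm_mul]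
        have h4 := mul_nonneg h.tau (norm_nonneg (γ t))
        split_ifs with ht
        · nlinarith [h3 t, norm_nonneg (γ t)]
        · have h5 : ‖E t‖ ≤ τ := h.far _ ht
          nlinarith [norm_nonneg (γ t)]
    _ ≤ _ := by
        rw [sum_add_distrib, sum_filter, ← mul_sum]
        have h6 : ∑ t ∈ S \ Z, ‖γ t‖ ≤ ∑ t ∈ S, ‖γ t‖ :=
          sum_le_sum_of_subset_of_nonneg sdiff_subset fun _ _ _ => norm_nonneg _
        have h7 := mul_le_mul_of_nonneg_left h6 h.tau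
        linarith

/-- `z.re = (z + conj z) / 2`, `Fintype.sum_prod_type`, `Fintype.sum_bool`, `ee_neg`. -/
theorem gg_eq (c₁ : ℂ) (b : ZMod N) (i : ZMod n) (y : ZMod N) :
    (gg c₁ b i y : ℂ) = ∑ s, gam c₁ b i s * ee (sp N s * y) := by
  rw [gg, Complex.re_eq_add_conj, Fintype.sum_prod_type, Fintype.sum_bool, map_sum, add_div,
    sum_div, sum_div]
  congr 1
  · refine sum_congr rfl fun j _ => ?_
    simp only [gam, sp, if_true]
    ring
  · refine sum_congr rfl fun j _ => ?_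
    simp only [gam, sp, Bool.false_eq_true, if_false, neg_mul, ee_neg, map_mul]
    ring

theorem norm_gam {c₁ : ℂ} (h : ‖c₁‖ ≤ 1) (b : ZMod N) (i : ZMod n) (s : Bool × ZMod n) :
    ‖gam c₁ b i s‖ ≤ ‖ww b (i + s.2)‖ / 2 := by
  have h1 : ‖c₁ * ww b (i + s.2)‖ ≤ ‖ww b (i + s.2)‖ := by
    rw [norm_mul]
    exact mul_le_of_le_one_left (norm_nonneg _) h
  have h2 : ‖(2 : ℂ)‖ = 2 := by simp
  unfold gam
  split_ifs
  · rw [norm_div, h2]
    linarith
  · rw [norm_div, h2, Complex.norm_conj]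
    linarith

theorem sum_gam {c₁ : ℂ} (h : ‖c₁‖ ≤ 1) (b : ZMod N) (i : ZMod n) :
    ∑ s, ‖gam c₁ b i s‖ ≤ PP n b := by
  refine (sum_le_sum fun s _ => norm_gam h b i s).trans (le_of_eq ?_)
  rw [Fintype.sum_prod_type, Fintype.sum_bool, ← sum_add_distrib, PP]
  simp only [add_halves]
  exact Fintype.sum_equiv (Equiv.addLeft i) _ _ fun _ => rfl

/-- Reindex `j ↦ j + k`. -/
theorem gg_shift (hN : N + 1 = 2 ^ n) (c₁ : ℂ) (b : ZMod N) (i k : ZMod n) (y : ZMod N) :
    gg c₁ b (i + k) (pw N k * y) = gg c₁ b i y := by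
  unfold gg
  congr 1
  refine Fintype.sum_equiv (Equiv.addRight k) _ _ fun j => ?_
  rw [Equiv.coe_addRight, pw_add hN, mul_assoc (pw N j), add_right_comm i k j, add_assoc i j k]

end Pool.Agent.Lib.MP_a01f70_lc.BA
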